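import Pool.Agent.Lib.MP_62560c_lc.Defs

/-!
Basic notions for the combinatorial core: the context `Ctx` (a well-order `Λ` with cofinal points
`L 0 < L 1 < ⋯` carrying ultrafilters), iterated quantifiers `Tr`, selections `sel`, collapsed sets
`colSet`, generated sets.
-/

set_option autoImplicit false

set_option linter.unusedSectionVars false

open Cardinal Set

universe u v

namespace Pool.Agent.Lib.MP_62560c_lc

/-- `κ`-completeness of an ultrafilter (the index types in `Type u`) -/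
def Complete {α : Type v} (κ : Cardinal.{u}) (U : Ultrafilter α) : Prop :=
  ∀ (I : Type u) (s : I → Set α), #I < κ → (∀ i, s i ∈ U) → (⋂ i, s i) ∈ U

/-- finitary functions on the initial segment `Iio a` -/
abbrev Fn {Λ : Type u} [LinearOrder Λ] (a : Λ) : Type u := List (Iio a) → Iio a

/-- The context: `Λ` is a well-order (of type `λ`), the initial segments `Iio (L n)` are cardinals
`κ 0 < κ 1 < ⋯` cofinal in `Λ`, there are a nonprincipal `κ n`-complete ultrafilter on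
`Iio (L n)` and, for `n ≤ m`, a fine normal `κ n`-complete ultrafilter on the sets of fewer than `κ n`
finitary functions on `Iio (L m)`. -/
structure Ctx (Λ : Type u) [LinearOrder Λ] where
  L : ℕ → Λ
  mono : StrictMono L
  cof : ∀ i, ∃ n, i < L n
  unc : ∀ n, ℵ₀ < #(Iio (L n))
  init : ∀ n, ∀ i < L n, #(Iio i) < #(Iio (L n))
  strong : ∀ n, 2 ^ #(Iio (L n)) < #(Iio (L (n + 1)))
  um : ∀ n, Ultrafilter (Iio (L n))
  um_complete : ∀ n, Complete #(Iio (L n)) (um n)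
  um_nonprin : ∀ n i, {j | j ≠ i} ∈ um n
  wm : ∀ (_n m : ℕ), Ultrafilter (Set (Fn (L m)))
  wm_complete : ∀ n m, n ≤ m → Complete #(Iio (L n)) (wm n m)
  wm_small : ∀ n m, n ≤ m → {Q : Set (Fn (L m)) | #Q < #(Iio (L n))} ∈ wm n m
  wm_fine : ∀ n m, n ≤ m → ∀ h : Fn (L m), {Q : Set (Fn (L m)) | h ∈ Q} ∈ wm n m
  wm_normal : ∀ n m, n ≤ m → ∀ F : Set (Fn (L m)) → Fn (L m), {Q | F Q ∈ Q} ∈ wm n m →
    ∃ h, {Q | F Q = h} ∈ wm n m

/-- selection of the entries of a list at the places where the mask is `true` -/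
def sel {α : Type*} : List Bool → List α → List α
  | true :: s, a :: l => a :: sel s l
  | false :: s, _ :: l => sel s l
  | _, _ => []

/-- the iterated quantifier `∀^{μ k₁} a₁ ∀^{μ k₂} a₂ ⋯ P [a₁, a₂, …]` -/
def Tr {K : Type*} {M : Type*} (μ : K → Ultrafilter M) : List K → (List M → Prop) → Prop
  | [], P => P []
  | k :: ks, P => ∀ᶠ a in (μ k : Filter M), Tr μ ks fun l => P (a :: l)

/-- the Mostowski collapse of `y ∩ S`, `S` a subset of a well-order -/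
def colSet {α : Type*} [LinearOrder α] (S y : Set α) : Set α :=
  {ρ | ∃ ξ ∈ y ∩ S, Nonempty (Iio ρ ≃o ↥(S ∩ Iio ξ))}

section
variable {Λ : Type u} [LinearOrder Λ]

namespace Ctx

variable (c : Ctx Λ)

/-- the cardinals `κ n` -/
def κ (n : ℕ) : Cardinal.{u} := #(Iio (c.L n))

/-- the level of an element: the least `n` with `i < L n` -/
noncomputable def lv (i : Λ) : ℕ := by
  classical exact Nat.find (c.cof i)

theorem lv_le_iff {i : Λ} {n : ℕ} : c.lv i ≤ n ↔ i < c.L n := by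
  classical
  unfold lv
  rw [Nat.find_le_iff]
  constructor
  · rintro ⟨m, hm, h⟩
    exact h.trans_le (c.mono.monotone hm)
  · intro h
    exact ⟨n, le_rfl, h⟩

theorem lt_L_lv (i : Λ) : i < c.L (c.lv i) := c.lv_le_iff.1 le_rfl

theorem lv_mono {i j : Λ} (h : i ≤ j) : c.lv i ≤ c.lv j := c.lv_le_iff.2 (h.trans_lt (c.lt_L_lv j))

theorem κ_mono {n m : ℕ} (h : n ≤ m) : c.κ n ≤ c.κ m :=
  mk_le_mk_of_subset (Iio_subset_Iio (c.mono.monotone h))

theorem aleph0_lt (n : ℕ) : ℵ₀ < c.κ n := c.unc n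

theorem two_pow_lt (n : ℕ) : 2 ^ c.κ n < c.κ (n + 1) := c.strong n

theorem κ_lt (n : ℕ) : c.κ n < c.κ (n + 1) := (cantor _).trans (c.two_pow_lt n)

theorem κ_strictMono : StrictMono c.κ := strictMono_nat_of_lt_succ c.κ_lt

instance nonempty_Iio (m : ℕ) : Nonempty (Iio (c.L m)) := by
  have h := c.unc m
  by_contra hcon
  rw [not_nonempty_iff] at hcon
  rw [mk_eq_zero] at h
  exact absurd h (by simp)

/-- the retraction of `Λ` onto `Iio (L m)` -/
noncomputable def clamp (m : ℕ) (i : Λ) : Iio (c.L m) :=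
  haveI := Classical.propDecidable (i < c.L m)
  if h : i < c.L m then ⟨i, h⟩ else Classical.arbitrary _

theorem clamp_of_lt {m : ℕ} {i : Λ} (h : i < c.L m) : c.clamp m i = ⟨i, h⟩ := by
  unfold clamp
  exact dif_pos h

/-- the ultrafilter `um j` on `Iio (L m)` (meaningful for `j ≤ m`) -/
noncomputable def um' (m j : ℕ) : Ultrafilter (Iio (c.L m)) :=
  (c.um j).map fun i => c.clamp m i.1

/-- the restriction of `y ⊆ Λ` to `Iio (L m)` -/
def restr (y : Set Λ) (m : ℕ) : Set (Iio (c.L m)) := {i | i.1 ∈ y}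

/-- `δ` is a sequence of points, indexed by the elements of `Iio (L m)` of level `≥ n`, which is
generic over `(Q, z)`. -/
def IsPlain (n m : ℕ) (Q : Set (Fn (c.L m))) (z : Set (Iio (c.L m)))
    (δ : Iio (c.L m) → Iio (c.L m)) : Prop :=
  ∀ E : List (Iio (c.L m)), E.Pairwise (· < ·) → (∀ i ∈ E, n ≤ c.lv i.1) →
    (∀ f ∈ Q, ∀ g ∈ Q, ∀ s t : List Bool,
      (f (sel s (E.map δ)) < g (sel t (E.map δ)) ↔
        Tr (c.um' m) (E.map fun i => c.lv i.1) fun l => f (sel s l) < g (sel t l))) ∧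
    ∀ f ∈ Q, (f (E.map δ) ∈ z ↔ Tr (c.um' m) (E.map fun i => c.lv i.1) fun l => f l ∈ z)

/-- the set of the values `f (δ F)`, `f ∈ Q` -/
def plainRange (n m : ℕ) (Q : Set (Fn (c.L m))) (δ : Iio (c.L m) → Iio (c.L m)) :
    Set (Iio (c.L m)) :=
  {ζ | ∃ f ∈ Q, ∃ F : List (Iio (c.L m)), F.Pairwise (· < ·) ∧ (∀ i ∈ F, n ≤ c.lv i.1) ∧
    f (F.map δ) = ζ}

/-- the generated subsets of `Iio (L m)` -/
def Gen (n m : ℕ) : Set (Set (Iio (c.L m))) :=
  {G | ∃ (Q : Set (Fn (c.L m))) (z : Set (Iio (c.L m))) (δ : Iio (c.L m) → Iio (c.L m)),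
    #Q < c.κ n ∧ c.IsPlain n m Q z δ ∧ G = colSet (c.plainRange n m Q δ) z}

/-- `y` is not generated at any level -/
def Good (y : Set Λ) : Prop := ∀ n, ∃ m, n ≤ m ∧ c.restr y m ∉ c.Gen n m

end Ctx

/-! ### hulls -/

/-- the index set: every `i : Λ` carries first a `W`-point `wpt i` and then a `U`-point `upt i` -/
abbrev Idx (Λ : Type u) : Type u := Λ ×ₗ Bool

/-- the index of the `W`-point at `i` -/
def wpt (i : Λ) : Idx Λ := toLex (i, false)

/-- the index of the `U`-point at `i` -/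
def upt (i : Λ) : Idx Λ := toLex (i, true)

/-- the place of an index -/
def plc (i : Idx Λ) : Λ := (ofLex i).1

/-- A system of hulls.  `M` is a type containing (injectively) `Λ`, the finitary functions on
`Iio (L m)` and the sets of such functions; `ops` is a small family of operations on `M`.
At level `n ≥ q` the `W`-points are taken from `wm n (mm n)`. -/
structure Hull (c : Ctx Λ) (q : ℕ) (mm : ℕ → ℕ) (y : Set Λ) {M : Type v} (ord : Λ → M)
    (fn : ∀ m, Fn (c.L m) → M) (st : ∀ m, Set (Fn (c.L m)) → M) {O : Type u}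
    (ops : O → List M → M) where
  γ : Idx Λ → M
  Y : Set (Idx Λ) → Set M
  mono : ∀ {J J' : Set (Idx Λ)}, J ⊆ J' → Y J ⊆ Y J'
  op_mem : ∀ (J : Set (Idx Λ)) (o : O) (l : List M), (∀ v ∈ l, v ∈ Y J) → ops o l ∈ Y J
  pt_mem : ∀ (J : Set (Idx Λ)), ∀ i ∈ J, q ≤ c.lv (plc i) → γ i ∈ Y J
  /-- the `U`-points -/
  U : Λ → Λ
  U_lt : ∀ i, q ≤ c.lv i → U i < c.L (c.lv i)
  U_eq : ∀ i, q ≤ c.lv i → γ (upt i) = ord (U i)
  U_mono : ∀ i i', q ≤ c.lv i → i < i' → U i < U i'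
  /-- the `W`-points -/
  W : ∀ i : Λ, Set (Fn (c.L (mm (c.lv i))))
  W_eq : ∀ i, q ≤ c.lv i → γ (wpt i) = st _ (W i)
  W_small : ∀ i, q ≤ c.lv i → #(W i) < c.κ (c.lv i)
  /-- elimination of the points of high level -/
  elim : ∀ (J : Set (Idx Λ)) (n : ℕ), ∀ v < c.L n, ord v ∈ Y J →
    ord v ∈ Y {i | i ∈ J ∧ c.lv (plc i) ≤ n}
  /-- normality -/
  normal : ∀ (J : Set (Idx Λ)) (a : Λ), q ≤ c.lv a → wpt a ∈ J → ∀ h ∈ W a,
    fn _ h ∈ Y J → fn _ h ∈ Y {i | i ∈ J ∧ i < wpt a}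
  /-- fineness -/
  fine : ∀ (J : Set (Idx Λ)) (a : Λ), q ≤ c.lv a → (∀ i ∈ J, i < wpt a) →
    ∀ h : Fn (c.L (mm (c.lv a))), fn _ h ∈ Y J → h ∈ W a
  /-- elements of the hull of `J` and later `U`-points -/
  repr : ∀ (J : Set (Idx Λ)) (a : Λ) (I : Set Λ), q ≤ c.lv a → (∀ i ∈ J, i < wpt a) →
    (∀ i ∈ I, a ≤ i ∧ i < c.L (mm (c.lv a))) → ∀ v < c.L (mm (c.lv a)), ord v ∈ Y (J ∪ upt '' I) →
    ∃ f : Fn (c.L (mm (c.lv a))), fn _ f ∈ Y J ∧ ∃ E : List Λ, E.Pairwise (· < ·) ∧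
      (∀ i ∈ E, i ∈ I) ∧ (f (E.map fun i => c.clamp (mm (c.lv a)) (U i))).1 = v
  /-- types of the later `U`-points over the hull of `J` -/
  types_lt : ∀ (J : Set (Idx Λ)) (a : Λ), q ≤ c.lv a → (∀ i ∈ J, i < wpt a) →
    ∀ f g : Fn (c.L (mm (c.lv a))), fn _ f ∈ Y J → fn _ g ∈ Y J →
    ∀ E : List Λ, E.Pairwise (· < ·) → (∀ i ∈ E, a ≤ i ∧ i < c.L (mm (c.lv a))) →
    ∀ s t : List Bool,
      (f (sel s (E.map fun i => c.clamp (mm (c.lv a)) (U i))) <
          g (sel t (E.map fun i => c.clamp (mm (c.lv a)) (U i))) ↔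
        Tr (c.um' (mm (c.lv a))) (E.map c.lv) fun l => f (sel s l) < g (sel t l))
  types_mem : ∀ (J : Set (Idx Λ)) (a : Λ), q ≤ c.lv a → (∀ i ∈ J, i < wpt a) →
    ∀ f : Fn (c.L (mm (c.lv a))), fn _ f ∈ Y J →
    ∀ E : List Λ, E.Pairwise (· < ·) → (∀ i ∈ E, a ≤ i ∧ i < c.L (mm (c.lv a))) →
      (f (E.map fun i => c.clamp (mm (c.lv a)) (U i)) ∈ c.restr y (mm (c.lv a)) ↔
        Tr (c.um' (mm (c.lv a))) (E.map c.lv) fun l => f l ∈ c.restr y (mm (c.lv a)))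

/-- the index set attached to `x` -/
def Jset (c : Ctx Λ) (ns : ℕ → ℕ) (x : ℕ → Λ) : Set (Idx Λ) :=
  {i | ((ofLex i).2 = false ∧ ∃ k, c.lv (plc i) = ns k ∧ plc i < x k) ∨
    ((ofLex i).2 = true ∧ ∀ k, c.lv (plc i) = ns k → x k ≤ plc i)}

end

end Pool.Agent.Lib.MP_62560c_lc
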