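import Pool.Agent.Lib.MP_62560c_lc.Base

/-!
Module A: small sets closed under constants, unary and binary operations.
-/

set_option autoImplicit false

open Cardinal Set

universe u v

namespace Pool.Agent.Lib.MP_62560c_lc

/-- the arities -/
private def arity (Z Un Bi : Type u) : Z ⊕ (Un ⊕ Bi) → Type
  | Sum.inl _ => Empty
  | Sum.inr (Sum.inl _) => Unit
  | Sum.inr (Sum.inr _) => Bool

private instance arity_finite (Z Un Bi : Type u) : ∀ a, Finite (arity Z Un Bi a)
  | Sum.inl _ => inferInstanceAs (Finite Empty)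
  | Sum.inr (Sum.inl _) => inferInstanceAs (Finite Unit)
  | Sum.inr (Sum.inr _) => inferInstanceAs (Finite Bool)

/-- evaluation of the terms -/
private def evl {S : Type v} {Z Un Bi : Type u} (z : Z → S) (un : Un → S → S)
    (bi : Bi → S → S → S) : (Σ a : Z ⊕ (Un ⊕ Bi), arity Z Un Bi a → S) → S
  | ⟨Sum.inl a, _⟩ => z a
  | ⟨Sum.inr (Sum.inl f), c⟩ => un f (c ())
  | ⟨Sum.inr (Sum.inr g), c⟩ => bi g (c true) (c false)

/-- closure under small families of constants, unary and binary operations -/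
theorem exists_closure {S : Type v} {Z Un Bi : Type u} (z : Z → S) (un : Un → S → S)
    (bi : Bi → S → S → S) :
    ∃ (C : Type u) (ev : C → S), #C ≤ max ℵ₀ (#Z + #Un + #Bi) ∧ (∀ a, ∃ c, ev c = z a) ∧
      (∀ f c, ∃ c', ev c' = un f (ev c)) ∧
      ∀ g c c', ∃ c'', ev c'' = bi g (ev c) (ev c') := by
  refine ⟨WType (arity Z Un Bi), WType.elim S (evl z un bi), ?_, ?_, ?_, ?_⟩
  · have h := WType.cardinalMk_le_max_aleph0_of_finite' (β := arity Z Un Bi)
    rw [Cardinal.lift_id', max_comm] at h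
    simpa [add_assoc] using h
  · exact fun a => ⟨WType.mk (Sum.inl a) Empty.elim, rfl⟩
  · exact fun f c => ⟨WType.mk (Sum.inr (Sum.inl f)) fun _ => c, rfl⟩
  · exact fun g c c' => ⟨WType.mk (Sum.inr (Sum.inr g)) fun b => bif b then c else c', rfl⟩

end Pool.Agent.Lib.MP_62560c_lc
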