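import Pool.Agent.Lib.MP_62560c_lc.Base

/-!
Module F1: collapsed sets and order isomorphisms.
-/

set_option autoImplicit false

set_option linter.unusedSectionVars false

open Cardinal Set

universe u

namespace Pool.Agent.Lib.MP_62560c_lc

/-- an order embedding bounds the order type -/
theorem type_le_of_strictMono {α β : Type u} [LinearOrder α] [WellFoundedLT α] [LinearOrder β]
    [WellFoundedLT β] (f : α → β) (hf : StrictMono f) :
    Ordinal.type ((· < ·) : α → α → Prop) ≤ Ordinal.type ((· < ·) : β → β → Prop) :=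
  (OrderEmbedding.ofStrictMono f hf).ltEmbedding.ordinal_type_le

theorem type_eq_of_iso {α β : Type u} [LinearOrder α] [WellFoundedLT α] [LinearOrder β]
    [WellFoundedLT β] (e : α ≃o β) :
    Ordinal.type ((· < ·) : α → α → Prop) = Ordinal.type ((· < ·) : β → β → Prop) :=
  le_antisymm (type_le_of_strictMono e e.strictMono) (type_le_of_strictMono e.symm e.symm.strictMono)

theorem iso_of_type_eq {α β : Type u} [LinearOrder α] [WellFoundedLT α] [LinearOrder β]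
    [WellFoundedLT β]
    (h : Ordinal.type ((· < ·) : α → α → Prop) = Ordinal.type ((· < ·) : β → β → Prop)) :
    Nonempty (α ≃o β) := by
  obtain ⟨e⟩ := Ordinal.type_eq.1 h
  exact ⟨OrderIso.ofRelIsoLT e⟩

/-- isomorphic initial segments of a well-order are equal -/
theorem eq_of_Iio_iso {W : Type*} [LinearOrder W] [WellFoundedLT W] {a b : W}
    (e : Nonempty (Iio a ≃o Iio b)) : a = b := by
  obtain ⟨e⟩ := e
  have key : ∀ {a b : W}, (Iio a ≃o Iio b) → ¬ a < b := by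
    intro a b e hab
    have hm : StrictMono fun x : Iio b => (⟨(e.symm x).1, (e.symm x).2.trans hab⟩ : Iio b) := by
      intro x y hxy
      exact Subtype.mk_lt_mk.2 (e.symm.strictMono hxy)
    have h := hm.le_apply (x := (⟨a, hab⟩ : Iio b))
    exact absurd (lt_of_le_of_lt h (Subtype.mk_lt_mk.2 (e.symm ⟨a, hab⟩).2)) (lt_irrefl _)
  rcases lt_trichotomy a b with h | h | h
  · exact absurd h (key e)
  · exact h
  · exact absurd h (key e.symm)

/-- the initial segment of a subtype -/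
def subIio {α : Type*} [LinearOrder α] (T : Set α) (η : T) : Iio η ≃o ↥(T ∩ Iio η.1) where
  toFun x := ⟨x.1.1, x.1.2, x.2⟩
  invFun x := ⟨⟨x.1, x.2.1⟩, x.2.2⟩
  left_inv _ := rfl
  right_inv _ := rfl
  map_rel_iff' := Iff.rfl

/-- the restriction of an isomorphism to an initial segment -/
def isoIio {α β : Type*} [LinearOrder α] [LinearOrder β] (e : α ≃o β) (a : α) :
    Iio a ≃o Iio (e a) where
  toFun x := ⟨e x.1, e.strictMono x.2⟩
  invFun x := ⟨e.symm x.1, by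
    have h : x.1 < e a := x.2
    have h2 := e.symm.strictMono h
    rwa [e.symm_apply_apply] at h2⟩
  left_inv x := Subtype.ext (e.symm_apply_apply x.1)
  right_inv x := Subtype.ext (e.apply_symm_apply x.1)
  map_rel_iff' := by
    intro x y
    exact e.le_iff_le

/-- an initial segment of a subset is isomorphic to an initial segment -/
theorem exists_Iio_iso {α : Type*} [LinearOrder α] [WellFoundedLT α] (S : Set α) (ξ : α) :
    ∃ ρ ≤ ξ, Nonempty (Iio ρ ≃o ↥(S ∩ Iio ξ)) := by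
  have h1 : Ordinal.type ((· < ·) : ↥(S ∩ Iio ξ) → ↥(S ∩ Iio ξ) → Prop) ≤
      Ordinal.typein ((· < ·) : α → α → Prop) ξ := by
    rw [← Ordinal.type_Iio_lt]
    exact type_le_of_strictMono (fun x : ↥(S ∩ Iio ξ) => (⟨x.1, x.2.2⟩ : Iio ξ))
      fun x y h => h
  obtain ⟨ρ, hρ⟩ := Ordinal.typein_surj ((· < ·) : α → α → Prop)
    (h1.trans_lt (Ordinal.typein_lt_type _ ξ))
  refine ⟨ρ, ?_, ?_⟩
  · by_contra hcon
    have h2 := (Ordinal.typein_lt_typein ((· < ·) : α → α → Prop)).2 (not_le.1 hcon)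
    rw [hρ] at h2
    exact absurd h2 (not_lt.2 h1)
  · apply iso_of_type_eq
    rw [Ordinal.type_Iio_lt]
    exact hρ

theorem mem_colSet_iff {α : Type*} [LinearOrder α] [WellFoundedLT α] {T z : Set α} (η : T) {ρ : α}
    (h : Nonempty (Iio ρ ≃o ↥(T ∩ Iio η.1))) : ρ ∈ colSet T z ↔ η.1 ∈ z := by
  constructor
  · rintro ⟨ξ, ⟨hξz, hξT⟩, ⟨e⟩⟩
    obtain ⟨e'⟩ := h
    have h2 : (⟨ξ, hξT⟩ : T) = η := eq_of_Iio_iso
      ⟨((subIio T ⟨ξ, hξT⟩).trans e.symm).trans (e'.trans (subIio T η).symm)⟩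
    rw [← h2]
    exact hξz
  · intro hz
    exact ⟨η.1, ⟨hz, η.2⟩, h⟩

/-- isomorphic subsets with different traces of `z` have different collapses -/
theorem colSet_ne {α : Type*} [LinearOrder α] [WellFoundedLT α] {T T' z : Set α} (Θ : T' ≃o T)
    (η : T') (h : ¬ (η.1 ∈ z ↔ (Θ η).1 ∈ z)) : colSet T z ≠ colSet T' z := by
  obtain ⟨ρ, -, ⟨e⟩⟩ := exists_Iio_iso T' η.1
  intro heq
  apply h
  rw [← mem_colSet_iff (z := z) η ⟨e⟩, ← heq]
  exact mem_colSet_iff (Θ η)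
    ⟨(e.trans (subIio T' η).symm).trans ((isoIio Θ η).trans (subIio T (Θ η)))⟩

variable {Λ : Type u} [LinearOrder Λ] [WellFoundedLT Λ]

/-- a well-order whose proper initial segments are smaller -/
theorem type_eq_ord {X : Type u} [LinearOrder X] [WellFoundedLT X] (h : ∀ x : X, #(Iio x) < #X) :
    Ordinal.type ((· < ·) : X → X → Prop) = (#X).ord := by
  apply le_antisymm
  · by_contra hcon
    obtain ⟨x, hx⟩ := Ordinal.typein_surj _ (not_le.1 hcon)
    have h1 := Ordinal.card_typein (r := ((· < ·) : X → X → Prop)) x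
    rw [hx, Cardinal.card_ord] at h1
    exact absurd (h x) (by rw [h1]; exact lt_irrefl _)
  · rw [Cardinal.ord_le, Ordinal.card_type]

/-- full-size subsets of the cardinal `Iio (L m)` are isomorphic -/
theorem orderIso_of_card (c : Ctx Λ) (m : ℕ) (S S' : Set (Iio (c.L m))) (hS : #S = c.κ m)
    (hS' : #S' = c.κ m) : Nonempty (S ≃o S') := by
  have key : ∀ S : Set (Iio (c.L m)), #S = c.κ m →
      Ordinal.type ((· < ·) : S → S → Prop) = (c.κ m).ord := by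
    intro S hS
    rw [← hS]
    apply type_eq_ord
    intro x
    rw [hS]
    refine lt_of_le_of_lt ?_ (c.init m x.1.1 x.1.2)
    exact Cardinal.mk_le_of_injective (f := fun y : Iio x => (⟨y.1.1.1, y.2⟩ : Iio x.1.1))
      fun y z hyz => Subtype.ext (Subtype.ext (Subtype.ext (congrArg (fun t => t.1) hyz)))
  exact iso_of_type_eq ((key S hS).trans (key S' hS').symm)

/-- the part of a collapsed set below `L m` -/
theorem colSet_restr (c : Ctx Λ) (m : ℕ) (S y : Set Λ) (hS : #↥(S ∩ Iio (c.L m)) = c.κ m) :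
    c.restr (colSet S y) m = colSet (c.restr S m) (c.restr y m) := by
  ext ρ
  constructor
  · rintro ⟨ξ, ⟨hξy, hξS⟩, ⟨e⟩⟩
    have hξ : ξ < c.L m := by
      by_contra hcon
      have h1 : #↥(S ∩ Iio (c.L m)) ≤ #↥(S ∩ Iio ξ) :=
        Cardinal.mk_le_mk_of_subset (inter_subset_inter_right _ (Iio_subset_Iio (not_lt.1 hcon)))
      rw [hS, ← Cardinal.mk_congr e.toEquiv] at h1
      exact absurd (c.init m ρ.1 ρ.2) (not_lt.2 h1)
    refine ⟨⟨ξ, hξ⟩, ⟨hξy, hξS⟩, ⟨?_⟩⟩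
    exact
      { toFun := fun x => ⟨⟨(e ⟨x.1.1, x.2⟩).1, (e ⟨x.1.1, x.2⟩).2.2.trans hξ⟩,
          (e ⟨x.1.1, x.2⟩).2.1, (e ⟨x.1.1, x.2⟩).2.2⟩
        invFun := fun x => ⟨⟨(e.symm ⟨x.1.1, x.2.1, x.2.2⟩).1,
          (e.symm ⟨x.1.1, x.2.1, x.2.2⟩).2.trans ρ.2⟩, (e.symm ⟨x.1.1, x.2.1, x.2.2⟩).2⟩
        left_inv := by
          intro x
          apply Subtype.ext
          apply Subtype.ext
          exact congrArg (fun t => t.1) (e.symm_apply_apply ⟨x.1.1, x.2⟩)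
        right_inv := by
          intro x
          apply Subtype.ext
          apply Subtype.ext
          exact congrArg (fun t => t.1) (e.apply_symm_apply ⟨x.1.1, x.2.1, x.2.2⟩)
        map_rel_iff' := by
          intro x x'
          exact e.le_iff_le (x := ⟨x.1.1, x.2⟩) (y := ⟨x'.1.1, x'.2⟩) }
  · rintro ⟨ξ, ⟨hξy, hξS⟩, ⟨e⟩⟩
    refine ⟨ξ.1, ⟨hξy, hξS⟩, ⟨?_⟩⟩
    exact
      { toFun := fun x => ⟨(e ⟨⟨x.1, x.2.trans ρ.2⟩, x.2⟩).1.1,
          (e ⟨⟨x.1, x.2.trans ρ.2⟩, x.2⟩).2.1, (e ⟨⟨x.1, x.2.trans ρ.2⟩, x.2⟩).2.2⟩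
        invFun := fun x => ⟨(e.symm ⟨⟨x.1, x.2.2.trans ξ.2⟩, x.2.1, x.2.2⟩).1.1,
          (e.symm ⟨⟨x.1, x.2.2.trans ξ.2⟩, x.2.1, x.2.2⟩).2⟩
        left_inv := by
          intro x
          apply Subtype.ext
          exact congrArg (fun t => t.1.1) (e.symm_apply_apply ⟨⟨x.1, x.2.trans ρ.2⟩, x.2⟩)
        right_inv := by
          intro x
          apply Subtype.ext
          exact congrArg (fun t => t.1.1)
            (e.apply_symm_apply ⟨⟨x.1, x.2.2.trans ξ.2⟩, x.2.1, x.2.2⟩)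
        map_rel_iff' := by
          intro x x'
          exact e.le_iff_le (x := ⟨⟨x.1, x.2.trans ρ.2⟩, x.2⟩) (y := ⟨⟨x'.1, x'.2.trans ρ.2⟩, x'.2⟩) }

/-- the elements of `A` of level `j`, as a subset of `Iio (L j)` -/
def lvSet (c : Ctx Λ) (A : Set Λ) (j : ℕ) : Set (Iio (c.L j)) :=
  {x | x.1 ∈ A ∧ c.lv x.1 = j}

theorem card_lvSet (c : Ctx Λ) (A : Set Λ) (n j : ℕ) (hnj : n ≤ j) (hA : ∀ i ∈ A, n ≤ c.lv i)
    (hj : #↥(A ∩ Iio (c.L j)) = c.κ j) : #(lvSet c A j) = c.κ j := by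
  have hlv : #(lvSet c A j) = #{x : Λ | x ∈ A ∧ c.lv x = j} := by
    apply Cardinal.mk_congr
    exact
      { toFun := fun x => ⟨x.1.1, x.2⟩
        invFun := fun x => ⟨⟨x.1, c.lv_le_iff.1 x.2.2.le⟩, x.2⟩
        left_inv := fun _ => rfl
        right_inv := fun _ => rfl }
  rw [hlv]
  rcases Nat.eq_or_lt_of_le hnj with h | h
  · have : A ∩ Iio (c.L j) = {x : Λ | x ∈ A ∧ c.lv x = j} := by
      ext x
      constructor
      · rintro ⟨h1, h2⟩
        exact ⟨h1, le_antisymm (c.lv_le_iff.2 h2) (h ▸ hA x h1)⟩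
      · rintro ⟨h1, h2⟩
        exact ⟨h1, c.lv_le_iff.1 h2.le⟩
    rw [← this, hj]
  · obtain ⟨i, rfl⟩ : ∃ i, j = i + 1 := ⟨j - 1, by omega⟩
    have hsub : A ∩ Iio (c.L (i + 1)) ⊆ Iio (c.L i) ∪ {x : Λ | x ∈ A ∧ c.lv x = i + 1} := by
      rintro x ⟨h1, h2⟩
      rcases Nat.lt_or_ge (c.lv x) (i + 1) with h3 | h3
      · exact Or.inl (c.lv_le_iff.1 (Nat.le_of_lt_succ h3))
      · exact Or.inr ⟨h1, le_antisymm (c.lv_le_iff.2 h2) h3⟩
    apply le_antisymm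
    · rw [← hj]
      apply Cardinal.mk_le_mk_of_subset
      rintro x ⟨h1, h2⟩
      exact ⟨h1, c.lv_le_iff.1 h2.le⟩
    · by_contra hcon
      have h1 : c.κ (i + 1) ≤ #(Iio (c.L i)) + #{x : Λ | x ∈ A ∧ c.lv x = i + 1} := by
        rw [← hj]
        exact (Cardinal.mk_le_mk_of_subset hsub).trans (Cardinal.mk_union_le _ _)
      exact absurd h1 (not_le.2 (Cardinal.add_lt_of_lt (c.aleph0_lt _).le (c.κ_lt i)
        (not_le.1 hcon)))

/-- subsets which are large on all the levels from `n` to `m` are isomorphic, preserving levels -/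
theorem exists_level_iso (c : Ctx Λ) {n m : ℕ} (hnm : n ≤ m) (A B : Set Λ)
    (hA : ∀ i ∈ A, n ≤ c.lv i ∧ c.lv i ≤ m) (hB : ∀ i ∈ B, n ≤ c.lv i ∧ c.lv i ≤ m)
    (hA' : ∀ j, n ≤ j → j ≤ m → #↥(A ∩ Iio (c.L j)) = c.κ j)
    (hB' : ∀ j, n ≤ j → j ≤ m → #↥(B ∩ Iio (c.L j)) = c.κ j) :
    ∃ θ : A ≃o B, ∀ i : A, c.lv (θ i).1 = c.lv i.1 := by
  have hex : ∀ j, n ≤ j → j ≤ m → Nonempty (lvSet c A j ≃o lvSet c B j) := fun j h1 h2 =>
    orderIso_of_card c j _ _ (card_lvSet c A n j h1 (fun i hi => (hA i hi).1) (hA' j h1 h2))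
      (card_lvSet c B n j h1 (fun i hi => (hB i hi).1) (hB' j h1 h2))
  let e : ∀ j, n ≤ j ∧ j ≤ m → (lvSet c A j ≃o lvSet c B j) := fun j h => (hex j h.1 h.2).some
  let inA : ∀ (j : ℕ) (i : A), c.lv i.1 = j → lvSet c A j := fun j i h =>
    ⟨⟨i.1, c.lv_le_iff.1 h.le⟩, i.2, h⟩
  let θ : A → B := fun i => ⟨(e (c.lv i.1) (hA i.1 i.2) (inA _ i rfl)).1.1,
    (e (c.lv i.1) (hA i.1 i.2) (inA _ i rfl)).2.1⟩
  have hθ : ∀ i, c.lv (θ i).1 = c.lv i.1 := fun i =>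
    (e (c.lv i.1) (hA i.1 i.2) (inA _ i rfl)).2.2
  have hθ' : ∀ (j : ℕ) (h : n ≤ j ∧ j ≤ m) (i : A) (hi : c.lv i.1 = j),
      (θ i).1 = (e j h (inA j i hi)).1.1 := by
    intro j h i hi
    subst hi
    rfl
  have hmono : StrictMono θ := by
    intro i i' hii
    have h1 : c.lv i.1 ≤ c.lv i'.1 := c.lv_mono (le_of_lt hii)
    rcases Nat.eq_or_lt_of_le h1 with h2 | h2
    · have h3 := hθ' (c.lv i'.1) (hA i'.1 i'.2) i h2
      have h4 := hθ' (c.lv i'.1) (hA i'.1 i'.2) i' rfl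
      change (θ i).1 < (θ i').1
      rw [h3, h4]
      exact (e (c.lv i'.1) (hA i'.1 i'.2)).strictMono (a := inA _ i h2) (b := inA _ i' rfl) hii
    · by_contra hcon
      have h3 : c.lv (θ i').1 ≤ c.lv (θ i).1 := c.lv_mono (not_lt.1 hcon)
      rw [hθ, hθ] at h3
      omega
  have hsurj : Function.Surjective θ := by
    intro b
    let x := (e (c.lv b.1) (hB b.1 b.2)).symm ⟨⟨b.1, c.lt_L_lv b.1⟩, b.2, rfl⟩
    refine ⟨⟨x.1.1, x.2.1⟩, ?_⟩
    apply Subtype.ext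
    rw [hθ' (c.lv b.1) (hB b.1 b.2) ⟨x.1.1, x.2.1⟩ x.2.2]
    exact congrArg (fun t => t.1.1) ((e (c.lv b.1) (hB b.1 b.2)).apply_symm_apply
      ⟨⟨b.1, c.lt_L_lv b.1⟩, b.2, rfl⟩)
  exact ⟨StrictMono.orderIsoOfSurjective θ hmono hsurj, fun i => hθ i⟩

end Pool.Agent.Lib.MP_62560c_lc
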