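import Pool.Agent.Lib.MP_62560c_lc.Merge
import Pool.Agent.Lib.MP_62560c_lc.Order

/-!
Module E: there are few generated sets.
-/

set_option autoImplicit false
set_option linter.unusedSectionVars false

open Cardinal Set

universe u v

namespace Pool.Agent.Lib.MP_62560c_lc

variable {Λ : Type u} [LinearOrder Λ] [WellFoundedLT Λ]

private theorem range_orderIso {P α β : Type*} [LinearOrder α] [LinearOrder β] (p : P → α)
    (p' : P → β) (h : ∀ x y, p x < p y ↔ p' x < p' y) :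
    ∃ Θ : range p ≃o range p', ∀ x, (Θ ⟨p x, x, rfl⟩).1 = p' x := by
  have heq : ∀ x y, p x = p y → p' x = p' y := by
    intro x y hxy
    apply le_antisymm
    · exact not_lt.1 fun hlt => absurd ((h y x).2 hlt) (by rw [hxy]; exact lt_irrefl _)
    · exact not_lt.1 fun hlt => absurd ((h x y).2 hlt) (by rw [hxy]; exact lt_irrefl _)
  let f : range p → range p' := fun ξ => ⟨p' ξ.2.choose, mem_range_self _⟩
  have hf : ∀ x, (f ⟨p x, x, rfl⟩).1 = p' x := by
    intro x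
    exact heq _ _ (Exists.choose_spec (p := fun y => p y = p x) ⟨x, rfl⟩)
  have hmono : StrictMono f := by
    rintro ⟨_, x, rfl⟩ ⟨_, y, rfl⟩ hxy
    have h1 : p x < p y := hxy
    show (f ⟨p x, x, rfl⟩).1 < (f ⟨p y, y, rfl⟩).1
    rw [hf, hf]
    exact (h x y).1 h1
  have hsurj : Function.Surjective f := by
    rintro ⟨_, x, rfl⟩
    exact ⟨⟨p x, x, rfl⟩, Subtype.ext (hf x)⟩
  exact ⟨hmono.orderIsoOfSurjective f hsurj, hf⟩

private theorem colSet_congr_iso {α : Type*} [LinearOrder α] {R R' z z' : Set α} (Θ : R ≃o R')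
    (hz : ∀ ξ : R, ξ.1 ∈ z ↔ (Θ ξ).1 ∈ z') : colSet R z ⊆ colSet R' z' := by
  rintro ρ ⟨ξ, ⟨hξz, hξR⟩, ⟨e⟩⟩
  refine ⟨(Θ ⟨ξ, hξR⟩).1, ⟨(hz ⟨ξ, hξR⟩).1 hξz, (Θ ⟨ξ, hξR⟩).2⟩, ⟨e.trans ?_⟩⟩
  refine
    { toFun := fun x => ⟨(Θ ⟨x.1, x.2.1⟩).1, (Θ ⟨x.1, x.2.1⟩).2, ?_⟩
      invFun := fun x => ⟨(Θ.symm ⟨x.1, x.2.1⟩).1, (Θ.symm ⟨x.1, x.2.1⟩).2, ?_⟩
      left_inv := ?_
      right_inv := ?_
      map_rel_iff' := ?_ }
  · exact Θ.strictMono (show (⟨x.1, x.2.1⟩ : R) < ⟨ξ, hξR⟩ from x.2.2)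
  · have h1 : (⟨x.1, x.2.1⟩ : R') < Θ ⟨ξ, hξR⟩ := x.2.2
    have h2 := Θ.symm.strictMono h1
    rw [OrderIso.symm_apply_apply] at h2
    exact h2
  · intro x
    apply Subtype.ext
    simp
  · intro x
    apply Subtype.ext
    simp
  · intro x y
    exact Θ.le_iff_le (x := ⟨x.1, x.2.1⟩) (y := ⟨y.1, y.2.1⟩)

/-- two plain sequences over families with the same type have ranges with the same collapse -/
theorem colSet_eq_of_types (c : Ctx Λ) {n m : ℕ} {A : Type u} {f f' : A → Fn (c.L m)}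
    {z z' : Set (Iio (c.L m))} {δ δ' : Iio (c.L m) → Iio (c.L m)}
    (h : c.IsPlain n m (range f) z δ) (h' : c.IsPlain n m (range f') z' δ')
    (hlt : ∀ (a b : A) (e : List ℕ) (s t : List Bool),
      (Tr (c.um' m) e (fun l => f a (sel s l) < f b (sel t l)) ↔
        Tr (c.um' m) e (fun l => f' a (sel s l) < f' b (sel t l))))
    (hz : ∀ (a : A) (e : List ℕ),
      (Tr (c.um' m) e (fun l => f a l ∈ z) ↔ Tr (c.um' m) e (fun l => f' a l ∈ z'))) :
    colSet (c.plainRange n m (range f) δ) z = colSet (c.plainRange n m (range f') δ') z' := by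
  let P : Type u := {p : A × List (Iio (c.L m)) // p.2.Pairwise (· < ·) ∧
    ∀ i ∈ p.2, n ≤ c.lv i.1}
  let p : P → Iio (c.L m) := fun x => f x.1.1 (x.1.2.map δ)
  let p' : P → Iio (c.L m) := fun x => f' x.1.1 (x.1.2.map δ')
  have hR : ∀ (g : A → Fn (c.L m)) (η : Iio (c.L m) → Iio (c.L m)),
      c.plainRange n m (range g) η = range fun x : P => g x.1.1 (x.1.2.map η) := by
    intro g η
    ext ζ
    constructor
    · rintro ⟨_, ⟨a, rfl⟩, F, hF, hF', rfl⟩
      exact ⟨⟨(a, F), hF, hF'⟩, rfl⟩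
    · rintro ⟨⟨⟨a, F⟩, hF, hF'⟩, rfl⟩
      exact ⟨_, ⟨a, rfl⟩, F, hF, hF', rfl⟩
  have hpp : ∀ x y, p x < p y ↔ p' x < p' y := by
    rintro ⟨⟨a, F⟩, hF, hF'⟩ ⟨⟨b, G⟩, hG, hG'⟩
    obtain ⟨E, s, t, hE, hmem, hs, ht⟩ := exists_merge F G hF hG
    have hE' : ∀ i ∈ E, n ≤ c.lv i.1 := by
      intro i hi
      rcases (hmem i).1 hi with hi | hi
      · exact hF' i hi
      · exact hG' i hi
    have h1 := (h E hE hE').1 (f a) ⟨a, rfl⟩ (f b) ⟨b, rfl⟩ s t
    have h2 := (h' E hE hE').1 (f' a) ⟨a, rfl⟩ (f' b) ⟨b, rfl⟩ s t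
    rw [← sel_map, ← sel_map, hs, ht] at h1 h2
    exact h1.trans ((hlt a b _ s t).trans h2.symm)
  obtain ⟨Θ, hΘ⟩ := range_orderIso p p' hpp
  have hzz : ∀ ξ : range p, ξ.1 ∈ z ↔ (Θ ξ).1 ∈ z' := by
    rintro ⟨_, x, rfl⟩
    rw [hΘ]
    obtain ⟨⟨a, F⟩, hF, hF'⟩ := x
    have h1 := (h F hF hF').2 (f a) ⟨a, rfl⟩
    have h2 := (h' F hF hF').2 (f' a) ⟨a, rfl⟩
    exact h1.trans ((hz a _).trans h2.symm)
  rw [hR, hR]
  apply Subset.antisymm
  · exact colSet_congr_iso Θ hzz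
  · refine colSet_congr_iso Θ.symm fun ξ => ?_
    have := hzz (Θ.symm ξ)
    rw [OrderIso.apply_symm_apply] at this
    exact this.symm

/-- the code of a plain sequence -/
private def codeOf (c : Ctx Λ) (n m : ℕ) (f : Iio (c.L n) → Fn (c.L m))
    (z : Set (Iio (c.L m))) :
    Set ((Iio (c.L n) × Iio (c.L n)) × (List ℕ × List Bool × List Bool)) ×
      Set (Iio (c.L n) × List ℕ) :=
  ({p | Tr (c.um' m) p.2.1 fun l => f p.1.1 (sel p.2.2.1 l) < f p.1.2 (sel p.2.2.2 l)},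
    {p | Tr (c.um' m) p.2 fun l => f p.1 l ∈ z})

/-- there are few generated sets -/
theorem card_Gen (c : Ctx Λ) (n m : ℕ) : #(c.Gen n m) ≤ 2 ^ c.κ n := by
  classical
  let D : Type u := Set ((Iio (c.L n) × Iio (c.L n)) × (List ℕ × List Bool × List Bool)) ×
      Set (Iio (c.L n) × List ℕ)
  have hunc : ℵ₀ ≤ c.κ n := (c.aleph0_lt n).le
  have h2 : ℵ₀ ≤ 2 ^ c.κ n := hunc.trans (cantor _).le
  have hκ : c.κ n * c.κ n = c.κ n := mul_eq_self hunc
  have hlift : ∀ a : Cardinal.{0}, a ≤ ℵ₀ → c.κ n * lift.{u} a ≤ c.κ n := by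
    intro a ha
    calc c.κ n * lift.{u} a ≤ c.κ n * c.κ n :=
          mul_le_mul_right ((lift_le_aleph0.2 ha).trans hunc) _
      _ = c.κ n := hκ
  have hD : #D ≤ 2 ^ c.κ n := by
    have h3 : #((Iio (c.L n) × Iio (c.L n)) × (List ℕ × List Bool × List Bool)) ≤ c.κ n := by
      rw [mk_prod, lift_uzero, mk_prod, lift_id]
      show c.κ n * c.κ n * _ ≤ _
      rw [hκ]
      exact hlift _ mk_le_aleph0
    have h4 : #(Iio (c.L n) × List ℕ) ≤ c.κ n := by
      rw [mk_prod, lift_uzero]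
      exact hlift _ mk_le_aleph0
    show #(Set ((Iio (c.L n) × Iio (c.L n)) × (List ℕ × List Bool × List Bool)) ×
      Set (Iio (c.L n) × List ℕ)) ≤ _
    rw [mk_prod, lift_id, lift_id, mk_set, mk_set]
    calc _ ≤ 2 ^ c.κ n * 2 ^ c.κ n := mul_le_mul' (power_le_power_left two_ne_zero h3)
          (power_le_power_left two_ne_zero h4)
      _ = 2 ^ c.κ n := mul_eq_self h2
  -- the decoding function
  let IsCode : D → Set (Iio (c.L m)) → Prop := fun d G =>
    ∃ (f : Iio (c.L n) → Fn (c.L m)) (z : Set (Iio (c.L m))) (δ : Iio (c.L m) → Iio (c.L m)),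
      c.IsPlain n m (range f) z δ ∧ G = colSet (c.plainRange n m (range f) δ) z ∧
      d = codeOf c n m f z
  have huniq : ∀ d G G', IsCode d G → IsCode d G' → G = G' := by
    rintro d G G' ⟨f, z, δ, hδ, rfl, hd⟩ ⟨f', z', δ', hδ', rfl, hd'⟩
    have heq : codeOf c n m f z = codeOf c n m f' z' := hd.symm.trans hd'
    have h1 := congrArg Prod.fst heq
    have h2 := congrArg Prod.snd heq
    apply colSet_eq_of_types c hδ hδ'
    · intro a b e s t
      exact Set.ext_iff.1 h1 ((a, b), (e, s, t))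
    · intro a e
      exact Set.ext_iff.1 h2 (a, e)
  let g : Option D → Set (Iio (c.L m)) := fun o =>
    match o with
    | none => ∅
    | some d => if h : ∃ G, IsCode d G then h.choose else ∅
  have hsub : c.Gen n m ⊆ range g := by
    rintro G ⟨Q, z, δ, hQ, hδ, hG⟩
    rcases Q.eq_empty_or_nonempty with rfl | hne
    · refine ⟨none, ?_⟩
      show (∅ : Set (Iio (c.L m))) = G
      rw [hG]
      symm
      rw [eq_empty_iff_forall_notMem]
      rintro ρ ⟨ξ, ⟨-, f, hf, -⟩, -⟩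
      exact hf
    · have hle : #Q ≤ #(Iio (c.L n)) := hQ.le
      obtain ⟨j⟩ := hle
      obtain ⟨f0, hf0⟩ := hne
      obtain ⟨f, hf⟩ : ∃ f : Iio (c.L n) → Fn (c.L m), range f = Q := by
        refine ⟨fun a => if h : ∃ q, j q = a then h.choose.1 else f0, ?_⟩
        ext q
        constructor
        · rintro ⟨a, rfl⟩
          show (if h : ∃ q, j q = a then h.choose.1 else f0) ∈ Q
          by_cases h : ∃ q, j q = a
          · rw [dif_pos h]
            exact h.choose.2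
          · rw [dif_neg h]
            exact hf0
        · intro hq
          refine ⟨j ⟨q, hq⟩, ?_⟩
          have hex : ∃ q', j q' = j ⟨q, hq⟩ := ⟨_, rfl⟩
          show (if h : ∃ q', j q' = j ⟨q, hq⟩ then h.choose.1 else f0) = q
          rw [dif_pos hex]
          have := j.injective hex.choose_spec
          exact congrArg Subtype.val this
      subst hf
      have hcode : IsCode (codeOf c n m f z) G := ⟨f, z, δ, hδ, hG, rfl⟩
      refine ⟨some (codeOf c n m f z), ?_⟩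
      have hex : ∃ G, IsCode (codeOf c n m f z) G := ⟨G, hcode⟩
      show (if h : ∃ G, IsCode (codeOf c n m f z) G then h.choose else ∅) = G
      rw [dif_pos hex]
      exact huniq _ _ _ hex.choose_spec hcode
  calc #(c.Gen n m) ≤ #(range g) := mk_le_mk_of_subset hsub
    _ ≤ #(Option D) := mk_range_le
    _ = #D + 1 := mk_option
    _ ≤ 2 ^ c.κ n + 2 ^ c.κ n := add_le_add hD ((one_lt_aleph0.le).trans h2)
    _ = 2 ^ c.κ n := add_eq_self h2

/-- a set `X` of more than `λ` subsets of `Λ` contains a good element -/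
theorem exists_good (c : Ctx Λ) (X : Set (Set Λ)) (hX : #Λ < #X) : ∃ y ∈ X, c.Good y := by
  classical
  by_contra hcon
  push Not at hcon
  have hsub : X ⊆ ⋃ n : ℕ, {y | ∀ m, n ≤ m → c.restr y m ∈ c.Gen n m} := by
    intro y hy
    have := hcon y hy
    unfold Ctx.Good at this
    push Not at this
    obtain ⟨n, hn⟩ := this
    exact mem_iUnion.2 ⟨n, hn⟩
  have hκΛ : ∀ n, c.κ n ≤ #Λ := fun n => mk_set_le _
  have hbad : ∀ n : ℕ, #{y : Set Λ | ∀ m, n ≤ m → c.restr y m ∈ c.Gen n m} ≤ #Λ := by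
    intro n
    have h1 : #{y : Set Λ | ∀ m, n ≤ m → c.restr y m ∈ c.Gen n m} ≤
        #(∀ k : ℕ, c.Gen n (n + k)) := by
      refine mk_le_of_injective
        (f := fun y k => ⟨c.restr y.1 (n + k), y.2 _ (Nat.le_add_right _ _)⟩) ?_
      intro y y' heq
      apply Subtype.ext
      ext i
      obtain ⟨k, hk⟩ := c.cof i
      have hk' : i < c.L (n + k) := hk.trans_le (c.mono.monotone (Nat.le_add_left _ _))
      have h2 := congrArg Subtype.val (congrFun heq k)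
      exact Set.ext_iff.1 h2 ⟨i, hk'⟩
    refine h1.trans ?_
    rw [mk_pi]
    calc _ ≤ prod fun _ : ℕ => 2 ^ c.κ n := prod_le_prod _ _ fun k => card_Gen c n (n + k)
      _ = (2 ^ c.κ n) ^ ℵ₀ := by rw [prod_const, lift_uzero, mk_nat, lift_aleph0]
      _ = 2 ^ (c.κ n * ℵ₀) := by rw [power_mul]
      _ = 2 ^ c.κ n := by rw [mul_aleph0_eq (c.aleph0_lt n).le]
      _ ≤ c.κ (n + 1) := (c.two_pow_lt n).le
      _ ≤ #Λ := hκΛ _
  have hinf : ℵ₀ ≤ #Λ := (c.aleph0_lt 0).le.trans (hκΛ 0)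
  have h3 : #X ≤ #Λ := by
    refine (mk_le_mk_of_subset hsub).trans ?_
    have h4 := mk_iUnion_le_lift fun n : ℕ => {y : Set Λ | ∀ m, n ≤ m → c.restr y m ∈ c.Gen n m}
    rw [lift_uzero, mk_nat, lift_aleph0] at h4
    refine h4.trans ?_
    calc _ ≤ #Λ * #Λ := mul_le_mul' hinf (ciSup_le' fun n => by rw [lift_uzero]; exact hbad n)
      _ = #Λ := mul_eq_self hinf
  exact absurd hX (not_lt.2 h3)

end Pool.Agent.Lib.MP_62560c_lc
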