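import Mathlib

/-!
Definitions for the perfect set property of Σ₁-definable subsets of `𝒫(λ)`, where `λ` is the
supremum of `lam 0 < lam 1 < ⋯` and each `lam n` is `<λ`-supercompact.  The set-theoretic universe
is `ZFSet.{u}`.
-/

set_option autoImplicit false

open Cardinal Set

universe u

namespace Pool.Agent.Lib.MP_62560c_lc

/-! ### Formulas -/

/-- Δ₀ formulas of set theory in the free variables `v 0, …, v (n - 1)`. -/
inductive D0 : ℕ → Type
  | mem {n : ℕ} (i j : Fin n) : D0 n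
  | eq {n : ℕ} (i j : Fin n) : D0 n
  | neg {n : ℕ} (φ : D0 n) : D0 n
  | and {n : ℕ} (φ ψ : D0 n) : D0 n
  /-- the bounded quantifier `∀ x ∈ v i, φ (v, x)` -/
  | all {n : ℕ} (i : Fin n) (φ : D0 (n + 1)) : D0 n

/-- Satisfaction of a Δ₀ formula in the universe `ZFSet`. -/
def D0.Sat : {n : ℕ} → D0 n → (Fin n → ZFSet.{u}) → Prop
  | _, .mem i j, v => v i ∈ v j
  | _, .eq i j, v => v i = v j
  | _, .neg φ, v => ¬ φ.Sat v
  | _, .and φ ψ, v => φ.Sat v ∧ ψ.Sat v
  | _, .all i φ, v => ∀ x ∈ v i, φ.Sat (Fin.snoc v x)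

/-! ### The singular cardinal -/

/-- The cardinal `λ`, the supremum of the sequence. -/
noncomputable def lamSup (lam : ℕ → Cardinal.{u}) : Cardinal.{u} := ⨆ n, lam n

/-- The set of ordinals below `λ` (a well-ordered type of order type `λ`). -/
abbrev Lam (lam : ℕ → Cardinal.{u}) : Type u := (lamSup lam).ord.ToType

/-- The set in `ZFSet` given by a subset of `λ`: the set of the von Neumann ordinals of its
elements. -/
noncomputable def enc (lam : ℕ → Cardinal.{u}) (A : Set (Lam lam)) : ZFSet.{u} :=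
  ZFSet.range fun i : A => ((i.1.toOrd : Set.Iio (lamSup lam).ord) : Ordinal.{u}).toZFSet

/-- The sequence `⟨λ_n : n < ω⟩` as a function in `ZFSet`, i.e. the set of the ordered pairs
`(n, λ_n)`. -/
noncomputable def vec (lam : ℕ → Cardinal.{u}) : ZFSet.{u} :=
  ZFSet.range fun n : ℕ => ZFSet.pair (n : Ordinal.{u}).toZFSet (lam n).ord.toZFSet

/-- `X ⊆ 𝒫(λ)` is definable (in the universe) by a Σ₁ formula with parameters in
`V_λ ∪ {⟨λ_n : n < ω⟩}`. -/
def Sigma1Def (lam : ℕ → Cardinal.{u}) (X : Set (Set (Lam lam))) : Prop :=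
  ∃ (k r : ℕ) (p : Fin k → ZFSet.{u}) (φ : D0 (1 + k + r)),
    (∀ i, p i ∈ ZFSet.vonNeumann (lamSup lam).ord ∨ p i = vec lam) ∧
    ∀ A : Set (Lam lam), A ∈ X ↔
      ∃ w : Fin r → ZFSet.{u}, φ.Sat (Fin.append (Fin.append (fun _ : Fin 1 => enc lam A) p) w)

/-! ### Supercompactness -/

/-- `κ` is `γ`-supercompact: `κ` is uncountable and there is a fine normal `κ`-complete
ultrafilter on `P_κ(S)`, where `S` is a set of cardinality `γ`. -/
def IsSupercompact (κ γ : Cardinal.{u}) : Prop :=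
  ℵ₀ < κ ∧ ∃ U : Ultrafilter (Set γ.ord.ToType),
    {a : Set γ.ord.ToType | #a < κ} ∈ U ∧
    (∀ i : γ.ord.ToType, {a : Set γ.ord.ToType | i ∈ a} ∈ U) ∧
    (∀ (I : Type u) (s : I → Set (Set γ.ord.ToType)), #I < κ → (∀ i, s i ∈ U) → (⋂ i, s i) ∈ U) ∧
    ∀ f : Set γ.ord.ToType → γ.ord.ToType, {a | f a ∈ a} ∈ U → ∃ i, {a | f a = i} ∈ U

/-! ### Perfect embeddings -/

/-- The topology of `𝒫(Λ)`, `Λ` a linear order, with the basic open sets `{A : A ∩ η = a}`,
`η ∈ Λ`, `a ⊆ Iio η` (here `η` stands for the initial segment `Iio η`). -/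
@[instance_reducible] def powTop (Λ : Type u) [LinearOrder Λ] : TopologicalSpace (Set Λ) :=
  TopologicalSpace.generateFrom
    {O | ∃ (η : Λ) (a : Set Λ), a ⊆ Set.Iio η ∧ O = {A | A ∩ Set.Iio η = a}}

/-- The topology of `^ωΛ` with the basic open sets `{x : s ⊆ x}`, `s` a finite sequence of elements
of `Λ`. -/
@[instance_reducible] def seqTop (Λ : Type u) : TopologicalSpace (ℕ → Λ) :=
  TopologicalSpace.generateFrom
    {O | ∃ (k : ℕ) (s : Fin k → Λ), O = {x | ∀ i : Fin k, x i = s i}}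

/-- `ι` is a perfect embedding: a homeomorphism of `^ωΛ` onto the subspace `ran ι` of `𝒫(Λ)`. -/
def PerfectEmbedding {Λ : Type u} [LinearOrder Λ] (ι : (ℕ → Λ) → Set Λ) : Prop :=
  @Topology.IsEmbedding _ _ (seqTop Λ) (powTop Λ) ι

/-- The positive answer to Q1. -/
def MainStatement : Prop :=
  ∀ lam : ℕ → Cardinal.{u}, StrictMono lam →
    (∀ n, ∀ γ < lamSup lam, IsSupercompact (lam n) γ) →
    ∀ X : Set (Set (Lam lam)), Sigma1Def lam X → lamSup lam < #X →
      ∃ ι : (ℕ → Lam lam) → Set (Lam lam), PerfectEmbedding ι ∧ Set.range ι ⊆ X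

end Pool.Agent.Lib.MP_62560c_lc
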