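import Pool.Agent.Lib.MP_62560c_lc.Base

/-!
Module I: supercompact cardinals: measurability, inaccessibility, the context.
-/

set_option autoImplicit false

open Cardinal Set

universe u

namespace Pool.Agent.Lib.MP_62560c_lc

theorem Complete.map' {α β : Type*} {κ : Cardinal.{u}} {U : Ultrafilter α} (h : Complete κ U)
    (f : α → β) : Complete κ (U.map f) := by
  intro I s hI hs
  rw [Ultrafilter.mem_map, preimage_iInter]
  exact h I _ hI fun i => Ultrafilter.mem_map.1 (hs i)

/-- a `κ`-supercompact cardinal carries a nonprincipal `κ`-complete ultrafilter -/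
theorem exists_measure {κ : Cardinal.{u}} (h : IsSupercompact κ κ) (S : Type u) (hS : #S = κ) :
    ∃ U : Ultrafilter S, Complete κ U ∧ ∀ i, {j | j ≠ i} ∈ U := by
  classical
  obtain ⟨_, U, hsmall, hfine, hcomp, _⟩ := h
  have hne : ∀ Q : Set κ.ord.ToType, #Q < κ → ∃ i, i ∉ Q := by
    intro Q hQ
    by_contra hcon
    push Not at hcon
    have : Q = Set.univ := eq_univ_of_forall hcon
    rw [this, mk_univ, mk_ord_toType] at hQ
    exact lt_irrefl _ hQ
  obtain ⟨Q0, hQ0⟩ := U.nonempty_of_mem hsmall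
  obtain ⟨i0, _⟩ := hne Q0 hQ0
  let f : Set κ.ord.ToType → κ.ord.ToType := fun Q =>
    if hQ : #Q < κ then (hne Q hQ).choose else i0
  have hf : ∀ Q : Set κ.ord.ToType, #Q < κ → f Q ∉ Q := by
    intro Q hQ
    simp only [f, dif_pos hQ]
    exact (hne Q hQ).choose_spec
  obtain ⟨e⟩ : Nonempty (κ.ord.ToType ≃ S) := by
    rw [← Cardinal.eq, mk_ord_toType, hS]
  have hcomp' : Complete κ U := hcomp
  refine ⟨U.map (fun Q => e (f Q)), hcomp'.map' _, fun i => ?_⟩
  rw [Ultrafilter.mem_map]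
  filter_upwards [hsmall, hfine (e.symm i)] with Q hQ hi heq
  apply hf Q hQ
  have : f Q = e.symm i := by
    rw [Equiv.eq_symm_apply]
    exact heq
  rw [this]
  exact hi

theorem small_null {κ : Cardinal.{u}} {S : Type u} {U : Ultrafilter S} (hc : Complete κ U)
    (hn : ∀ i, {j | j ≠ i} ∈ U) (A : Set S) (hA : #A < κ) : Aᶜ ∈ U := by
  have := hc A (fun i => {j | j ≠ i.1}) hA fun i => hn i.1
  filter_upwards [this] with j hj hjA
  exact mem_iInter.1 hj ⟨j, hjA⟩ rfl

theorem isInaccessible {κ : Cardinal.{u}} (h : IsSupercompact κ κ) : κ.IsInaccessible := by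
  classical
  obtain ⟨U, hc, hn⟩ := exists_measure h κ.ord.ToType (mk_ord_toType κ)
  refine ⟨h.1, ?_, ?_⟩
  · rw [← Ordinal.cof_toType, Order.le_cof_iff]
    intro s hs
    by_contra hlt
    push Not at hlt
    have hinf : ℵ₀ ≤ κ := h.1.le
    have hIic : ∀ i : κ.ord.ToType, #(Iic i) < κ := by
      intro i
      have h1 : #(Iio i) < κ := by
        simpa using mk_Iio_lt i (by simp)
      have h2 : #(Iic i) ≤ #(Iio i) + 1 := by
        rw [← Iio_insert]
        exact mk_insert_le
      exact h2.trans_lt (add_lt_of_lt hinf h1 (one_lt_aleph0.trans h.1))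
    have := hc s (fun i => (Iic i.1)ᶜ) hlt fun i => small_null hc hn _ (hIic i.1)
    obtain ⟨j, hj⟩ := U.nonempty_of_mem this
    obtain ⟨i, his, hij⟩ := hs j
    exact mem_iInter.1 hj ⟨i, his⟩ hij
  · intro x hx
    by_contra hlt
    push Not at hlt
    obtain ⟨X, rfl⟩ : ∃ X : Type u, #X = x := ⟨x.out, x.mk_out⟩
    have : #κ.ord.ToType ≤ #(Set X) := by
      rw [mk_ord_toType, mk_set]
      exact hlt
    obtain ⟨g⟩ := this
    have hA : ∀ a : X, {s | a ∈ g s ↔ {s' | a ∈ g s'} ∈ U} ∈ U := by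
      intro a
      by_cases ha : {s' | a ∈ g s'} ∈ U
      · filter_upwards [ha] with s hs
        exact ⟨fun _ => ha, fun _ => hs⟩
      · have ha' := Ultrafilter.compl_mem_iff_notMem.2 ha
        filter_upwards [ha'] with s hs
        exact ⟨fun h => absurd h hs, fun h => absurd h ha⟩
    have hall := hc X _ hx hA
    obtain ⟨j, hj⟩ := U.nonempty_of_mem hall
    have hboth : (⋂ a : X, {s | a ∈ g s ↔ {s' | a ∈ g s'} ∈ U}) ∩ {i | i ≠ j} ∈ U :=
      Filter.inter_mem hall (hn j)
    obtain ⟨i, hi, hij⟩ := U.nonempty_of_mem hboth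
    apply hij
    apply g.injective
    ext a
    have h1 := mem_iInter.1 hi a
    have h2 := mem_iInter.1 hj a
    exact h1.trans h2.symm

/-- fine normal ultrafilters on arbitrary sets of the right size -/
theorem exists_fine_normal {κ γ : Cardinal.{u}} (h : IsSupercompact κ γ) (S : Type u)
    (hS : #S = γ) :
    ∃ U : Ultrafilter (Set S), Complete κ U ∧ {Q : Set S | #Q < κ} ∈ U ∧
      (∀ i, {Q : Set S | i ∈ Q} ∈ U) ∧
      ∀ F : Set S → S, {Q | F Q ∈ Q} ∈ U → ∃ i, {Q | F Q = i} ∈ U := by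
  classical
  obtain ⟨_, U, hsmall, hfine, hcomp, hnormal⟩ := h
  obtain ⟨e⟩ : Nonempty (γ.ord.ToType ≃ S) := by
    rw [← Cardinal.eq, mk_ord_toType, hS]
  have hcomp' : Complete κ U := hcomp
  refine ⟨U.map (fun Q => e '' Q), hcomp'.map' _, ?_, ?_, ?_⟩
  · rw [Ultrafilter.mem_map]
    filter_upwards [hsmall] with Q hQ
    exact mk_image_le.trans_lt hQ
  · intro i
    rw [Ultrafilter.mem_map]
    filter_upwards [hfine (e.symm i)] with Q hQ
    exact ⟨e.symm i, hQ, by simp⟩
  · intro F hF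
    rw [Ultrafilter.mem_map] at hF
    have hF' : {a | e.symm (F (e '' a)) ∈ a} ∈ U := by
      filter_upwards [hF] with a ha
      obtain ⟨x, hx, hxe⟩ := ha
      have : e.symm (F (e '' a)) = x := by
        rw [Equiv.symm_apply_eq]
        exact hxe.symm
      show e.symm (F (e '' a)) ∈ a
      rw [this]
      exact hx
    obtain ⟨i, hi⟩ := hnormal (fun a => e.symm (F (e '' a))) hF'
    refine ⟨e i, ?_⟩
    rw [Ultrafilter.mem_map]
    filter_upwards [hi] with a ha
    have ha' : e.symm (F (e '' a)) = i := ha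
    rw [Equiv.symm_apply_eq] at ha'
    exact ha'

theorem mk_Iio_toType' (o : Ordinal.{u}) (i : o.ToType) :
    #(Iio i) = ((i.toOrd : Set.Iio o) : Ordinal.{u}).card := rfl

/-- the context -/
theorem exists_ctx (lam : ℕ → Cardinal.{u}) (hmono : StrictMono lam)
    (hsc : ∀ n, ∀ γ < lamSup lam, IsSupercompact (lam n) γ) :
    ∃ c : Ctx (Lam lam), (∀ n, (((c.L n).toOrd : Set.Iio (lamSup lam).ord) : Ordinal.{u}) =
      (lam n).ord) ∧ ∀ n, c.κ n = lam n := by
  classical
  have hbdd : BddAbove (range lam) := bddAbove_of_small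
  have hle : ∀ n, lam n ≤ lamSup lam := fun n => le_ciSup hbdd n
  have hlt : ∀ n, lam n < lamSup lam := fun n => (hmono (Nat.lt_succ_self n)).trans_le (hle _)
  have hinacc : ∀ n, (lam n).IsInaccessible := fun n => isInaccessible (hsc n _ (hlt n))
  let L : ℕ → Lam lam := fun n => Ordinal.ToType.mk ⟨(lam n).ord, ord_lt_ord.2 (hlt n)⟩
  have hL : ∀ n, (((L n).toOrd : Set.Iio (lamSup lam).ord) : Ordinal.{u}) = (lam n).ord := by
    intro n
    simp [L]
  have hcard : ∀ n, #(Iio (L n)) = lam n := by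
    intro n
    rw [mk_Iio_toType', hL, card_ord]
  have hltL : ∀ (i : Lam lam) n, i < L n ↔
      ((i.toOrd : Set.Iio (lamSup lam).ord) : Ordinal.{u}) < (lam n).ord := by
    intro i n
    rw [← hL n]
    exact (Ordinal.ToType.mk.symm.lt_iff_lt (x := i) (y := L n)).symm
  have hmonoL : StrictMono L := by
    intro n m hnm
    rw [hltL, hL]
    exact ord_lt_ord.2 (hmono hnm)
  have hFn : ∀ m, #(Fn (L m)) < lamSup lam := by
    intro m
    have : Infinite (Iio (L m)) := by
      rw [infinite_iff, hcard]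
      exact (hinacc m).aleph0_lt.le
    have h1 : #(Fn (L m)) = 2 ^ lam m := by
      rw [← power_def, mk_list_eq_mk, hcard, power_self_eq (hinacc m).aleph0_lt.le]
    rw [h1]
    exact ((hinacc (m + 1)).isStrongPrelimit (hmono (Nat.lt_succ_self m))).trans (hlt _)
  have hum : ∀ n, ∃ U : Ultrafilter (Iio (L n)), Complete (lam n) U ∧ ∀ i, {j | j ≠ i} ∈ U :=
    fun n => exists_measure (hsc n _ (hlt n)) _ (hcard n)
  choose um hum1 hum2 using hum
  have hwm : ∀ n m : ℕ, ∃ U : Ultrafilter (Set (Fn (L m))), Complete (lam n) U ∧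
      {Q : Set (Fn (L m)) | #Q < lam n} ∈ U ∧
      (∀ i, {Q : Set (Fn (L m)) | i ∈ Q} ∈ U) ∧
      ∀ F : Set (Fn (L m)) → Fn (L m), {Q | F Q ∈ Q} ∈ U → ∃ i, {Q | F Q = i} ∈ U :=
    fun n m => exists_fine_normal (hsc n _ (hFn m)) _ rfl
  choose wm hwm1 hwm2 hwm3 hwm4 using hwm
  refine ⟨{
    L := L
    mono := hmonoL
    cof := ?_
    unc := ?_
    init := ?_
    strong := ?_
    um := um
    um_complete := ?_
    um_nonprin := hum2
    wm := wm
    wm_complete := ?_
    wm_small := ?_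
    wm_fine := fun n m _ => hwm3 n m
    wm_normal := fun n m _ => hwm4 n m }, hL, hcard⟩
  · intro i
    have h1 : ((i.toOrd : Set.Iio (lamSup lam).ord) : Ordinal.{u}) < (lamSup lam).ord :=
      i.toOrd.2
    have h2 := lt_ord.1 h1
    obtain ⟨n, hn⟩ := exists_lt_of_lt_ciSup h2
    exact ⟨n, (hltL i n).2 (lt_ord.2 hn)⟩
  · intro n
    rw [hcard]
    exact (hinacc n).aleph0_lt
  · intro n i hi
    rw [hcard, mk_Iio_toType']
    exact lt_ord.1 ((hltL i n).1 hi)
  · intro n
    rw [hcard, hcard]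
    exact (hinacc (n + 1)).isStrongPrelimit (hmono (Nat.lt_succ_self n))
  · intro n
    rw [hcard]
    exact hum1 n
  · intro n m _
    rw [hcard]
    exact hwm1 n m
  · intro n m _
    rw [hcard]
    exact hwm2 n m

end Pool.Agent.Lib.MP_62560c_lc
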