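import Pool.Agent.Lib.MP_62560c_lc.Order

/-!
Module G: the topological part.
-/

set_option autoImplicit false

set_option linter.unusedSectionVars false

open Cardinal Set

universe u v

namespace Pool.Agent.Lib.MP_62560c_lc

variable {Λ : Type u} [LinearOrder Λ] [WellFoundedLT Λ]

/-- coding of finite sequences by the elements of a level -/
theorem exists_code (c : Ctx Λ) (n k : ℕ) :
    ∃ G : (Fin (k + 1) → Option (Iio (c.L n))) → Λ, Function.Injective G ∧ ∀ s, c.lv (G s) = n := by
  have h1 : #(lvSet c univ n) = c.κ n :=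
    card_lvSet c univ 0 n (Nat.zero_le _) (fun _ _ => Nat.zero_le _) (by rw [univ_inter]; rfl)
  have h2 : #(Fin (k + 1) → Option (Iio (c.L n))) ≤ #(lvSet c univ n) := by
    have h3 : #(Iio (c.L n)) + 1 = c.κ n :=
      Cardinal.add_one_eq (c.aleph0_lt n).le
    rw [h1, Cardinal.mk_arrow, Cardinal.mk_fin, Cardinal.mk_option, h3, Cardinal.lift_natCast,
      Cardinal.lift_uzero]
    exact Cardinal.power_nat_le (c.aleph0_lt n).le
  obtain ⟨g⟩ := h2
  exact ⟨fun s => (g s).1.1, fun s t hst => g.injective (Subtype.ext (Subtype.ext hst)),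
    fun s => (g s).2.2⟩

/-- a family of subsets `S x` of `Λ` with local dependence on `x` and different collapses gives an
embedding of `^ωΛ` -/
theorem exists_embedding (c : Ctx Λ) (q : ℕ) (y : Set Λ) (ns ms : ℕ → ℕ) (hq : q ≤ ns 0)
    (h1 : ∀ k, ns k ≤ ms k) (h2 : ∀ k, ms k < ns (k + 1)) (S : (ℕ → Λ) → Set Λ)
    (hS : ∀ x : ℕ → Λ, (∀ k, c.lv (x k) = ns k) →
        (∀ n, q ≤ n → #↥(S x ∩ Iio (c.L n)) = c.κ n) ∧
        ∀ x' : ℕ → Λ, (∀ k, c.lv (x' k) = ns k) → ∀ k, (∀ j < k, x j = x' j) →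
          (x k = x' k → ∀ i < c.L (ms k), (i ∈ S x ↔ i ∈ S x')) ∧
          (x k < x' k → colSet (S x) y ∩ Iio (c.L (ms k)) ≠
            colSet (S x') y ∩ Iio (c.L (ms k)))) :
    ∃ e : (ℕ → Λ) → (ℕ → Λ), (∀ x k, c.lv (e x k) = ns k) ∧
      PerfectEmbedding fun x => colSet (S (e x)) y := by
  classical
  have hns : StrictMono ns := strictMono_nat_of_lt_succ fun k => (h1 k).trans_lt (h2 k)
  have hms : StrictMono ms := strictMono_nat_of_lt_succ fun k => (h2 k).trans_le (h1 (k + 1))
  choose G hGinj hGlv using fun k => exists_code c (ns k) k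
  -- the sequence of codes
  let cl : (ℕ → Λ) → ∀ k : ℕ, Fin (k + 1) → Option (Iio (c.L (ns k))) := fun x k j =>
    if h : x j < c.L (ns k) then some ⟨x j, h⟩ else none
  let e : (ℕ → Λ) → (ℕ → Λ) := fun x k => G k (cl x k)
  have helv : ∀ x k, c.lv (e x k) = ns k := fun x k => hGlv k _
  refine ⟨e, helv, ?_⟩
  set f : (ℕ → Λ) → Set Λ := fun x => colSet (S (e x)) y with hf
  -- local dependence
  have hloc : ∀ x x' : ℕ → Λ, ∀ k, (∀ j ≤ k, x j = x' j) →
      f x ∩ Iio (c.L (ms k)) = f x' ∩ Iio (c.L (ms k)) := by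
    intro x x' k hk
    have hee : ∀ j ≤ k, e x j = e x' j := by
      intro j hj
      have : cl x j = cl x' j := by
        funext i
        have hi : x i = x' i := hk i (by omega)
        simp only [cl, hi]
      simp only [e, this]
    have hqk : q ≤ ms k := hq.trans ((hns.monotone (Nat.zero_le k)).trans (h1 k))
    have hSS := ((hS (e x) (helv x)).2 (e x') (helv x') k (fun j hj => hee j hj.le)).1
      (hee k le_rfl)
    have hr : c.restr (S (e x)) (ms k) = c.restr (S (e x')) (ms k) := by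
      ext i
      exact hSS i.1 i.2
    have hc1 := colSet_restr c (ms k) (S (e x)) y ((hS (e x) (helv x)).1 (ms k) hqk)
    have hc2 := colSet_restr c (ms k) (S (e x')) y ((hS (e x') (helv x')).1 (ms k) hqk)
    rw [hr, ← hc2] at hc1
    ext i
    constructor
    · rintro ⟨hi1, hi2⟩
      have : (⟨i, hi2⟩ : Iio (c.L (ms k))) ∈ c.restr (colSet (S (e x)) y) (ms k) := hi1
      rw [hc1] at this
      exact ⟨this, hi2⟩
    · rintro ⟨hi1, hi2⟩
      have : (⟨i, hi2⟩ : Iio (c.L (ms k))) ∈ c.restr (colSet (S (e x')) y) (ms k) := hi1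
      rw [← hc1] at this
      exact ⟨this, hi2⟩
  -- the values determine the codes
  have hdet : ∀ x x' : ℕ → Λ, ∀ k, f x ∩ Iio (c.L (ms k)) = f x' ∩ Iio (c.L (ms k)) →
      ∀ j ≤ k, e x j = e x' j := by
    intro x x' k hk j
    induction j using Nat.strong_induction_on with
    | _ j ih =>
      intro hj
      have hkj : f x ∩ Iio (c.L (ms j)) = f x' ∩ Iio (c.L (ms j)) := by
        have hsub : Iio (c.L (ms j)) ⊆ Iio (c.L (ms k)) :=
          Iio_subset_Iio (c.mono.monotone (hms.monotone hj))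
        have := congrArg (fun A => A ∩ Iio (c.L (ms j))) hk
        simpa only [inter_assoc, inter_eq_self_of_subset_right hsub] using this
      rcases lt_trichotomy (e x j) (e x' j) with h | h | h
      · exact absurd hkj (((hS (e x) (helv x)).2 (e x') (helv x') j
          (fun i hi => ih i hi (hi.le.trans hj))).2 h)
      · exact h
      · exact absurd hkj.symm (((hS (e x') (helv x')).2 (e x) (helv x) j
          (fun i hi => (ih i hi (hi.le.trans hj)).symm)).2 h)
  -- the values determine finite parts of `x`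
  have hpart : ∀ (x : ℕ → Λ) (m : ℕ), ∃ k, ∀ x' : ℕ → Λ,
      f x ∩ Iio (c.L (ms k)) = f x' ∩ Iio (c.L (ms k)) → ∀ j < m, x j = x' j := by
    intro x m
    obtain ⟨k, hmk, hk⟩ : ∃ k, m ≤ k + 1 ∧ ∀ j < m, x j < c.L (ns k) := by
      induction m with
      | zero => exact ⟨0, Nat.zero_le _, fun j hj => absurd hj (Nat.not_lt_zero j)⟩
      | succ m ih =>
        obtain ⟨k, hmk, hk⟩ := ih
        obtain ⟨n, hn⟩ := c.cof (x m)
        refine ⟨max (k + 1) n, by omega, ?_⟩
        intro j hj
        rcases Nat.lt_succ_iff_lt_or_eq.1 hj with h | h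
        · exact (hk j h).trans_le (c.mono.monotone (hns.monotone (by omega)))
        · rw [h]
          exact hn.trans_le (c.mono.monotone ((le_max_right (k + 1) n).trans (hns.id_le _)))
    refine ⟨k, fun x' hx' j hj => ?_⟩
    have he := hdet x x' k hx' k le_rfl
    have hcl : cl x k = cl x' k := hGinj k he
    have hj' := congrFun hcl ⟨j, by omega⟩
    have hxj : x j < c.L (ns k) := hk j hj
    simp only [cl, hxj, dif_pos] at hj'
    by_cases hx'j : x' j < c.L (ns k)
    · simp only [hx'j, dif_pos, Option.some.injEq] at hj'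
      exact congrArg (fun t => t.1) hj'
    · simp only [hx'j, dif_neg, not_false_iff] at hj'
      exact absurd hj' (by simp)
  have hinj : Function.Injective f := by
    intro x x' hxx
    funext j
    obtain ⟨k, hk⟩ := hpart x (j + 1)
    exact hk x' (by rw [hxx]) j (Nat.lt_succ_self j)
  let tX : TopologicalSpace (ℕ → Λ) := seqTop Λ
  let tY : TopologicalSpace (Set Λ) := powTop Λ
  have hopenX : ∀ (x : ℕ → Λ) (k : ℕ), @IsOpen _ tX {x' : ℕ → Λ | ∀ j < k, x' j = x j} := by
    intro x k
    apply TopologicalSpace.isOpen_generateFrom_of_mem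
    refine ⟨k, fun i => x i, ?_⟩
    ext x'
    constructor
    · intro h i
      exact h i.1 i.2
    · intro h j hj
      exact h ⟨j, hj⟩
  have hopenY : ∀ (A : Set Λ) (η : Λ), @IsOpen _ tY {B : Set Λ | B ∩ Iio η = A ∩ Iio η} := by
    intro A η
    apply TopologicalSpace.isOpen_generateFrom_of_mem
    exact ⟨η, A ∩ Iio η, inter_subset_right, rfl⟩
  refine @Topology.IsEmbedding.mk _ _ tX tY f (@Topology.IsInducing.mk _ _ tX tY f ?_) hinj
  apply le_antisymm
  · rw [show tY = TopologicalSpace.generateFrom _ from rfl, induced_generateFrom_eq]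
    apply le_generateFrom
    rintro _ ⟨O, ⟨η, a, ha, rfl⟩, rfl⟩
    rw [isOpen_iff_forall_mem_open]
    intro x hx
    obtain ⟨k, hk⟩ := c.cof η
    have hηk : η < c.L (ms k) := hk.trans_le (c.mono.monotone (hms.id_le k))
    refine ⟨{x' | ∀ j < k + 1, x' j = x j}, ?_, hopenX x (k + 1), fun j _ => rfl⟩
    intro x' hx'
    have h3 := hloc x' x k (fun j hj => hx' j (Nat.lt_succ_of_le hj))
    have hsub : Iio η ⊆ Iio (c.L (ms k)) := Iio_subset_Iio hηk.le
    have h4 := congrArg (fun A => A ∩ Iio η) h3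
    simp only [inter_assoc, inter_eq_self_of_subset_right hsub] at h4
    change f x' ∩ Iio η = a
    rw [h4]
    exact hx
  · rw [show tX = TopologicalSpace.generateFrom _ from rfl]
    apply le_generateFrom
    rintro _ ⟨m, s, rfl⟩
    let tI : TopologicalSpace (ℕ → Λ) := TopologicalSpace.induced f tY
    rw [@isOpen_iff_forall_mem_open _ tI]
    intro x hx
    obtain ⟨k, hk⟩ := hpart x m
    refine ⟨f ⁻¹' {B : Set Λ | B ∩ Iio (c.L (ms k)) = f x ∩ Iio (c.L (ms k))}, ?_,
      @IsOpen.preimage _ _ tI tY f (@continuous_induced_dom _ _ f tY) _ (hopenY _ _), rfl⟩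
    intro x' hx' i
    rw [← hk x' (Eq.symm hx') i.1 i.2]
    exact hx i

end Pool.Agent.Lib.MP_62560c_lc
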