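import Pool.Agent.Lib.MP_62560c_lc.Order

/-!
Module H: set theory in `ZFSet`: Mostowski collapse of a hull, absoluteness of Δ₀ formulas.
-/

set_option autoImplicit false

open Cardinal Set

universe u

namespace Pool.Agent.Lib.MP_62560c_lc

/-- the von Neumann ordinal of an element of `λ` -/
noncomputable def vn (lam : ℕ → Cardinal.{u}) (i : Lam lam) : ZFSet.{u} :=
  ((i.toOrd : Set.Iio (lamSup lam).ord) : Ordinal.{u}).toZFSet

/-! ### the collapse -/

section Coll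

variable (Y : Set ZFSet.{u})

instance small_inter_mem (t : ZFSet.{u}) : Small.{u} {s : ZFSet.{u} // s ∈ t ∧ s ∈ Y} :=
  small_of_injective (β := t) (f := fun s => ⟨s.1, s.2.1⟩) (by
    intro a b h
    exact Subtype.ext (Subtype.mk.inj h))

/-- the Mostowski collapse of `Y` -/
noncomputable def coll : ZFSet.{u} → ZFSet.{u} :=
  ZFSet.mem_wf.fix fun t ih =>
    ZFSet.range fun s : {s : ZFSet.{u} // s ∈ t ∧ s ∈ Y} => ih s.1 s.2.1

theorem mem_coll {t z : ZFSet.{u}} : z ∈ coll Y t ↔ ∃ s ∈ t, s ∈ Y ∧ coll Y s = z := by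
  unfold coll
  rw [WellFounded.fix_eq, ZFSet.mem_range]
  constructor
  · rintro ⟨⟨s, h1, h2⟩, h⟩
    exact ⟨s, h1, h2, h⟩
  · rintro ⟨s, h1, h2, h⟩
    exact ⟨⟨s, h1, h2⟩, h⟩

variable {Y}

theorem coll_injOn (hd : ∀ s ∈ Y, ∀ t ∈ Y, s ≠ t → ∃ x ∈ Y, ¬ (x ∈ s ↔ x ∈ t)) :
    ∀ s ∈ Y, ∀ t ∈ Y, coll Y s = coll Y t → s = t := by
  intro s
  induction s using ZFSet.inductionOn with
  | h s ih =>
  intro hs t ht h
  by_contra hne
  obtain ⟨x, hx, hxx⟩ := hd s hs t ht hne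
  by_cases h1 : x ∈ s
  · have h2 : x ∉ t := fun h2 => hxx ⟨fun _ => h2, fun _ => h1⟩
    have h3 : coll Y x ∈ coll Y t := by
      rw [← h]
      exact (mem_coll Y).2 ⟨x, h1, hx, rfl⟩
    obtain ⟨x', h4, h5, h6⟩ := (mem_coll Y).1 h3
    have := ih x h1 hx x' h5 h6.symm
    exact h2 (this ▸ h4)
  · have h2 : x ∈ t := by
      by_contra h2
      exact hxx ⟨fun h => absurd h h1, fun h => absurd h h2⟩
    have h3 : coll Y x ∈ coll Y s := by
      rw [h]
      exact (mem_coll Y).2 ⟨x, h2, hx, rfl⟩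
    obtain ⟨x', h4, h5, h6⟩ := (mem_coll Y).1 h3
    have := ih x' h4 h5 x hx h6
    exact h1 (this ▸ h4)

theorem coll_mem_iff (hd : ∀ s ∈ Y, ∀ t ∈ Y, s ≠ t → ∃ x ∈ Y, ¬ (x ∈ s ↔ x ∈ t))
    {s t : ZFSet.{u}} (hs : s ∈ Y) : coll Y s ∈ coll Y t ↔ s ∈ t := by
  constructor
  · intro h
    obtain ⟨x, h1, h2, h3⟩ := (mem_coll Y).1 h
    rw [← coll_injOn hd x h2 s hs h3]
    exact h1
  · intro h
    exact (mem_coll Y).2 ⟨s, h, hs, rfl⟩

theorem coll_self {V : ZFSet.{u}} (hV : V.IsTransitive) (hVY : ∀ x ∈ V, x ∈ Y) :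
    ∀ x, x ∈ V → coll Y x = x := by
  intro x
  induction x using ZFSet.inductionOn with
  | h x ih =>
  intro hx
  ext z
  rw [mem_coll]
  constructor
  · rintro ⟨s, h1, -, h3⟩
    rw [ih s h1 (hV x hx h1)] at h3
    exact h3 ▸ h1
  · intro hz
    exact ⟨z, hz, hVY z (hV x hx hz), ih z hz (hV x hx hz)⟩

theorem coll_singleton {x : ZFSet.{u}} (hx : x ∈ Y) : coll Y {x} = {coll Y x} := by
  ext z
  rw [mem_coll, ZFSet.mem_singleton]
  constructor
  · rintro ⟨s, h1, -, h3⟩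
    rw [ZFSet.mem_singleton] at h1
    rw [← h3, h1]
  · intro hz
    exact ⟨x, ZFSet.mem_singleton.2 rfl, hx, hz.symm⟩

theorem coll_pair' {x y : ZFSet.{u}} (hx : x ∈ Y) (hy : y ∈ Y) :
    coll Y {x, y} = {coll Y x, coll Y y} := by
  ext z
  rw [mem_coll, ZFSet.mem_pair]
  constructor
  · rintro ⟨s, h1, -, h3⟩
    rw [ZFSet.mem_pair] at h1
    rcases h1 with h1 | h1
    · left; rw [← h3, h1]
    · right; rw [← h3, h1]
  · rintro (hz | hz)
    · exact ⟨x, ZFSet.mem_pair.2 (Or.inl rfl), hx, hz.symm⟩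
    · exact ⟨y, ZFSet.mem_pair.2 (Or.inr rfl), hy, hz.symm⟩

theorem coll_pair {x y : ZFSet.{u}} (hx : x ∈ Y) (hy : y ∈ Y) (hx' : {x} ∈ Y)
    (hxy : ({x, y} : ZFSet.{u}) ∈ Y) :
    coll Y (ZFSet.pair x y) = ZFSet.pair (coll Y x) (coll Y y) := by
  unfold ZFSet.pair
  rw [coll_pair' hx' hxy, coll_singleton hx, coll_pair' hx hy]

end Coll

/-! ### Skolem functions -/

/-- a counterexample to a bounded quantifier -/
noncomputable def skf {n : ℕ} (i : Fin n) (φ : D0 (n + 1)) (l : List ZFSet.{u}) : ZFSet.{u} :=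
  haveI := Classical.propDecidable
    (∃ x ∈ l.getD i ∅, ¬ φ.Sat (Fin.snoc (fun j : Fin n => l.getD j ∅) x))
  if h : ∃ x ∈ l.getD i ∅, ¬ φ.Sat (Fin.snoc (fun j : Fin n => l.getD j ∅) x) then h.choose else ∅

/-- the Skolem functions of a Δ₀ formula -/
noncomputable def sk : {n : ℕ} → D0 n → List (List ZFSet.{u} → ZFSet.{u})
  | _, .mem _ _ => []
  | _, .eq _ _ => []
  | _, .neg φ => sk φ
  | _, .and φ ψ => sk φ ++ sk ψ
  | _, .all i φ => skf i φ :: sk φ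

theorem sat_coll {Y : Set ZFSet.{u}}
    (hd : ∀ s ∈ Y, ∀ t ∈ Y, s ≠ t → ∃ x ∈ Y, ¬ (x ∈ s ↔ x ∈ t)) :
    ∀ {n : ℕ} (φ : D0 n), (∀ f ∈ sk.{u} φ, ∀ l, (∀ v ∈ l, v ∈ Y) → f l ∈ Y) →
      ∀ v : Fin n → ZFSet.{u}, (∀ i, v i ∈ Y) → (φ.Sat (fun i => coll Y (v i)) ↔ φ.Sat v) := by
  intro n φ
  induction φ with
  | mem i j =>
    intro _ v hv
    exact coll_mem_iff hd (hv i)
  | eq i j =>
    intro _ v hv
    simp only [D0.Sat]
    constructor
    · exact coll_injOn hd _ (hv i) _ (hv j)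
    · intro h
      rw [h]
  | neg φ ih =>
    intro hf v hv
    simp only [D0.Sat]
    rw [ih hf v hv]
  | and φ ψ ih1 ih2 =>
    intro hf v hv
    simp only [D0.Sat]
    rw [ih1 (fun f h => hf f (List.mem_append_left _ h)) v hv,
      ih2 (fun f h => hf f (List.mem_append_right _ h)) v hv]
  | @all n i φ ih =>
    intro hf v hv
    simp only [D0.Sat]
    have ih' := ih (fun f h => hf f (List.mem_cons_of_mem _ h))
    have hkey : ∀ x ∈ Y, (φ.Sat (Fin.snoc (fun i => coll Y (v i)) (coll Y x)) ↔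
        φ.Sat (Fin.snoc v x)) := by
      intro x hx
      rw [← ih' (Fin.snoc v x) (by
        intro j
        refine Fin.lastCases ?_ (fun j => ?_) j
        · rw [Fin.snoc_last]; exact hx
        · rw [Fin.snoc_castSucc]; exact hv j)]
      have : (Fin.snoc (fun i => coll Y (v i)) (coll Y x) : Fin (n + 1) → ZFSet.{u}) =
          fun j => coll Y ((Fin.snoc v x : Fin (n + 1) → ZFSet.{u}) j) := by
        funext j
        refine Fin.lastCases ?_ (fun j => ?_) j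
        · rw [Fin.snoc_last, Fin.snoc_last]
        · rw [Fin.snoc_castSucc, Fin.snoc_castSucc]
      rw [this]
    constructor
    · intro h
      by_contra hcon
      push Not at hcon
      have hl : ∀ w ∈ List.ofFn v, w ∈ Y := by
        intro w hw
        rw [List.mem_ofFn] at hw
        obtain ⟨j, rfl⟩ := hw
        exact hv j
      have hget : ∀ j : Fin n, (List.ofFn v).getD j ∅ = v j := by
        intro j
        simp
      have hget' : (fun j : Fin n => (List.ofFn v).getD j ∅) = v := funext hget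
      have hex : ∃ x ∈ (List.ofFn v).getD i ∅,
          ¬ φ.Sat (Fin.snoc (fun j : Fin n => (List.ofFn v).getD j ∅) x) := by
        rw [hget', hget i]
        obtain ⟨x, hx, hx'⟩ := hcon
        exact ⟨x, hx, hx'⟩
      have hmem := hf (skf i φ) List.mem_cons_self (List.ofFn v) hl
      unfold skf at hmem
      rw [dif_pos hex] at hmem
      have h1 := hex.choose_spec.1
      have h2 := hex.choose_spec.2
      generalize hex.choose = x at *
      rw [hget i] at h1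
      rw [hget'] at h2
      exact h2 ((hkey x hmem).1 (h _ ((mem_coll Y).2 ⟨x, h1, hmem, rfl⟩)))
    · intro h z hz
      obtain ⟨x, h1, h2, rfl⟩ := (mem_coll Y).1 hz
      exact (hkey x h2).2 (h x h1)

/-! ### the ordinals below `λ` -/

section Vn

variable (lam : ℕ → Cardinal.{u})

theorem mem_vn {i : Lam lam} {z : ZFSet.{u}} : z ∈ vn lam i ↔ ∃ j < i, vn lam j = z := by
  unfold vn
  rw [Ordinal.mem_toZFSet_iff]
  constructor
  · rintro ⟨a, ha, rfl⟩
    have hlt : a < (lamSup lam).ord := ha.trans i.toOrd.2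
    refine ⟨Ordinal.ToType.mk ⟨a, hlt⟩, ?_, ?_⟩
    · rw [← Ordinal.ToType.mk.symm.lt_iff_lt]
      rw [OrderIso.symm_apply_apply]
      exact ha
    · simp [Ordinal.ToType.toOrd]
  · rintro ⟨j, hj, rfl⟩
    refine ⟨_, ?_, rfl⟩
    exact Ordinal.ToType.mk.symm.lt_iff_lt.2 hj

theorem mem_enc {A : Set (Lam lam)} {z : ZFSet.{u}} : z ∈ enc lam A ↔ ∃ j ∈ A, vn lam j = z := by
  unfold enc
  rw [ZFSet.mem_range]
  constructor
  · rintro ⟨⟨j, hj⟩, rfl⟩
    exact ⟨j, hj, rfl⟩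
  · rintro ⟨j, hj, rfl⟩
    exact ⟨⟨j, hj⟩, rfl⟩

theorem coll_vn {Y : Set ZFSet.{u}} (i : Lam lam) :
    ∀ ρ : Lam lam, Nonempty (Iio ρ ≃o ↥({i | vn lam i ∈ Y} ∩ Iio i)) →
      coll Y (vn lam i) = vn lam ρ := by
  induction i using WellFoundedLT.induction with
  | ind i ih =>
  rintro ρ ⟨e⟩
  have hres : ∀ σ : Iio ρ, Nonempty (Iio σ.1 ≃o ↥({i | vn lam i ∈ Y} ∩ Iio (e σ).1)) := by
    intro σ
    have hlt : ∀ τ : Iio σ.1, τ.1 < ρ := fun τ => lt_trans τ.2 σ.2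
    refine ⟨StrictMono.orderIsoOfSurjective (fun τ => ⟨(e ⟨τ.1, hlt τ⟩).1, (e ⟨τ.1, hlt τ⟩).2.1, ?_⟩)
      ?_ ?_⟩
    · exact (e.lt_iff_lt (x := ⟨τ.1, hlt τ⟩) (y := σ)).2 τ.2
    · intro a b hab
      exact (e.lt_iff_lt (x := ⟨a.1, hlt a⟩) (y := ⟨b.1, hlt b⟩)).2 hab
    · rintro ⟨j, hj1, hj2⟩
      have hj3 : j < i := lt_trans hj2 (e σ).2.2
      refine ⟨⟨(e.symm ⟨j, hj1, hj3⟩).1, ?_⟩, ?_⟩
      · have h1 : e.symm ⟨j, hj1, hj3⟩ < σ := by
          rw [← e.lt_iff_lt, e.apply_symm_apply]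
          exact hj2
        exact h1
      · apply Subtype.ext
        change (e (e.symm ⟨j, hj1, hj3⟩)).1 = j
        rw [e.apply_symm_apply]
  ext z
  rw [mem_coll, mem_vn]
  constructor
  · rintro ⟨s, h1, h2, rfl⟩
    obtain ⟨j, hj, rfl⟩ := (mem_vn lam).1 h1
    set σ : Iio ρ := e.symm ⟨j, h2, hj⟩ with hσ
    have hj' : (e σ).1 = j := by rw [hσ, e.apply_symm_apply]
    refine ⟨σ.1, σ.2, ?_⟩
    have := hres σ
    rw [hj'] at this
    exact (ih j hj σ.1 this).symm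
  · rintro ⟨σ, hσ, rfl⟩
    refine ⟨vn lam (e ⟨σ, hσ⟩).1, (mem_vn lam).2 ⟨_, (e ⟨σ, hσ⟩).2.2, rfl⟩, (e ⟨σ, hσ⟩).2.1, ?_⟩
    exact ih _ (e ⟨σ, hσ⟩).2.2 σ (hres ⟨σ, hσ⟩)

theorem coll_enc {Y : Set ZFSet.{u}} (y : Set (Lam lam)) :
    coll Y (enc lam y) = enc lam (colSet {i | vn lam i ∈ Y} y) := by
  ext z
  rw [mem_coll, mem_enc]
  constructor
  · rintro ⟨s, h1, h2, rfl⟩
    obtain ⟨j, hj, rfl⟩ := (mem_enc lam).1 h1
    obtain ⟨ρ, -, hρ⟩ := exists_Iio_iso {i | vn lam i ∈ Y} j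
    exact ⟨ρ, ⟨j, ⟨hj, h2⟩, hρ⟩, (coll_vn lam j ρ hρ).symm⟩
  · rintro ⟨ρ, ⟨j, ⟨hj, h2⟩, hρ⟩, rfl⟩
    exact ⟨vn lam j, (mem_enc lam).2 ⟨j, hj, rfl⟩, h2, coll_vn lam j ρ hρ⟩

end Vn

/-! ### the operations -/

/-- a difference function -/
noncomputable def df (l : List ZFSet.{u}) : ZFSet.{u} :=
  haveI := Classical.propDecidable (∃ x, ¬ (x ∈ l.getD 0 ∅ ↔ x ∈ l.getD 1 ∅))
  if h : ∃ x, ¬ (x ∈ l.getD 0 ∅ ↔ x ∈ l.getD 1 ∅) then h.choose else ∅

theorem df_spec {Y : Set ZFSet.{u}} (h : ∀ l, (∀ v ∈ l, v ∈ Y) → df l ∈ Y) :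
    ∀ s ∈ Y, ∀ t ∈ Y, s ≠ t → ∃ x ∈ Y, ¬ (x ∈ s ↔ x ∈ t) := by
  intro s hs t ht hne
  have hex : ∃ x, ¬ (x ∈ [s, t].getD 0 ∅ ↔ x ∈ [s, t].getD 1 ∅) := by
    by_contra hcon
    push Not at hcon
    apply hne
    ext x
    have := hcon x
    simp only [List.getD_cons_zero, List.getD_cons_succ] at this
    tauto
  have hm := h [s, t] (by
    intro v hv
    simp only [List.mem_cons, List.not_mem_nil, or_false] at hv
    rcases hv with rfl | rfl
    · exact hs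
    · exact ht)
  unfold df at hm
  rw [dif_pos hex] at hm
  exact ⟨_, hm, hex.choose_spec⟩

/-- a small set of operations can be indexed by a type in `Type u` -/
theorem exists_ops {κ : Cardinal.{u}} (F : Set (List ZFSet.{u} → ZFSet.{u}))
    (hF : #F < lift.{u + 1} κ) :
    ∃ (O : Type u) (ops : O → List ZFSet.{u} → ZFSet.{u}), #O < κ ∧ ∀ f ∈ F, ∃ o, ops o = f := by
  have : Small.{u} F := by
    rw [Cardinal.small_iff_lift_mk_lt_univ]
    rw [Cardinal.lift_id]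
    exact hF.trans (lift_lt_univ κ)
  refine ⟨Shrink F, fun o => ((equivShrink F).symm o).1, ?_, ?_⟩
  · rw [← lift_lt.{u, u + 1}]
    refine lt_of_eq_of_lt ?_ hF
    rw [Cardinal.lift_mk_shrink'']
  · intro f hf
    exact ⟨equivShrink F ⟨f, hf⟩, by simp⟩

theorem coll_vec (lam : ℕ → Cardinal.{u}) {Y : Set ZFSet.{u}}
    (h1 : ∀ n : ℕ, (n : Ordinal.{u}).toZFSet ∈ Y) (h2 : ∀ n, (lam n).ord.toZFSet ∈ Y)
    (h3 : ∀ n : ℕ, ({(n : Ordinal.{u}).toZFSet} : ZFSet.{u}) ∈ Y)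
    (h4 : ∀ n : ℕ, ({(n : Ordinal.{u}).toZFSet, (lam n).ord.toZFSet} : ZFSet.{u}) ∈ Y)
    (h5 : ∀ n : ℕ, ZFSet.pair (n : Ordinal.{u}).toZFSet (lam n).ord.toZFSet ∈ Y)
    (h6 : ∀ n : ℕ, coll Y (n : Ordinal.{u}).toZFSet = (n : Ordinal.{u}).toZFSet)
    (h7 : ∀ n, coll Y (lam n).ord.toZFSet = (lam n).ord.toZFSet) :
    coll Y (vec lam) = vec lam := by
  have h8 : ∀ n : ℕ, coll Y (ZFSet.pair (n : Ordinal.{u}).toZFSet (lam n).ord.toZFSet) =
      ZFSet.pair (n : Ordinal.{u}).toZFSet (lam n).ord.toZFSet := fun n => by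
    rw [coll_pair (h1 n) (h2 n) (h3 n) (h4 n), h6, h7]
  ext z
  rw [mem_coll]
  unfold vec
  rw [ZFSet.mem_range]
  constructor
  · rintro ⟨s, hs1, hs2, rfl⟩
    rw [ZFSet.mem_range] at hs1
    obtain ⟨n, rfl⟩ := hs1
    exact ⟨n, (h8 n).symm⟩
  · rintro ⟨n, rfl⟩
    exact ⟨ZFSet.pair (n : Ordinal.{u}).toZFSet (lam n).ord.toZFSet,
      ZFSet.mem_range.2 ⟨n, rfl⟩, h5 n, h8 n⟩

theorem mk_Iio_lt {lam : ℕ → Cardinal.{u}} {n : ℕ} {i : Lam lam}
    (h : (i.toOrd : Ordinal.{u}) < (lam n).ord) : #(Iio i) < lam n := by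
  rw [Cardinal.lt_ord] at h
  refine lt_of_eq_of_lt ?_ h
  have e : Iio i ≃ Iio (i.toOrd : Ordinal.{u}) :=
    { toFun := fun j => ⟨j.1.toOrd, Ordinal.ToType.mk.symm.lt_iff_lt.2 j.2⟩
      invFun := fun a => ⟨Ordinal.ToType.mk ⟨a.1, mem_Iio.2 (lt_trans (mem_Iio.1 a.2) (mem_Iio.1 i.toOrd.2))⟩, by
        rw [mem_Iio, ← Ordinal.ToType.mk.symm.lt_iff_lt, OrderIso.symm_apply_apply]
        exact a.2⟩
      left_inv := fun j => by
        apply Subtype.ext
        simp [Ordinal.ToType.toOrd]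
      right_inv := fun a => by
        apply Subtype.ext
        simp [Ordinal.ToType.toOrd] }
  rw [← lift_inj.{u, u + 1}, ← Cardinal.mk_Iio_ordinal]
  exact Cardinal.lift_mk_eq'.2 ⟨e⟩ |>.trans (by simp)

/-- A Σ₁-definable set is closed under the collapses of suitable hulls. -/
theorem collapse_mem (lam : ℕ → Cardinal.{u}) (hmono : StrictMono lam)
    (hin : ∀ n, (lam n).IsInaccessible) (L : ℕ → Lam lam)
    (hL : ∀ n, ((L n).toOrd : Ordinal.{u}) = (lam n).ord) (X : Set (Set (Lam lam)))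
    (hX : Sigma1Def lam X) (y : Set (Lam lam)) (hy : y ∈ X) :
    ∃ (q : ℕ) (O : Type u) (ops : O → List ZFSet.{u} → ZFSet.{u}), #O < lam q ∧
      ∀ Y : Set ZFSet.{u}, (∀ o l, (∀ v ∈ l, v ∈ Y) → ops o l ∈ Y) →
        (∀ n, q ≤ n → #↥({i | vn lam i ∈ Y} ∩ Iio (L n)) = lam n) →
        colSet {i | vn lam i ∈ Y} y ∈ X := by
  classical
  obtain ⟨k, r, p, φ, hp, hφ⟩ := hX
  obtain ⟨w, hw⟩ := (hφ y).1 hy
  have hsup : ∀ i, ∃ m, ∀ n, m ≤ n →
      p i ∈ ZFSet.vonNeumann (lam n).ord ∨ p i = vec lam := by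
    intro i
    rcases hp i with h | h
    · rw [ZFSet.mem_vonNeumann, Cardinal.lt_ord] at h
      obtain ⟨m, hm⟩ := exists_lt_of_lt_ciSup h
      refine ⟨m, fun n hmn => Or.inl ?_⟩
      rw [ZFSet.mem_vonNeumann, Cardinal.lt_ord]
      exact hm.trans_le (hmono.monotone hmn)
    · exact ⟨0, fun n _ => Or.inr h⟩
  choose m hm using hsup
  obtain ⟨q', hq'⟩ : ∃ q', ∀ i, p i ∈ ZFSet.vonNeumann (lam q').ord ∨ p i = vec lam :=
    ⟨Finset.univ.sup m, fun i => hm i _ (Finset.le_sup (Finset.mem_univ i))⟩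
  set V := ZFSet.vonNeumann (lam q').ord with hV
  -- the countably many constants
  set C : Set ZFSet.{u} := {enc lam y} ∪ ({vec lam} ∪ (range w ∪
    (range (fun n => (lam n).ord.toZFSet) ∪
    (range (fun n : ℕ => ({(n : Ordinal.{u}).toZFSet} : ZFSet.{u})) ∪
    (range (fun n : ℕ => ({(n : Ordinal.{u}).toZFSet, (lam n).ord.toZFSet} : ZFSet.{u})) ∪
    range (fun n : ℕ => ZFSet.pair (n : Ordinal.{u}).toZFSet (lam n).ord.toZFSet)))))) with hC
  have hCc : C.Countable := by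
    refine (countable_singleton _).union ((countable_singleton _).union
      ((countable_range _).union ((countable_range _).union ((countable_range _).union
      ((countable_range _).union (countable_range _))))))
  set B : Set (List ZFSet.{u} → ZFSet.{u}) :=
    (fun x _ => x) '' C ∪ ({df} ∪ {f | f ∈ sk φ}) with hB
  have hBc : B.Countable :=
    (hCc.image _).union ((countable_singleton _).union (List.finite_toSet (sk φ)).countable)
  set A : Set (List ZFSet.{u} → ZFSet.{u}) := (fun x _ => x) '' (V : Set ZFSet.{u}) with hA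
  have hcardA : #A ≤ lift.{u + 1} (lam q') := by
    refine mk_image_le.trans (le_of_eq ?_)
    change #V = _
    rw [ZFSet.cardinalMk_coe_sort, hV, ZFSet.card_vonNeumann, (hin q').preBeth_ord]
  have hlt : lam q' < lam (q' + 1) := hmono (Nat.lt_succ_self q')
  have hal : ℵ₀ < lam (q' + 1) := (hin _).aleph0_lt
  have hcard : #(A ∪ B : Set (List ZFSet.{u} → ZFSet.{u})) < lift.{u + 1} (lam (q' + 1)) := by
    refine (mk_union_le A B).trans_lt ?_
    refine add_lt_of_lt ?_ ?_ ?_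
    · rw [aleph0_le_lift]
      exact hal.le
    · exact hcardA.trans_lt (lift_lt.2 hlt)
    · refine (mk_le_aleph0_iff.2 hBc.to_subtype).trans_lt ?_
      rw [aleph0_lt_lift]
      exact hal
  obtain ⟨O, ops, hO, hops⟩ := exists_ops (A ∪ B) hcard
  refine ⟨q' + 1, O, ops, hO, ?_⟩
  intro Y hY hS
  have hF : ∀ f ∈ A ∪ B, ∀ l, (∀ v ∈ l, v ∈ Y) → f l ∈ Y := by
    intro f hf l hl
    obtain ⟨o, rfl⟩ := hops f hf
    exact hY o l hl
  have hVY : ∀ x ∈ V, x ∈ Y := fun x hx =>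
    hF (fun _ => x) (Or.inl ⟨x, hx, rfl⟩) [] (by simp)
  have hCY : ∀ x ∈ C, x ∈ Y := fun x hx =>
    hF (fun _ => x) (Or.inr (Or.inl ⟨x, hx, rfl⟩)) [] (by simp)
  have hd := df_spec (Y := Y) (hF df (Or.inr (Or.inr (Or.inl rfl))))
  have hsk : ∀ f ∈ sk φ, ∀ l, (∀ v ∈ l, v ∈ Y) → f l ∈ Y := fun f hf =>
    hF f (Or.inr (Or.inr (Or.inr hf)))
  have hself := coll_self (Y := Y) (ZFSet.isTransitive_vonNeumann (lam q').ord) hVY
  have henc : enc lam y ∈ Y := hCY _ (Or.inl rfl)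
  have hvec : vec lam ∈ Y := hCY _ (Or.inr (Or.inl rfl))
  have hwY : ∀ i, w i ∈ Y := fun i => hCY _ (Or.inr (Or.inr (Or.inl ⟨i, rfl⟩)))
  have hnV : ∀ n : ℕ, (n : Ordinal.{u}).toZFSet ∈ V := by
    intro n
    rw [hV, ZFSet.mem_vonNeumann, Ordinal.rank_toZFSet, Cardinal.lt_ord, Ordinal.card_nat]
    exact (natCast_lt_aleph0 (n := n)).trans (hin q').aleph0_lt
  have hLn : ∀ n, vn lam (L n) = (lam n).ord.toZFSet := by
    intro n
    unfold vn
    rw [hL]
  have hcL : ∀ n, coll Y (lam n).ord.toZFSet = (lam n).ord.toZFSet := by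
    intro n
    rw [← hLn]
    apply coll_vn
    rcases Nat.lt_or_ge n (q' + 1) with hn | hn
    · have h3 : {i | vn lam i ∈ Y} ∩ Iio (L n) = Iio (L n) := by
        apply inter_eq_right.2
        intro i hi
        apply hVY
        rw [hV, ZFSet.mem_vonNeumann]
        unfold vn
        rw [Ordinal.rank_toZFSet]
        have h4 : (i.toOrd : Ordinal.{u}) < (L n).toOrd := Ordinal.ToType.mk.symm.lt_iff_lt.2 hi
        rw [hL] at h4
        exact h4.trans_le (Cardinal.ord_le_ord.2 (hmono.monotone (Nat.lt_succ_iff.1 hn)))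
      rw [h3]
      exact ⟨OrderIso.refl _⟩
    · obtain ⟨ρ, hρ, ⟨e⟩⟩ := exists_Iio_iso {i | vn lam i ∈ Y} (L n)
      rcases hρ.lt_or_eq with h | h
      · exfalso
        have h1 : #(Iio ρ) < lam n := by
          apply mk_Iio_lt
          rw [← hL n]
          exact Ordinal.ToType.mk.symm.lt_iff_lt.2 h
        have h2 : #(Iio ρ) = #↥({i | vn lam i ∈ Y} ∩ Iio (L n)) := Cardinal.mk_congr e.toEquiv
        rw [hS n hn] at h2
        exact absurd h2 h1.ne
      · rw [h] at e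
        exact ⟨e⟩
  have hcv : coll Y (vec lam) = vec lam := by
    apply coll_vec
    · exact fun n => hVY _ (hnV n)
    · exact fun n => hCY _ (Or.inr (Or.inr (Or.inr (Or.inl ⟨n, rfl⟩))))
    · exact fun n => hCY _ (Or.inr (Or.inr (Or.inr (Or.inr (Or.inl ⟨n, rfl⟩)))))
    · exact fun n => hCY _ (Or.inr (Or.inr (Or.inr (Or.inr (Or.inr (Or.inl ⟨n, rfl⟩))))))
    · exact fun n => hCY _ (Or.inr (Or.inr (Or.inr (Or.inr (Or.inr (Or.inr ⟨n, rfl⟩))))))
    · exact fun n => hself _ (hnV n)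
    · exact hcL
  have hpY : ∀ i, p i ∈ Y := by
    intro i
    rcases hq' i with h | h
    · exact hVY _ h
    · rw [h]; exact hvec
  have hcp : ∀ i, coll Y (p i) = p i := by
    intro i
    rcases hq' i with h | h
    · exact hself _ h
    · rw [h]; exact hcv
  rw [hφ]
  refine ⟨fun i => coll Y (w i), ?_⟩
  have hall : ∀ i, (Fin.append (Fin.append (fun _ : Fin 1 => enc lam y) p) w) i ∈ Y := by
    intro i
    refine Fin.addCases (fun i => ?_) (fun i => ?_) i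
    · rw [Fin.append_left]
      refine Fin.addCases (fun i => ?_) (fun i => ?_) i
      · rw [Fin.append_left]; exact henc
      · rw [Fin.append_right]; exact hpY i
    · rw [Fin.append_right]; exact hwY i
  have hfin : Fin.append (Fin.append (fun _ : Fin 1 => enc lam (colSet {i | vn lam i ∈ Y} y)) p)
      (fun i => coll Y (w i)) =
      fun i => coll Y ((Fin.append (Fin.append (fun _ : Fin 1 => enc lam y) p) w) i) := by
    funext i
    refine Fin.addCases (fun i => ?_) (fun i => ?_) i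
    · rw [Fin.append_left, Fin.append_left]
      refine Fin.addCases (fun i => ?_) (fun i => ?_) i
      · rw [Fin.append_left, Fin.append_left, coll_enc]
      · rw [Fin.append_right, Fin.append_right, hcp]
    · rw [Fin.append_right, Fin.append_right]
  rw [hfin, sat_coll hd φ hsk _ hall]
  exact hw

end Pool.Agent.Lib.MP_62560c_lc
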