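import Pool.Agent.Lib.MP_62560c_lc.Key
import Pool.Agent.Lib.MP_62560c_lc.Top
import Pool.Agent.Lib.MP_62560c_lc.Count
import Pool.Agent.Lib.MP_62560c_lc.Zf
import Pool.Agent.Lib.MP_62560c_lc.Meas

/-!
The main theorem.
-/

set_option autoImplicit false

open Cardinal Set

universe u

namespace Pool.Agent.Lib.MP_62560c_lc

theorem lt_lamSup {lam : ℕ → Cardinal.{u}} (hmono : StrictMono lam) (n : ℕ) :
    lam n < lamSup lam :=
  (hmono (Nat.lt_succ_self n)).trans_le (le_ciSup (Cardinal.bddAbove_range _) (n + 1))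

theorem vn_injective (lam : ℕ → Cardinal.{u}) : Function.Injective (vn lam) := by
  intro i j h
  have h1 := Ordinal.toZFSet_injective h
  exact Ordinal.ToType.mk.symm.injective (Subtype.ext h1)

/-- **The positive answer to Q1.** -/
theorem main : MainStatement.{u} := by
  intro lam hmono hsc X hX hcard
  obtain ⟨c, hcL, hcκ⟩ := exists_ctx lam hmono hsc
  have hin : ∀ n, (lam n).IsInaccessible := fun n =>
    isInaccessible (hsc n _ (lt_lamSup hmono n))
  have hΛ : #(Lam lam) = lamSup lam := by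
    rw [Lam, Cardinal.mk_toType, Cardinal.card_ord]
  obtain ⟨y, hyX, hy⟩ := exists_good c X (by rw [hΛ]; exact hcard)
  obtain ⟨q, O, ops, hO, hops⟩ := collapse_mem lam hmono hin c.L hcL X hX y hyX
  obtain ⟨ns, ms, Y, hq, h1, h2, hY⟩ := core c q (vn lam) (vn_injective lam) ops
    (by rw [hcκ]; exact hO) y hy
  obtain ⟨e, he, hemb⟩ := exists_embedding c q y ns ms hq h1 h2 (fun x => {i | vn lam i ∈ Y x})
    fun x hx => ⟨(hY x hx).2.1, (hY x hx).2.2⟩
  refine ⟨fun x => colSet {i | vn lam i ∈ Y (e x)} y, hemb, ?_⟩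
  rintro _ ⟨x, rfl⟩
  obtain ⟨hc1, hc2, -⟩ := hY (e x) (he x)
  exact hops (Y (e x)) hc1 fun n hn => by rw [hc2 n hn, hcκ]

end Pool.Agent.Lib.MP_62560c_lc
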