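import Pool.Agent.Lib.MP_62560c_lc.Base

/-!
Module B: generic sequences of points; the iterated quantifier.
-/

set_option autoImplicit false

open Cardinal Set

universe u v

namespace Pool.Agent.Lib.MP_62560c_lc

theorem Tr_append {K M : Type*} (μ : K → Ultrafilter M) (ks : List K) (k : K)
    (P : List M → Prop) :
    Tr μ (ks ++ [k]) P ↔ Tr μ ks fun l => ∀ᶠ a in (μ k : Filter M), P (l ++ [a]) := by
  induction ks generalizing P with
  | nil => simp [Tr]
  | cons k' ks ih =>
    simp only [List.cons_append, Tr]
    refine Filter.eventually_congr (Filter.Eventually.of_forall fun a => ?_)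
    rw [ih]

theorem Tr_congr {K M : Type*} (μ : K → Ultrafilter M) (ks : List K) {P P' : List M → Prop}
    (h : ∀ l : List M, l.length = ks.length → (P l ↔ P' l)) : Tr μ ks P ↔ Tr μ ks P' := by
  induction ks generalizing P P' with
  | nil => exact h [] rfl
  | cons k ks ih =>
    simp only [Tr]
    refine Filter.eventually_congr (Filter.Eventually.of_forall fun a => ?_)
    exact ih fun l hl => h (a :: l) (by simp [hl])

theorem Tr_map {K M N : Type*} (μ : K → Ultrafilter M) (e : M → N) (ks : List K)
    (P : List N → Prop) :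
    Tr (fun k => (μ k).map e) ks P ↔ Tr μ ks fun l => P (l.map e) := by
  induction ks generalizing P with
  | nil => simp [Tr]
  | cons k ks ih =>
    simp only [Tr, List.map_cons, Ultrafilter.coe_map, Filter.eventually_map]
    refine Filter.eventually_congr (Filter.Eventually.of_forall fun a => ?_)
    exact ih fun l => P (e a :: l)

theorem Tr_kmap {K K' M : Type*} (μ : K → Ultrafilter M) (g : K' → K) (ks : List K')
    (P : List M → Prop) : Tr μ (ks.map g) P ↔ Tr (fun k => μ (g k)) ks P := by
  induction ks generalizing P with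
  | nil => simp [Tr]
  | cons k ks ih =>
    simp only [Tr, List.map_cons]
    refine Filter.eventually_congr (Filter.Eventually.of_forall fun a => ?_)
    exact ih fun l => P (a :: l)

theorem Tr_measure_congr {K M : Type*} (μ μ' : K → Ultrafilter M) (ks : List K)
    (h : ∀ k ∈ ks, μ k = μ' k) (P : List M → Prop) : Tr μ ks P ↔ Tr μ' ks P := by
  induction ks generalizing P with
  | nil => simp [Tr]
  | cons k ks ih =>
    simp only [Tr]
    rw [h k (by simp)]
    refine Filter.eventually_congr (Filter.Eventually.of_forall fun a => ?_)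
    exact ih (fun k' hk' => h k' (by simp [hk'])) fun l => P (a :: l)

theorem Tr_not {K M : Type*} (μ : K → Ultrafilter M) (ks : List K) (P : List M → Prop) :
    Tr μ ks (fun l => ¬ P l) ↔ ¬ Tr μ ks P := by
  induction ks generalizing P with
  | nil => simp [Tr]
  | cons k ks ih =>
    simp only [Tr]
    rw [← Ultrafilter.eventually_not]
    refine Filter.eventually_congr (Filter.Eventually.of_forall fun a => ?_)
    exact ih fun l => P (a :: l)

theorem Tr_and {K M : Type*} (μ : K → Ultrafilter M) (ks : List K) (P P' : List M → Prop) :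
    Tr μ ks (fun l => P l ∧ P' l) ↔ Tr μ ks P ∧ Tr μ ks P' := by
  induction ks generalizing P P' with
  | nil => simp [Tr]
  | cons k ks ih =>
    simp only [Tr]
    rw [← Filter.eventually_and]
    refine Filter.eventually_congr (Filter.Eventually.of_forall fun a => ?_)
    exact ih (fun l => P (a :: l)) fun l => P' (a :: l)

/-- an almost everywhere bounded function is almost everywhere constant -/
theorem Complete.const {α β : Type*} {κ : Cardinal.{u}} {U : Ultrafilter α} (hU : Complete κ U)
    {R : Type u} (v : R → β) (hR : #R < κ) (g : α → β) (h : ∀ᶠ a in (U : Filter α), ∃ r, g a = v r) :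
    ∃ r, ∀ᶠ a in (U : Filter α), g a = v r := by
  by_contra hcon
  push Not at hcon
  have h1 : ∀ r, {a | g a ≠ v r} ∈ U := by
    intro r
    exact hcon r
  have h2 : (⋂ r, {a | g a ≠ v r}) ∈ U := hU R _ hR h1
  have h3 : ∀ᶠ a in (U : Filter α), a ∈ ⋂ r, {a | g a ≠ v r} := h2
  obtain ⟨a, ha, ha'⟩ := (h.and h3).exists
  obtain ⟨r, hr⟩ := ha
  exact (Set.mem_iInter.1 ha' r) hr

theorem Complete.map {α β : Type*} {κ : Cardinal.{u}} {U : Ultrafilter α} (hU : Complete κ U)
    (e : α → β) : Complete κ (U.map e) := by
  intro I s hI hs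
  rw [Ultrafilter.mem_map, Set.preimage_iInter]
  exact hU I _ hI fun i => Ultrafilter.mem_map.1 (hs i)

/-- generic sequences: `P c`, `c : C`, is a small family of predicates -/
theorem exists_generic {J K C : Type u} [LinearOrder J] [WellFoundedLT J] {M : Type v} [Nonempty M]
    (μ : K → Ultrafilter M) (kind : J → K) (P : C → List M → Prop) (κ : J → Cardinal.{u})
    (hκ : ∀ i, Complete (κ i) (μ (kind i))) (hs : ∀ i, #C * #(List (Iio i)) < κ i) :
    ∃ γ : J → M, ∀ (c : C) (i : J) (F : List J), (∀ j ∈ F, j < i) →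
      (P c (F.map γ ++ [γ i]) ↔ ∀ᶠ a in (μ (kind i) : Filter M), P c (F.map γ ++ [a])) := by
  classical
  -- one step
  have step : ∀ (i : J) (g : Iio i → M), ∃ b : M, ∀ (c : C) (F : List (Iio i)),
      (P c (F.map g ++ [b]) ↔ ∀ᶠ a in (μ (kind i) : Filter M), P c (F.map g ++ [a])) := by
    intro i g
    have h1 : ∀ p : C × List (Iio i), {b : M | P p.1 (p.2.map g ++ [b]) ↔
        ∀ᶠ a in (μ (kind i) : Filter M), P p.1 (p.2.map g ++ [a])} ∈ μ (kind i) := by
      intro p
      by_cases hp : ∀ᶠ a in (μ (kind i) : Filter M), P p.1 (p.2.map g ++ [a])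
      · refine Filter.mem_of_superset hp fun b hb => ?_
        exact ⟨fun _ => hp, fun _ => hb⟩
      · have hp' := hp
        rw [← Ultrafilter.eventually_not] at hp'
        refine Filter.mem_of_superset hp' fun b hb => ?_
        exact ⟨fun h => absurd h hb, fun h => absurd h hp⟩
    have h2 := hκ i (C × List (Iio i)) _ (by simpa using hs i) h1
    obtain ⟨b, hb⟩ := Filter.nonempty_of_mem (f := (μ (kind i) : Filter M)) h2
    exact ⟨b, fun c F => Set.mem_iInter.1 hb (c, F)⟩
  choose nxt hnxt using step
  let γ : J → M := WellFounded.fix (wellFounded_lt (α := J)) fun i ih => nxt i fun j => ih j.1 j.2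
  have hγ : ∀ i, γ i = nxt i fun j => γ j.1 := fun i =>
    WellFounded.fix_eq (wellFounded_lt (α := J)) _ i
  refine ⟨γ, fun c i F hF => ?_⟩
  have hF' : ∃ F' : List (Iio i), F'.map (fun j => γ j.1) = F.map γ := by
    refine ⟨F.attach.map fun j => ⟨j.1, hF j.1 j.2⟩, ?_⟩
    rw [List.map_map]
    have h0 : ((fun j : Iio i => γ j.1) ∘ fun j : {x // x ∈ F} => (⟨j.1, hF j.1 j.2⟩ : Iio i))
        = γ ∘ (Subtype.val : {x // x ∈ F} → J) := rfl
    rw [h0, ← List.map_map, List.attach_map_subtype_val]
  obtain ⟨F', hF'⟩ := hF'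
  have h := hnxt i (fun j => γ j.1) c F'
  rw [← hγ i, hF'] at h
  exact h

/-- generic sequences realise the iterated quantifiers, if the family of predicates is closed under
the quantifiers -/
theorem generic_type {J K C : Type*} [LinearOrder J] {M : Type*}
    (μ : K → Ultrafilter M) (kind : J → K) (P : C → List M → Prop)
    (hP : ∀ (c : C) (i : J), ∃ c' : C, ∀ l, P c' l ↔ ∀ᶠ a in (μ (kind i) : Filter M), P c (l ++ [a]))
    (γ : J → M) (hγ : ∀ (c : C) (i : J) (F : List J), (∀ j ∈ F, j < i) →
      (P c (F.map γ ++ [γ i]) ↔ ∀ᶠ a in (μ (kind i) : Filter M), P c (F.map γ ++ [a])))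
    (c : C) (F E : List J) (hE : E.Pairwise (· < ·)) (hFE : ∀ j ∈ F, ∀ i ∈ E, j < i) :
    P c (F.map γ ++ E.map γ) ↔ Tr μ (E.map kind) fun l => P c (F.map γ ++ l) := by
  induction E using List.reverseRecOn generalizing c with
  | nil => simp [Tr]
  | append_singleton E i ih =>
    rw [List.pairwise_append] at hE
    obtain ⟨c', hc'⟩ := hP c i
    have hlt : ∀ j ∈ F ++ E, j < i := by
      intro j hj
      rw [List.mem_append] at hj
      rcases hj with hj | hj
      · exact hFE j hj i (by simp)
      · exact hE.2.2 j hj i (by simp)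
    have h1 := hγ c i (F ++ E) hlt
    rw [List.map_append] at h1
    have h2 := ih c' hE.1 fun j hj k hk => hFE j hj k (by simp [hk])
    rw [List.map_append, List.map_append, List.map_singleton, List.map_singleton, Tr_append,
      ← List.append_assoc, h1, ← hc' (F.map γ ++ E.map γ), h2]
    refine Tr_congr μ _ fun l _ => ?_
    rw [hc']
    simp only [List.append_assoc]

end Pool.Agent.Lib.MP_62560c_lc
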