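import Pool.Agent.Lib.MP_62560c_lc.Base

/-!
Module L: lists and selections.
-/

set_option autoImplicit false

open Cardinal Set

namespace Pool.Agent.Lib.MP_62560c_lc

theorem sel_map {α β : Type*} (f : α → β) (s : List Bool) (l : List α) :
    (sel s l).map f = sel s (l.map f) := by
  induction l generalizing s with
  | nil => cases s with
    | nil => simp [sel]
    | cons b s => cases b <;> simp [sel]
  | cons a l ih => cases s with
    | nil => simp [sel]
    | cons b s => cases b <;> simp [sel, ih]

private theorem sel_sublist {α : Type*} (s : List Bool) (l : List α) : (sel s l).Sublist l := by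
  induction l generalizing s with
  | nil => cases s with
    | nil => simp [sel]
    | cons b s => cases b <;> simp [sel]
  | cons a l ih => cases s with
    | nil => simp [sel]
    | cons b s =>
      cases b
      · simpa [sel] using (ih s).cons a
      · simpa [sel] using (ih s).cons_cons a

private theorem exists_sel_of_sublist {α : Type*} {F E : List α} (h : F.Sublist E) :
    ∃ s : List Bool, sel s E = F := by
  induction h with
  | slnil => exact ⟨[], by simp [sel]⟩
  | cons a _ ih =>
    obtain ⟨s, hs⟩ := ih
    exact ⟨false :: s, by simp [sel, hs]⟩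
  | cons_cons a _ ih =>
    obtain ⟨s, hs⟩ := ih
    exact ⟨true :: s, by simp [sel, hs]⟩

theorem sel_subset {α : Type*} (s : List Bool) (l : List α) : ∀ a ∈ sel s l, a ∈ l :=
  fun _ h => (sel_sublist s l).subset h

theorem sel_pairwise {α : Type*} {r : α → α → Prop} (s : List Bool) {l : List α}
    (h : l.Pairwise r) : (sel s l).Pairwise r :=
  h.sublist (sel_sublist s l)

private theorem sublist_of_subset {α : Type*} [LinearOrder α] (F E : List α)
    (hF : F.Pairwise (· < ·)) (hE : E.Pairwise (· < ·)) (h : ∀ a ∈ F, a ∈ E) : F.Sublist E := by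
  induction E generalizing F with
  | nil =>
    cases F with
    | nil => exact List.Sublist.slnil
    | cons a F => exact absurd (h a (by simp)) (by simp)
  | cons e E ih =>
    cases F with
    | nil => exact List.nil_sublist _
    | cons a F =>
      rw [List.pairwise_cons] at hF hE
      have ha := h a (by simp)
      rw [List.mem_cons] at ha
      rcases ha with rfl | ha
      · refine List.Sublist.cons_cons _ (ih F hF.2 hE.2 fun b hb => ?_)
        have hb' := h b (by simp [hb])
        rw [List.mem_cons] at hb'
        rcases hb' with rfl | hb'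
        · exact absurd (hF.1 _ hb) (lt_irrefl _)
        · exact hb'
      · refine List.Sublist.cons _ (ih (a :: F) (List.pairwise_cons.2 hF) hE.2 fun b hb => ?_)
        have hb' := h b hb
        rw [List.mem_cons] at hb'
        rcases hb' with rfl | hb'
        · have h1 : b < a := hE.1 _ ha
          rw [List.mem_cons] at hb
          rcases hb with rfl | hb
          · exact absurd h1 (lt_irrefl _)
          · exact absurd (h1.trans (hF.1 _ hb)) (lt_irrefl _)
        · exact hb'

/-- two increasing lists are selections of one increasing list -/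
theorem exists_merge {α : Type*} [LinearOrder α] (F G : List α) (hF : F.Pairwise (· < ·))
    (hG : G.Pairwise (· < ·)) :
    ∃ (E : List α) (s t : List Bool), E.Pairwise (· < ·) ∧ (∀ a, a ∈ E ↔ a ∈ F ∨ a ∈ G) ∧
      sel s E = F ∧ sel t E = G := by
  classical
  set E : List α := (F.toFinset ∪ G.toFinset).sort (· ≤ ·) with hE
  have hEp : E.Pairwise (· < ·) := Finset.sortedLT_sort _ |>.pairwise
  have hmem : ∀ a, a ∈ E ↔ a ∈ F ∨ a ∈ G := by
    intro a
    rw [hE, Finset.mem_sort, Finset.mem_union, List.mem_toFinset, List.mem_toFinset]
  obtain ⟨s, hs⟩ := exists_sel_of_sublist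
    (sublist_of_subset F E hF hEp fun a ha => (hmem a).2 (Or.inl ha))
  obtain ⟨t, ht⟩ := exists_sel_of_sublist
    (sublist_of_subset G E hG hEp fun a ha => (hmem a).2 (Or.inr ha))
  exact ⟨E, s, t, hEp, hmem, hs, ht⟩

/-- an increasing list is the concatenation of its parts below and not below an element -/
theorem exists_split {α : Type*} [LinearOrder α] (F : List α) (hF : F.Pairwise (· < ·)) (a : α) :
    ∃ F₁ F₂ : List α, F = F₁ ++ F₂ ∧ (∀ i ∈ F₁, i < a) ∧ ∀ i ∈ F₂, a ≤ i := by
  induction F with
  | nil => exact ⟨[], [], rfl, by simp, by simp⟩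
  | cons b F ih =>
    rw [List.pairwise_cons] at hF
    by_cases hb : b < a
    · obtain ⟨F₁, F₂, h, h1, h2⟩ := ih hF.2
      refine ⟨b :: F₁, F₂, by simp [h], ?_, h2⟩
      intro i hi
      rw [List.mem_cons] at hi
      rcases hi with rfl | hi
      · exact hb
      · exact h1 i hi
    · refine ⟨[], b :: F, rfl, by simp, ?_⟩
      intro i hi
      rw [List.mem_cons] at hi
      rcases hi with rfl | hi
      · exact not_lt.1 hb
      · exact (not_lt.1 hb).trans (hF.1 i hi).le

end Pool.Agent.Lib.MP_62560c_lc
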