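import Pool.Agent.Lib.MP_62560c_lc.Generic
import Pool.Agent.Lib.MP_62560c_lc.Closure
import Pool.Agent.Lib.MP_62560c_lc.Merge

/-!
Module C: existence of systems of hulls.
-/

set_option autoImplicit false

set_option linter.unusedSectionVars false

open Cardinal Set

universe u v

namespace Pool.Agent.Lib.MP_62560c_lc

variable {Λ : Type u} [LinearOrder Λ] [WellFoundedLT Λ]

namespace HullC

/-- codes of the unary operations -/
inductive UC
  | msk (s : List Bool)
  | qf (b : Bool) (n : ℕ)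
  | av (b : Bool) (n : ℕ)
  | dl
  | tr (m : ℕ)
  | isord (n : ℕ)
  | isst (n : ℕ)
  | memf (m k : ℕ)
  deriving Countable

/-- codes of the binary operations -/
inductive BC
  | cat
  | eq
  | inq (m : ℕ)
  | ltp
  | ltf (m k : ℕ) (s t : List Bool)
  deriving Countable

/-- truth values as lists -/
noncomputable def tv {M : Type v} (m0 : M) (p : Prop) : List M := by
  classical exact if p then [] else [m0]

theorem tv_iff {M : Type v} (m0 : M) (p : Prop) : tv m0 p = [] ↔ p := by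
  unfold tv
  split_ifs with h <;> simp [h]

section
variable (c : Ctx Λ) (mm : ℕ → ℕ) (y : Set Λ) {M : Type v} (ord : Λ → M)
  (fn : ∀ m, Fn (c.L m) → M) (st : ∀ m, Set (Fn (c.L m)) → M)

/-- the measures -/
noncomputable def ms (b : Bool) (n : ℕ) : Ultrafilter M :=
  match b with
  | true => (c.um n).map fun i => ord i.1
  | false => (c.wm n (mm n)).map (st (mm n))

/-- the average value of a function -/
noncomputable def avv (U : Ultrafilter M) (g : M → List M) : List M := by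
  classical exact if h : ∃ w, ∀ᶠ x in (U : Filter M), g x = w then h.choose else []

omit [LinearOrder Λ] [WellFoundedLT Λ] in
theorem avv_eq (U : Ultrafilter M) (g : M → List M) (w : List M)
    (h : ∀ᶠ x in (U : Filter M), g x = w) : avv U g = w := by
  have hex : ∃ w, ∀ᶠ x in (U : Filter M), g x = w := ⟨w, h⟩
  have h1 : avv U g = hex.choose := by
    unfold avv
    exact dif_pos hex
  rw [h1]
  obtain ⟨x, hx⟩ := (h.and hex.choose_spec).exists
  exact hx.2.symm.trans hx.1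

/-- the trace of a function -/
noncomputable def trc (m : ℕ) (g : List M → List M) : Fn (c.L m) := fun r => by
  classical exact
    if h : ∃ w : Iio (c.L m), g (r.map fun i => ord i.1) = [ord w.1] then h.choose
    else Classical.arbitrary _

theorem trc_eq (hord : Function.Injective ord) (m : ℕ) (g : List M → List M)
    (r : List (Iio (c.L m))) (w : Iio (c.L m)) (h : g (r.map fun i => ord i.1) = [ord w.1]) :
    trc c ord m g r = w := by
  have hex : ∃ w : Iio (c.L m), g (r.map fun i => ord i.1) = [ord w.1] := ⟨w, h⟩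
  have h1 : trc c ord m g r = hex.choose := by
    unfold trc
    exact dif_pos hex
  rw [h1]
  have h2 := h.symm.trans hex.choose_spec
  simp only [List.cons.injEq, and_true] at h2
  exact (Subtype.ext (hord h2)).symm

/-- the unary operations -/
noncomputable def unop (m0 : M) (o : UC) (a : List M → List M) (l : List M) : List M :=
  match o with
  | .msk s => a (sel s l)
  | .qf b n => tv m0 (∀ᶠ x in (ms c mm ord st b n : Filter M), a (l ++ [x]) = [])
  | .av b n => avv (ms c mm ord st b n) fun x => a (l ++ [x])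
  | .dl => a l.dropLast
  | .tr m => [fn m (trc c ord m fun r => a (l ++ r))]
  | .isord n => tv m0 (∃ j, j < c.L n ∧ a l = [ord j])
  | .isst n => tv m0 (∃ Q : Set (Fn (c.L (mm n))), #Q < c.κ n ∧ a l = [st _ Q])
  | .memf m k => tv m0 (∃ (f : Fn (c.L m)) (r : List (Iio (c.L m))), a (l.take k) = [fn m f] ∧
      l.drop k = r.map (fun i => ord i.1) ∧ f r ∈ c.restr y m)

/-- the binary operations -/
noncomputable def biop (m0 : M) (o : BC) (a b : List M → List M) (l : List M) : List M :=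
  match o with
  | .cat => a l ++ b l
  | .eq => tv m0 (a l = b l)
  | .inq m => tv m0 (∃ (h : Fn (c.L m)) (Q : Set (Fn (c.L m))), a l = [fn m h] ∧ b l = [st m Q] ∧
      h ∈ Q)
  | .ltp => tv m0 (∃ i j : Λ, a l = [ord i] ∧ b l = [ord j] ∧ i < j)
  | .ltf m k s t => tv m0 (∃ (f g : Fn (c.L m)) (r : List (Iio (c.L m))),
      a (l.take k) = [fn m f] ∧ b (l.take k) = [fn m g] ∧
      l.drop k = r.map (fun i => ord i.1) ∧ f (sel s r) < g (sel t r))

/-- the closed small family of functions, together with a generic sequence of points -/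
structure Sys (q : ℕ) {O : Type u} (ops : O → List M → M) where
  m0 : M
  C : Type u
  ev : C → List M → List M
  id : ∃ a, ∀ l, ev a l = l
  nil : ∃ a, ∀ l, ev a l = []
  app : ∀ o a, ∃ b, ∀ l, ev b l = [ops o (ev a l)]
  un : ∀ (o : UC) a, ∃ b, ∀ l, ev b l = unop c mm y ord fn st m0 o (ev a) l
  bi : ∀ (o : BC) a a', ∃ b, ∀ l, ev b l = biop c ord fn st m0 o (ev a) (ev a') l
  γ : Idx Λ → M
  gen : ∀ (a : C) (i : Idx Λ) (F : List (Idx Λ)), (∀ j ∈ F, j < i) →
    (ev a (F.map γ ++ [γ i]) = [] ↔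
      ∀ᶠ x in (ms c mm ord st (ofLex i).2 (max q (c.lv (plc i))) : Filter M),
        ev a (F.map γ ++ [x]) = [])

/-- the number of the indices below an index -/
theorem mk_Iio_idx (q : ℕ) (i : Idx Λ) : #(Iio i) < c.κ (max q (c.lv (plc i))) := by
  have h1 : #(Iio i) ≤ #(Iic (plc i) × Bool) := by
    refine Cardinal.mk_le_of_injective
      (f := fun j : Iio i => ((⟨plc j.1, ?_⟩ : Iic (plc i)), (ofLex j.1).2)) ?_
    · have hj := j.2
      rw [mem_Iio] at hj
      have h2 := Prod.Lex.lt_iff.1 hj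
      rcases h2 with h2 | h2
      · exact h2.le
      · exact h2.1.le
    · intro j j' hjj
      simp only [Prod.mk.injEq, Subtype.mk.injEq] at hjj
      apply Subtype.ext
      apply ofLex.injective
      exact Prod.ext hjj.1 hjj.2
  have h2 : #(Iic (plc i)) < c.κ (c.lv (plc i)) := by
    have h3 := c.init _ _ (c.lt_L_lv (plc i))
    have h4 : #(Iic (plc i)) ≤ #(Iio (plc i)) + 1 := by
      have h5 : (Iic (plc i) : Set Λ) = Iio (plc i) ∪ {plc i} := by
        rw [union_singleton, Iio_insert]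
      rw [h5]
      refine (mk_union_le _ _).trans ?_
      rw [mk_singleton]
    refine h4.trans_lt ?_
    exact add_lt_of_lt (c.aleph0_lt _).le h3 (one_lt_aleph0.trans (c.aleph0_lt _))
  have h3 : #(Iic (plc i) × Bool) < c.κ (c.lv (plc i)) := by
    rw [mk_prod]
    simp only [mk_fintype, Fintype.card_bool, Nat.cast_ofNat, lift_id', lift_ofNat]
    exact mul_lt_of_lt (c.aleph0_lt _).le h2 ((natCast_lt_aleph0 (n := 2)).trans (c.aleph0_lt _))
  exact (h1.trans_lt h3).trans_le (c.κ_mono (le_max_right _ _))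

theorem exists_sys (q : ℕ) (hmm : ∀ n, n ≤ mm n) {O : Type u} (ops : O → List M → M)
    (hO : #O < c.κ q) : Nonempty (Sys c mm y ord fn st q ops) := by
  have m0 : M := ord (c.L 0)
  have : Nonempty M := ⟨m0⟩
  obtain ⟨C, ev, hC, hz, hun, hbi⟩ := exists_closure (S := List M → List M)
    (Z := ULift.{u} Bool) (Un := O ⊕ ULift.{u} UC) (Bi := ULift.{u} BC)
    (fun b => if b.down then fun l => l else fun _ => [])
    (fun o a => match o with
      | .inl o => fun l => [ops o (a l)]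
      | .inr o => unop c mm y ord fn st m0 o.down a)
    (fun o a b => biop c ord fn st m0 o.down a b)
  have hC' : #C < c.κ q := by
    refine hC.trans_lt (max_lt (c.aleph0_lt q) ?_)
    have hq := c.aleph0_lt q
    refine add_lt_of_lt hq.le (add_lt_of_lt hq.le ?_ ?_) ?_
    · exact mk_le_aleph0.trans_lt hq
    · rw [mk_sum, lift_id, lift_id]
      exact add_lt_of_lt hq.le hO (mk_le_aleph0.trans_lt hq)
    · exact mk_le_aleph0.trans_lt hq
  obtain ⟨γ, hγ⟩ := exists_generic (J := Idx Λ) (K := ULift.{u} (Bool × ℕ)) (C := C)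
    (fun k => ms c mm ord st k.down.1 k.down.2)
    (fun i => ULift.up ((ofLex i).2, max q (c.lv (plc i))))
    (fun a l => ev a l = []) (fun i => c.κ (max q (c.lv (plc i))))
    (by
      intro i
      simp only
      unfold ms
      cases (ofLex i).2
      · exact Complete.map (c.wm_complete _ _ (hmm _)) _
      · exact Complete.map (c.um_complete _) _)
    (by
      intro i
      have hq := c.aleph0_lt (max q (c.lv (plc i)))
      refine mul_lt_of_lt hq.le (hC'.trans_le (c.κ_mono (le_max_left _ _))) ?_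
      refine (mk_list_le_max _).trans_lt (max_lt hq ?_)
      exact mk_Iio_idx c q i)
  refine ⟨⟨m0, C, ev, ?_, ?_, ?_, ?_, ?_, γ, ?_⟩⟩
  · obtain ⟨a, ha⟩ := hz ⟨true⟩
    exact ⟨a, fun l => by rw [ha]; rfl⟩
  · obtain ⟨a, ha⟩ := hz ⟨false⟩
    exact ⟨a, fun l => by rw [ha]; rfl⟩
  · intro o a
    obtain ⟨b, hb⟩ := hun (.inl o) a
    exact ⟨b, fun l => by rw [hb]⟩
  · intro o a
    obtain ⟨b, hb⟩ := hun (.inr ⟨o⟩) a
    exact ⟨b, fun l => by rw [hb]⟩
  · intro o a a'
    obtain ⟨b, hb⟩ := hbi ⟨o⟩ a a'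
    exact ⟨b, fun l => by rw [hb]⟩
  · intro a i F hF
    exact hγ a i F hF

/-- the levels of the points -/
theorem ms_complete (hmm : ∀ n, n ≤ mm n) (b : Bool) (n : ℕ) :
    Complete (c.κ n) (ms c mm ord st b n) := by
  unfold ms
  cases b
  · exact Complete.map (c.wm_complete _ _ (hmm _)) _
  · exact Complete.map (c.um_complete _) _

namespace Sys

variable {c mm y ord fn st} {q : ℕ} {O : Type u} {ops : O → List M → M}
  (S : Sys c mm y ord fn st q ops)

/-- the hull -/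
def Y (J : Set (Idx Λ)) : Set M :=
  {v | ∃ (a : S.C) (F : List (Idx Λ)), F.Pairwise (· < ·) ∧ (∀ i ∈ F, i ∈ J) ∧
    S.ev a (F.map S.γ) = [v]}

theorem Y_mono {J J' : Set (Idx Λ)} (h : J ⊆ J') : S.Y J ⊆ S.Y J' := by
  rintro v ⟨a, F, h1, h2, h3⟩
  exact ⟨a, F, h1, fun i hi => h (h2 i hi), h3⟩

theorem Y_list {J : Set (Idx Λ)} (l : List M) (hl : ∀ v ∈ l, v ∈ S.Y J) :
    ∃ (a : S.C) (F : List (Idx Λ)), F.Pairwise (· < ·) ∧ (∀ i ∈ F, i ∈ J) ∧
    S.ev a (F.map S.γ) = l := by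
  induction l with
  | nil =>
    obtain ⟨a, ha⟩ := S.nil
    exact ⟨a, [], List.Pairwise.nil, by simp, ha _⟩
  | cons v l ih =>
    obtain ⟨a, F, h1, h2, h3⟩ := hl v (by simp)
    obtain ⟨b, G, g1, g2, g3⟩ := ih fun w hw => hl w (by simp [hw])
    obtain ⟨E, s, t, hE, hmem, hs, ht⟩ := exists_merge F G h1 g1
    obtain ⟨a', ha'⟩ := S.un (.msk s) a
    obtain ⟨b', hb'⟩ := S.un (.msk t) b
    obtain ⟨d, hd⟩ := S.bi .cat a' b'
    refine ⟨d, E, hE, fun i hi => ?_, ?_⟩
    · rcases (hmem i).1 hi with h | h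
      · exact h2 i h
      · exact g2 i h
    · rw [hd, biop, ha', hb', unop, unop, ← sel_map, ← sel_map, hs, ht, h3, g3]
      rfl

theorem op_mem (J : Set (Idx Λ)) (o : O) (l : List M) (hl : ∀ v ∈ l, v ∈ S.Y J) :
    ops o l ∈ S.Y J := by
  obtain ⟨a, F, h1, h2, h3⟩ := S.Y_list l hl
  obtain ⟨b, hb⟩ := S.app o a
  exact ⟨b, F, h1, h2, by rw [hb, h3]⟩

theorem pt_mem (J : Set (Idx Λ)) (i : Idx Λ) (hi : i ∈ J) : S.γ i ∈ S.Y J := by
  obtain ⟨a, ha⟩ := S.id
  exact ⟨a, [i], by simp, by simpa using hi, by rw [ha]; rfl⟩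

/-- the level of an index -/
noncomputable def lev (_ : Sys c mm y ord fn st q ops) (i : Idx Λ) : ℕ := max q (c.lv (plc i))

theorem elim_const {a : S.C} {i : Idx Λ} {F : List (Idx Λ)} (hF : ∀ j ∈ F, j < i) {w : List M}
    (h : ∀ᶠ x in (ms c mm ord st (ofLex i).2 (max q (c.lv (plc i))) : Filter M),
      S.ev a (F.map S.γ ++ [x]) = w) :
    S.ev a (F.map S.γ ++ [S.γ i]) = w ∧ ∃ b, S.ev b (F.map S.γ) = w := by
  obtain ⟨b, hb⟩ := S.un (.av (ofLex i).2 (max q (c.lv (plc i)))) a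
  obtain ⟨b', hb'⟩ := S.un .dl b
  obtain ⟨e, he⟩ := S.bi .eq a b'
  have h1 : S.ev b (F.map S.γ) = w := by
    rw [hb, unop]
    exact avv_eq _ _ _ h
  have h2 : ∀ x, S.ev b' (F.map S.γ ++ [x]) = w := by
    intro x
    rw [hb', unop, List.dropLast_concat, h1]
  have h3 : ∀ x, S.ev e (F.map S.γ ++ [x]) = [] ↔ S.ev a (F.map S.γ ++ [x]) = w := by
    intro x
    rw [he, biop, tv_iff, h2]
  refine ⟨?_, b, h1⟩
  rw [← h3, S.gen e i F hF]
  filter_upwards [h] with x hx
  rw [h3, hx]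

theorem elim_last (hmm : ∀ n, n ≤ mm n) {a : S.C} {i : Idx Λ} {F : List (Idx Λ)}
    (hF : ∀ j ∈ F, j < i) {R : Type u} (v : R → List M) (hR : #R < c.κ (max q (c.lv (plc i))))
    (h : ∀ᶠ x in (ms c mm ord st (ofLex i).2 (max q (c.lv (plc i))) : Filter M),
      ∃ r, S.ev a (F.map S.γ ++ [x]) = v r) :
    ∃ b, S.ev b (F.map S.γ) = S.ev a (F.map S.γ ++ [S.γ i]) := by
  obtain ⟨r, hr⟩ := (ms_complete c mm ord st hmm _ _).const v hR _ h
  obtain ⟨h1, b, hb⟩ := S.elim_const hF hr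
  exact ⟨b, by rw [hb, h1]⟩

/-- a version of `elim_last` for a code of the assumption -/
theorem elim_code (hmm : ∀ n, n ≤ mm n) {a d : S.C} {i : Idx Λ} {F : List (Idx Λ)}
    (hF : ∀ j ∈ F, j < i) {R : Type u} (v : R → List M) (hR : #R < c.κ (max q (c.lv (plc i))))
    (hd : ∀ x, S.ev d (F.map S.γ ++ [x]) = [] ↔ ∃ r, S.ev a (F.map S.γ ++ [x]) = v r)
    (h : ∃ r, S.ev a (F.map S.γ ++ [S.γ i]) = v r) :
    ∃ b, S.ev b (F.map S.γ) = S.ev a (F.map S.γ ++ [S.γ i]) := by
  refine S.elim_last hmm hF v hR ?_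
  rw [← hd, S.gen d i F hF] at h
  filter_upwards [h] with x hx
  exact (hd x).1 hx

theorem typ (a : S.C) (F E : List (Idx Λ)) (hE : E.Pairwise (· < ·))
    (hFE : ∀ j ∈ F, ∀ i ∈ E, j < i) :
    S.ev a (F.map S.γ ++ E.map S.γ) = [] ↔
      Tr (fun k : Bool × ℕ => ms c mm ord st k.1 k.2)
        (E.map fun i => ((ofLex i).2, max q (c.lv (plc i))))
        fun l => S.ev a (F.map S.γ ++ l) = [] := by
  refine generic_type (fun k : Bool × ℕ => ms c mm ord st k.1 k.2)
    (fun i : Idx Λ => ((ofLex i).2, max q (c.lv (plc i)))) (fun a l => S.ev a l = [])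
    (fun a i => ?_) S.γ (fun a i F hF => S.gen a i F hF) a F E hE hFE
  obtain ⟨b, hb⟩ := S.un (.qf (ofLex i).2 (max q (c.lv (plc i)))) a
  refine ⟨b, fun l => ?_⟩
  rw [hb, unop, tv_iff]

/-! #### points -/

theorem upt_lt {i i' : Λ} (h : i < i') : upt i < upt i' := by
  rw [Prod.Lex.lt_iff]
  exact Or.inl h

theorem wpt_lt_upt (i : Λ) : wpt i < upt i := by
  rw [Prod.Lex.lt_iff]
  exact Or.inr ⟨rfl, by simp [wpt, upt]⟩

theorem plc_mono {i j : Idx Λ} (h : i ≤ j) : plc i ≤ plc j := by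
  rcases h.lt_or_eq with h | h
  · rcases Prod.Lex.lt_iff.1 h with h | h
    · exact h.le
    · exact h.1.le
  · rw [h]

omit [LinearOrder Λ] [WellFoundedLT Λ] in
theorem sel_single {α : Type*} (l₁ : List α) (b : α) (l₂ : List α) :
    sel (List.replicate l₁.length false ++ [true]) (l₁ ++ b :: l₂) = [b] := by
  induction l₁ with
  | nil => cases l₂ <;> rfl
  | cons a l₁ ih => exact ih

theorem um_gt (n : ℕ) (u : Λ) (hu : u < c.L n) :
    ∀ᶠ j : Iio (c.L n) in (c.um n : Filter (Iio (c.L n))), u < j.1 := by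
  have h1 : #(Iic u) < c.κ n := by
    have h3 := c.init _ _ hu
    have h4 : #(Iic u) ≤ #(Iio u) + 1 := by
      have h5 : (Iic u : Set Λ) = Iio u ∪ {u} := by
        rw [union_singleton, Iio_insert]
      rw [h5]
      refine (mk_union_le _ _).trans ?_
      rw [mk_singleton]
    refine h4.trans_lt ?_
    exact add_lt_of_lt (c.aleph0_lt _).le h3 (one_lt_aleph0.trans (c.aleph0_lt _))
  have h2 := c.um_complete n (Iic u) (fun r => {j | j ≠ ⟨r.1, r.2.trans_lt hu⟩}) h1
    fun r => c.um_nonprin n _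
  filter_upwards [h2] with j hj
  by_contra hcon
  rw [not_lt] at hcon
  have h3 := mem_iInter.1 hj ⟨j.1, hcon⟩
  exact h3 rfl

theorem lv_upt {i : Λ} (hi : q ≤ c.lv i) : max q (c.lv (plc (upt i))) = c.lv i :=
  max_eq_right hi

theorem lv_wpt {i : Λ} (hi : q ≤ c.lv i) : max q (c.lv (plc (wpt i))) = c.lv i :=
  max_eq_right hi

theorem gen_upt (a : S.C) {i : Λ} (hi : q ≤ c.lv i) (F : List (Idx Λ)) (hF : ∀ j ∈ F, j < upt i) :
    S.ev a (F.map S.γ ++ [S.γ (upt i)]) = [] ↔
      ∀ᶠ j in (c.um (c.lv i) : Filter (Iio (c.L (c.lv i)))),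
        S.ev a (F.map S.γ ++ [ord j.1]) = [] := by
  rw [S.gen a (upt i) F hF, lv_upt hi]
  rfl

theorem gen_wpt (a : S.C) {i : Λ} (hi : q ≤ c.lv i) (F : List (Idx Λ)) (hF : ∀ j ∈ F, j < wpt i) :
    S.ev a (F.map S.γ ++ [S.γ (wpt i)]) = [] ↔
      ∀ᶠ Q in (c.wm (c.lv i) (mm (c.lv i)) : Filter (Set (Fn (c.L (mm (c.lv i)))))),
        S.ev a (F.map S.γ ++ [st _ Q]) = [] := by
  rw [S.gen a (wpt i) F hF, lv_wpt hi]
  rfl

theorem exists_U (i : Λ) (hi : q ≤ c.lv i) : ∃ j, j < c.L (c.lv i) ∧ S.γ (upt i) = ord j := by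
  obtain ⟨a, ha⟩ := S.id
  obtain ⟨d, hd⟩ := S.un (.isord (c.lv i)) a
  have h := S.gen_upt d hi [] (by simp)
  simp only [List.map_nil, List.nil_append, hd, unop, tv_iff, ha, List.cons.injEq,
    and_true] at h
  rw [h]
  exact Filter.Eventually.of_forall fun j => ⟨j.1, j.2, rfl⟩

theorem exists_W (hmm : ∀ n, n ≤ mm n) (i : Λ) (hi : q ≤ c.lv i) :
    ∃ Q : Set (Fn (c.L (mm (c.lv i)))), #Q < c.κ (c.lv i) ∧ S.γ (wpt i) = st _ Q := by
  obtain ⟨a, ha⟩ := S.id
  obtain ⟨d, hd⟩ := S.un (.isst (c.lv i)) a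
  have h := S.gen_wpt d hi [] (by simp)
  simp only [List.map_nil, List.nil_append, hd, unop, tv_iff, ha, List.cons.injEq,
    and_true] at h
  rw [h]
  filter_upwards [c.wm_small _ _ (hmm (c.lv i))] with Q hQ
  exact ⟨Q, hQ, rfl⟩

/-- the `U`-points -/
noncomputable def U (i : Λ) : Λ := by
  classical exact if h : q ≤ c.lv i then (S.exists_U i h).choose else i

theorem U_spec (i : Λ) (hi : q ≤ c.lv i) : S.U i < c.L (c.lv i) ∧ S.γ (upt i) = ord (S.U i) := by
  have h1 : S.U i = (S.exists_U i hi).choose := by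
    unfold U
    exact dif_pos hi
  rw [h1]
  exact (S.exists_U i hi).choose_spec

/-- the `W`-points -/
noncomputable def W (hmm : ∀ n, n ≤ mm n) (i : Λ) : Set (Fn (c.L (mm (c.lv i)))) := by
  classical exact if h : q ≤ c.lv i then (S.exists_W hmm i h).choose else ∅

theorem W_spec (hmm : ∀ n, n ≤ mm n) (i : Λ) (hi : q ≤ c.lv i) :
    #(S.W hmm i) < c.κ (c.lv i) ∧ S.γ (wpt i) = st _ (S.W hmm i) := by
  have h1 : S.W hmm i = (S.exists_W hmm i hi).choose := by
    unfold W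
    exact dif_pos hi
  rw [h1]
  exact (S.exists_W hmm i hi).choose_spec

theorem U_mono (hord : Function.Injective ord) (i i' : Λ) (hi : q ≤ c.lv i) (hii : i < i') :
    S.U i < S.U i' := by
  have hi' : q ≤ c.lv i' := hi.trans (c.lv_mono hii.le)
  obtain ⟨a, ha⟩ := S.id
  obtain ⟨a1, ha1⟩ := S.un (.msk [true]) a
  obtain ⟨a2, ha2⟩ := S.un (.msk [false, true]) a
  obtain ⟨d, hd⟩ := S.bi .ltp a1 a2
  have h := S.gen_upt d hi' [upt i] (by simpa using upt_lt hii)
  simp only [List.map_cons, List.map_nil, List.cons_append, List.nil_append, hd, biop, tv_iff, ha1,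
    ha2, unop, ha, sel, List.cons.injEq, and_true] at h
  obtain ⟨hU1, hU2⟩ := S.U_spec i hi
  obtain ⟨hU1', hU2'⟩ := S.U_spec i' hi'
  rw [hU2, hU2'] at h
  have h2 := h.2 (by
    filter_upwards [um_gt (c := c) (c.lv i') (S.U i)
      (hU1.trans_le (c.mono.monotone (c.lv_mono hii.le)))] with j hj
    exact ⟨S.U i, j.1, rfl, rfl, hj⟩)
  obtain ⟨j, j', h3, h4, h5⟩ := h2
  rw [hord h3, hord h4]
  exact h5

theorem elim (hmm : ∀ n, n ≤ mm n) (J : Set (Idx Λ)) (n : ℕ) (v : Λ) (hv : v < c.L n)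
    (h : ord v ∈ S.Y J) : ord v ∈ S.Y {i | i ∈ J ∧ c.lv (plc i) ≤ n} := by
  obtain ⟨a, F, h1, h2, h3⟩ := h
  induction F using List.reverseRecOn generalizing a with
  | nil => exact ⟨a, [], List.Pairwise.nil, by simp, h3⟩
  | append_singleton F i ih =>
    have h4 : ∀ j ∈ F, j < i := fun j hj => (List.pairwise_append.1 h1).2.2 j hj i (by simp)
    by_cases hi : c.lv (plc i) ≤ n
    · refine ⟨a, F ++ [i], h1, fun j hj => ⟨h2 j hj, ?_⟩, h3⟩
      refine (c.lv_mono (plc_mono ?_)).trans hi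
      rcases List.mem_append.1 hj with hj | hj
      · exact (h4 j hj).le
      · rw [List.mem_singleton.1 hj]
    · rw [not_le] at hi
      obtain ⟨d, hd⟩ := S.un (.isord n) a
      rw [List.map_append, List.map_singleton] at h3
      obtain ⟨b, hb⟩ := S.elim_code hmm (a := a) (d := d) h4 (R := Iio (c.L n))
        (fun j => [ord j.1]) ((c.κ_strictMono hi).trans_le (c.κ_mono (le_max_right _ _)))
        (by
          intro x
          rw [hd, unop, tv_iff]
          constructor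
          · rintro ⟨j, hj, hj'⟩
            exact ⟨⟨j, hj⟩, hj'⟩
          · rintro ⟨j, hj⟩
            exact ⟨j.1, j.2, hj⟩)
        ⟨⟨v, hv⟩, h3⟩
      exact ih b (List.pairwise_append.1 h1).1 (fun j hj => h2 j (by simp [hj])) (by rw [hb, h3])

theorem normal (hmm : ∀ n, n ≤ mm n) (hfn : ∀ m, Function.Injective (fn m))
    (hst : ∀ m, Function.Injective (st m)) (J : Set (Idx Λ)) (a : Λ) (hq : q ≤ c.lv a)
    (ha : wpt a ∈ J) (h : Fn (c.L (mm (c.lv a)))) (hW : h ∈ S.W hmm a) (hh : fn _ h ∈ S.Y J) :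
    fn _ h ∈ S.Y {i | i ∈ J ∧ i < wpt a} := by
  obtain ⟨hW1, hW2⟩ := S.W_spec hmm a hq
  obtain ⟨b0, hb0⟩ := S.id
  -- the claim
  have key : ∀ (E : List (Idx Λ)) (b : S.C), E.Pairwise (· < ·) → (∀ i ∈ E, i ∈ J) → wpt a ∈ E →
      S.ev b (E.map S.γ) = [fn _ h] → fn _ h ∈ S.Y {i | i ∈ J ∧ i < wpt a} := by
    intro E
    induction E using List.reverseRecOn with
    | nil => simp
    | append_singleton E i ih =>
      intro b h1 h2 h3 h4
      have h5 : ∀ j ∈ E, j < i := fun j hj => (List.pairwise_append.1 h1).2.2 j hj i (by simp)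
      have h6 : ∀ j ∈ E, j ∈ J := fun j hj => h2 j (by simp [hj])
      rw [List.map_append, List.map_singleton] at h4
      by_cases hi : i = wpt a
      · subst hi
        obtain ⟨b1, hb1⟩ := S.un (.msk (List.replicate (E.map S.γ).length false ++ [true])) b0
        obtain ⟨d, hd⟩ := S.bi (.inq (mm (c.lv a))) b b1
        have hd' : ∀ x, S.ev d (E.map S.γ ++ [x]) = [] ↔
            ∃ (h' : Fn (c.L (mm (c.lv a)))) (Q : Set (Fn (c.L (mm (c.lv a))))),
              S.ev b (E.map S.γ ++ [x]) = [fn _ h'] ∧ [x] = [st _ Q] ∧ h' ∈ Q := by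
          intro x
          rw [hd, biop, tv_iff, hb1, unop, hb0, sel_single]
        have h7 := (S.gen_wpt d hq E h5).1 ((hd' _).2 ⟨h, _, h4, by rw [hW2], hW⟩)
        have h8 : ∀ᶠ Q in (c.wm (c.lv a) (mm (c.lv a)) : Filter (Set (Fn (c.L (mm (c.lv a)))))),
            ∃ h', S.ev b (E.map S.γ ++ [st _ Q]) = [fn _ h'] ∧ h' ∈ Q := by
          filter_upwards [h7] with Q hQ
          obtain ⟨h', Q', e1, e2, e3⟩ := (hd' _).1 hQ
          simp only [List.cons.injEq, and_true] at e2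
          rw [← hst _ e2] at e3
          exact ⟨h', e1, e3⟩
        classical
        let FQ : Set (Fn (c.L (mm (c.lv a)))) → Fn (c.L (mm (c.lv a))) := fun Q =>
          if hQ : ∃ h', S.ev b (E.map S.γ ++ [st _ Q]) = [fn _ h'] ∧ h' ∈ Q then hQ.choose else h
        have h9 : {Q | FQ Q ∈ Q} ∈ c.wm (c.lv a) (mm (c.lv a)) := by
          filter_upwards [h8] with Q hQ
          have e1 : FQ Q = hQ.choose := dif_pos hQ
          change FQ Q ∈ Q
          rw [e1]
          exact hQ.choose_spec.2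
        obtain ⟨h1', h10⟩ := c.wm_normal _ _ (hmm (c.lv a)) FQ h9
        have h11 : ∀ᶠ Q in (c.wm (c.lv a) (mm (c.lv a)) : Filter (Set (Fn (c.L (mm (c.lv a)))))),
            S.ev b (E.map S.γ ++ [st _ Q]) = [fn _ h1'] := by
          filter_upwards [h8, h10] with Q hQ hQ'
          have e1 : FQ Q = hQ.choose := dif_pos hQ
          rw [hQ.choose_spec.1, ← e1, hQ']
        have h12 := S.elim_const (a := b) (i := wpt a) (F := E) h5 (w := [fn _ h1']) (by
          rw [lv_wpt hq]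
          exact h11)
        obtain ⟨h13, b', hb'⟩ := h12
        rw [h4] at h13
        exact ⟨b', E, (List.pairwise_append.1 h1).1, fun j hj => ⟨h6 j hj, h5 j hj⟩,
          by rw [hb', h13]⟩
      · have h7 : wpt a ∈ E := by
          rcases List.mem_append.1 h3 with h7 | h7
          · exact h7
          · exact absurd (List.mem_singleton.1 h7).symm hi
        obtain ⟨E1, E2, hE⟩ := List.append_of_mem h7
        obtain ⟨b1, hb1⟩ := S.un (.msk (List.replicate (E1.map S.γ).length false ++ [true])) b0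
        obtain ⟨d, hd⟩ := S.bi (.inq (mm (c.lv a))) b b1
        have hd' : ∀ x, S.ev d (E.map S.γ ++ [x]) = [] ↔
            ∃ r : S.W hmm a, S.ev b (E.map S.γ ++ [x]) = [fn _ r.1] := by
          intro x
          have e1 : E.map S.γ ++ [x] = E1.map S.γ ++ S.γ (wpt a) :: (E2.map S.γ ++ [x]) := by
            rw [hE]
            simp
          have e2 : S.ev b1 (E.map S.γ ++ [x]) = [S.γ (wpt a)] := by
            rw [hb1, unop, hb0, e1, sel_single]
          rw [hd, biop, tv_iff, e2, hW2]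
          constructor
          · rintro ⟨h', Q, e3, e4, e5⟩
            simp only [List.cons.injEq, and_true] at e4
            rw [← hst _ e4] at e5
            exact ⟨⟨h', e5⟩, e3⟩
          · rintro ⟨r, hr⟩
            exact ⟨r.1, _, hr, rfl, r.2⟩
        have hlt : wpt a < i := h5 _ h7
        obtain ⟨b', hb'⟩ := S.elim_code hmm (a := b) (d := d) h5 (R := S.W hmm a)
          (fun r => [fn _ r.1])
          (hW1.trans_le (c.κ_mono ((c.lv_mono (plc_mono hlt.le)).trans (le_max_right _ _)))) hd'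
          ⟨⟨h, hW⟩, h4⟩
        exact ih b' (List.pairwise_append.1 h1).1 h6 h7 (by rw [hb', h4])
  obtain ⟨a0, F, h1, h2, h3⟩ := hh
  obtain ⟨E, s, t, hE, hmem, hs, -⟩ := exists_merge F [wpt a] h1 (by simp)
  obtain ⟨a1, ha1⟩ := S.un (.msk s) a0
  refine key E a1 hE ?_ ((hmem _).2 (Or.inr (by simp))) ?_
  · intro i hi
    rcases (hmem i).1 hi with h4 | h4
    · exact h2 i h4
    · rw [List.mem_singleton.1 h4]
      exact ha
  · rw [ha1, unop, ← sel_map, hs, h3]

theorem fine (hmm : ∀ n, n ≤ mm n) (hfn : ∀ m, Function.Injective (fn m))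
    (hst : ∀ m, Function.Injective (st m)) (J : Set (Idx Λ)) (a : Λ) (hq : q ≤ c.lv a)
    (hJ : ∀ i ∈ J, i < wpt a) (h : Fn (c.L (mm (c.lv a)))) (hh : fn _ h ∈ S.Y J) :
    h ∈ S.W hmm a := by
  obtain ⟨hW1, hW2⟩ := S.W_spec hmm a hq
  obtain ⟨a0, F, h1, h2, h3⟩ := hh
  obtain ⟨b0, hb0⟩ := S.id
  obtain ⟨b1, hb1⟩ := S.un (.msk (List.replicate (F.map S.γ).length false ++ [true])) b0
  obtain ⟨a1, ha1⟩ := S.un .dl a0
  obtain ⟨d, hd⟩ := S.bi (.inq (mm (c.lv a))) a1 b1
  have hd' : ∀ x, S.ev d (F.map S.γ ++ [x]) = [] ↔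
      ∃ (h' : Fn (c.L (mm (c.lv a)))) (Q : Set (Fn (c.L (mm (c.lv a))))),
        [fn _ h] = [fn _ h'] ∧ [x] = [st _ Q] ∧ h' ∈ Q := by
    intro x
    rw [hd, biop, tv_iff, hb1, unop, hb0, sel_single, ha1, unop, List.dropLast_concat, h3]
  have h4 := (S.gen_wpt d hq F fun i hi => hJ i (h2 i hi)).2 (by
    filter_upwards [c.wm_fine _ _ (hmm (c.lv a)) h] with Q hQ
    exact (hd' _).2 ⟨h, Q, rfl, rfl, hQ⟩)
  obtain ⟨h', Q, e1, e2, e3⟩ := (hd' _).1 h4
  simp only [List.cons.injEq, and_true] at e1 e2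
  rw [hW2] at e2
  rw [hfn _ e1, hst _ e2]
  exact e3

/-- decoding lists of ordinals -/
theorem decode (hord : Function.Injective ord) {m : ℕ} {r r' : List (Iio (c.L m))}
    (h : r.map (fun i => ord i.1) = r'.map fun i => ord i.1) : r = r' := by
  have h1 : Function.Injective fun i : Iio (c.L m) => ord i.1 := fun i j hij =>
    Subtype.ext (hord hij)
  exact List.map_injective_iff.2 h1 h

/-- the `U`-points as a list -/
theorem map_upt (a : Λ) (m : ℕ) (hq : q ≤ c.lv a) (E : List Λ)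
    (hE : ∀ i ∈ E, a ≤ i ∧ i < c.L m) :
    (E.map upt).map S.γ = (E.map fun i => c.clamp m (S.U i)).map fun i => ord i.1 := by
  rw [List.map_map, List.map_map]
  refine List.map_congr_left fun i hi => ?_
  obtain ⟨h1, h2⟩ := hE i hi
  obtain ⟨h3, h4⟩ := S.U_spec i (hq.trans (c.lv_mono h1))
  have h5 : S.U i < c.L m := h3.trans_le (c.mono.monotone (c.lv_le_iff.2 h2))
  simp only [Function.comp_apply]
  rw [h4, c.clamp_of_lt h5]

theorem upt_pairwise {E : List Λ} (hE : E.Pairwise (· < ·)) : (E.map upt).Pairwise (· < ·) := by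
  rw [List.pairwise_map]
  exact hE.imp fun h => upt_lt h

theorem repr (hmm : ∀ n, n ≤ mm n) (hord : Function.Injective ord) (J : Set (Idx Λ)) (a : Λ)
    (I : Set Λ) (hq : q ≤ c.lv a) (hJ : ∀ i ∈ J, i < wpt a)
    (hI : ∀ i ∈ I, a ≤ i ∧ i < c.L (mm (c.lv a))) (v : Λ) (hv : v < c.L (mm (c.lv a)))
    (h : ord v ∈ S.Y (J ∪ upt '' I)) :
    ∃ f : Fn (c.L (mm (c.lv a))), fn _ f ∈ S.Y J ∧ ∃ E : List Λ, E.Pairwise (· < ·) ∧
      (∀ i ∈ E, i ∈ I) ∧ (f (E.map fun i => c.clamp (mm (c.lv a)) (S.U i))).1 = v := by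
  obtain ⟨a0, F, h1, h2, h3⟩ := h
  obtain ⟨F1, F2, hF, hF1, hF2⟩ := exists_split F h1 (wpt a)
  subst hF
  obtain ⟨p1, p2, p3⟩ := List.pairwise_append.1 h1
  have h4 : ∀ i ∈ F1, i ∈ J := by
    intro i hi
    rcases h2 i (by simp [hi]) with h4 | h4
    · exact h4
    · obtain ⟨j, hj, rfl⟩ := h4
      exfalso
      have h5 : wpt a < upt j := by
        rcases (hI j hj).1.lt_or_eq with h6 | h6
        · rw [Prod.Lex.lt_iff]
          exact Or.inl h6
        · rw [← h6]
          exact wpt_lt_upt a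
      exact absurd (hF1 _ hi) (not_lt.2 h5.le)
  have h5 : ∀ i ∈ F2, ∃ j ∈ I, upt j = i := by
    intro i hi
    rcases h2 i (by simp [hi]) with h5 | h5
    · exact absurd (hJ i h5) (not_lt.2 (hF2 i hi))
    · exact h5
  obtain ⟨E, hE, hEI⟩ : ∃ E : List Λ, F2 = E.map upt ∧ ∀ i ∈ E, i ∈ I := by
    clear h1 h2 h3 p3 hF2 p2
    induction F2 with
    | nil => exact ⟨[], rfl, by simp⟩
    | cons i F2 ih =>
      obtain ⟨E, hE, hEI⟩ := ih fun j hj => h5 j (by simp [hj])
      obtain ⟨j, hj, hji⟩ := h5 i (by simp)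
      refine ⟨j :: E, by rw [List.map_cons, hji, hE], fun k hk => ?_⟩
      rcases List.mem_cons.1 hk with hk | hk
      · rw [hk]
        exact hj
      · exact hEI k hk
  subst hE
  have hEs : E.Pairwise (· < ·) := by
    rw [List.pairwise_map] at p2
    refine p2.imp_of_mem fun {i j} hi hj hij => ?_
    rcases Prod.Lex.lt_iff.1 hij with h6 | h6
    · exact h6
    · exact absurd h6.2 (by simp [upt])
  obtain ⟨b, hb⟩ := S.un (.tr (mm (c.lv a))) a0
  refine ⟨trc c ord (mm (c.lv a)) fun r => S.ev a0 (F1.map S.γ ++ r), ⟨b, F1, p1, h4, ?_⟩, E, hEs,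
    hEI, ?_⟩
  · rw [hb, unop]
  · rw [trc_eq c ord hord (mm (c.lv a)) _ _ ⟨v, hv⟩]
    rw [← S.map_upt a (mm (c.lv a)) hq E fun i hi => hI i (hEI i hi), ← List.map_append, h3]

theorem Tr_upt (a : Λ) (m : ℕ) (hq : q ≤ c.lv a) (E : List Λ)
    (hE : ∀ i ∈ E, a ≤ i ∧ i < c.L m) (P : List M → Prop) :
    Tr (fun k : Bool × ℕ => ms c mm ord st k.1 k.2)
        ((E.map upt).map fun i => ((ofLex i).2, max q (c.lv (plc i)))) P ↔
      Tr (c.um' m) (E.map c.lv) fun l => P (l.map fun i => ord i.1) := by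
  have h1 : (E.map upt).map (fun i : Idx Λ => ((ofLex i).2, max q (c.lv (plc i)))) =
      (E.map c.lv).map fun n => (true, n) := by
    rw [List.map_map, List.map_map]
    refine List.map_congr_left fun i hi => ?_
    simp only [Function.comp_apply]
    rw [lv_upt (hq.trans (c.lv_mono (hE i hi).1))]
    rfl
  rw [h1, Tr_kmap, ← Tr_map]
  refine Tr_measure_congr _ _ _ (fun n hn => ?_) P
  obtain ⟨i, hi, rfl⟩ := List.mem_map.1 hn
  have h2 : c.lv i ≤ m := c.lv_le_iff.2 (hE i hi).2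
  simp only [ms, Ctx.um', Ultrafilter.map_map]
  congr 1
  funext j
  simp only [Function.comp_apply]
  rw [c.clamp_of_lt (j.2.trans_le (c.mono.monotone h2))]

theorem types_lt (hord : Function.Injective ord) (hfn : ∀ m, Function.Injective (fn m))
    (J : Set (Idx Λ)) (a : Λ) (hq : q ≤ c.lv a) (hJ : ∀ i ∈ J, i < wpt a)
    (f g : Fn (c.L (mm (c.lv a)))) (hf : fn _ f ∈ S.Y J) (hg : fn _ g ∈ S.Y J)
    (E : List Λ) (hEs : E.Pairwise (· < ·)) (hE : ∀ i ∈ E, a ≤ i ∧ i < c.L (mm (c.lv a)))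
    (s t : List Bool) :
    (f (sel s (E.map fun i => c.clamp (mm (c.lv a)) (S.U i))) <
        g (sel t (E.map fun i => c.clamp (mm (c.lv a)) (S.U i))) ↔
      Tr (c.um' (mm (c.lv a))) (E.map c.lv) fun l => f (sel s l) < g (sel t l)) := by
  obtain ⟨a1, F1, f1, f2, f3⟩ := hf
  obtain ⟨b1, G1, g1, g2, g3⟩ := hg
  obtain ⟨F, s', t', hF, hmem, hs, ht⟩ := exists_merge F1 G1 f1 g1
  have hFJ : ∀ i ∈ F, i ∈ J := by
    intro i hi
    rcases (hmem i).1 hi with h | h
    · exact f2 i h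
    · exact g2 i h
  obtain ⟨a2, ha2⟩ := S.un (.msk s') a1
  obtain ⟨b2, hb2⟩ := S.un (.msk t') b1
  have ha3 : S.ev a2 (F.map S.γ) = [fn _ f] := by
    rw [ha2, unop, ← sel_map, hs, f3]
  have hb3 : S.ev b2 (F.map S.γ) = [fn _ g] := by
    rw [hb2, unop, ← sel_map, ht, g3]
  obtain ⟨d, hd⟩ := S.bi (.ltf (mm (c.lv a)) (F.map S.γ).length s t) a2 b2
  have hd' : ∀ r : List (Iio (c.L (mm (c.lv a)))),
      S.ev d (F.map S.γ ++ r.map fun i => ord i.1) = [] ↔ f (sel s r) < g (sel t r) := by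
    intro r
    rw [hd, biop, tv_iff, List.take_left, List.drop_left, ha3, hb3]
    constructor
    · rintro ⟨f', g', r', e1, e2, e3, e4⟩
      simp only [List.cons.injEq, and_true] at e1 e2
      rw [hfn _ e1, hfn _ e2, decode hord e3]
      exact e4
    · intro h
      exact ⟨f, g, r, rfl, rfl, rfl, h⟩
  have h1 := S.typ d F (E.map upt) (upt_pairwise hEs) (by
    intro j hj i hi
    obtain ⟨k, hk, rfl⟩ := List.mem_map.1 hi
    refine (hJ j (hFJ j hj)).trans ?_
    rcases (hE k hk).1.lt_or_eq with h6 | h6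
    · rw [Prod.Lex.lt_iff]
      exact Or.inl h6
    · rw [← h6]
      exact wpt_lt_upt a)
  rw [S.map_upt a (mm (c.lv a)) hq E hE, hd', Tr_upt a (mm (c.lv a)) hq E hE] at h1
  rw [h1]
  simp only [hd']

theorem types_mem (hord : Function.Injective ord) (hfn : ∀ m, Function.Injective (fn m))
    (J : Set (Idx Λ)) (a : Λ) (hq : q ≤ c.lv a) (hJ : ∀ i ∈ J, i < wpt a)
    (f : Fn (c.L (mm (c.lv a)))) (hf : fn _ f ∈ S.Y J)
    (E : List Λ) (hEs : E.Pairwise (· < ·)) (hE : ∀ i ∈ E, a ≤ i ∧ i < c.L (mm (c.lv a))) :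
    (f (E.map fun i => c.clamp (mm (c.lv a)) (S.U i)) ∈ c.restr y (mm (c.lv a)) ↔
      Tr (c.um' (mm (c.lv a))) (E.map c.lv) fun l => f l ∈ c.restr y (mm (c.lv a))) := by
  obtain ⟨a1, F, f1, f2, f3⟩ := hf
  obtain ⟨d, hd⟩ := S.un (.memf (mm (c.lv a)) (F.map S.γ).length) a1
  have hd' : ∀ r : List (Iio (c.L (mm (c.lv a)))),
      S.ev d (F.map S.γ ++ r.map fun i => ord i.1) = [] ↔ f r ∈ c.restr y (mm (c.lv a)) := by
    intro r
    rw [hd, unop, tv_iff, List.take_left, List.drop_left, f3]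
    constructor
    · rintro ⟨f', r', e1, e3, e4⟩
      simp only [List.cons.injEq, and_true] at e1
      rw [hfn _ e1, decode hord e3]
      exact e4
    · intro h
      exact ⟨f, r, rfl, rfl, h⟩
  have h1 := S.typ d F (E.map upt) (upt_pairwise hEs) (by
    intro j hj i hi
    obtain ⟨k, hk, rfl⟩ := List.mem_map.1 hi
    refine (hJ j (f2 j hj)).trans ?_
    rcases (hE k hk).1.lt_or_eq with h6 | h6
    · rw [Prod.Lex.lt_iff]
      exact Or.inl h6
    · rw [← h6]
      exact wpt_lt_upt a)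
  rw [S.map_upt a (mm (c.lv a)) hq E hE, hd', Tr_upt a (mm (c.lv a)) hq E hE] at h1
  rw [h1]
  simp only [hd']

end Sys

end

end HullC

/-- existence of systems of hulls -/
theorem exists_hull (c : Ctx Λ) (q : ℕ) (mm : ℕ → ℕ) (hmm : ∀ n, n ≤ mm n) (y : Set Λ)
    {M : Type v} (ord : Λ → M) (fn : ∀ m, Fn (c.L m) → M) (st : ∀ m, Set (Fn (c.L m)) → M)
    (hord : Function.Injective ord) (hfn : ∀ m, Function.Injective (fn m))
    (hst : ∀ m, Function.Injective (st m)) {O : Type u} (ops : O → List M → M)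
    (hO : #O < c.κ q) : Nonempty (Hull c q mm y ord fn st ops) := by
  obtain ⟨S⟩ := HullC.exists_sys c mm y ord fn st q hmm ops hO
  exact ⟨{
    γ := S.γ
    Y := S.Y
    mono := fun h => S.Y_mono h
    op_mem := S.op_mem
    pt_mem := fun J i hi _ => S.pt_mem J i hi
    U := S.U
    U_lt := fun i hi => (S.U_spec i hi).1
    U_eq := fun i hi => (S.U_spec i hi).2
    U_mono := S.U_mono hord
    W := S.W hmm
    W_eq := fun i hi => (S.W_spec hmm i hi).2
    W_small := fun i hi => (S.W_spec hmm i hi).1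
    elim := S.elim hmm
    normal := S.normal hmm hfn hst
    fine := S.fine hmm hfn hst
    repr := S.repr hmm hord
    types_lt := S.types_lt hord hfn
    types_mem := S.types_mem hord hfn }⟩

end Pool.Agent.Lib.MP_62560c_lc
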