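import Pool.Agent.Lib.MP_62560c_lc.Merge

/-!
Module F2: comparison of two systems of values of the same functions at points of the same types.
-/

set_option autoImplicit false

open Cardinal Set

universe u

namespace Pool.Agent.Lib.MP_62560c_lc

variable {Λ : Type u} [LinearOrder Λ] [WellFoundedLT Λ]

/-- comparison of the two systems -/
theorem match_iso (c : Ctx Λ) {n m : ℕ} (Q : Set (Fn (c.L m))) (z : Set (Iio (c.L m)))
    (δ : Iio (c.L m) → Iio (c.L m)) (hδ : c.IsPlain n m Q z δ) (R : Set (Iio (c.L m)))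
    (e : Iio (c.L m) ≃o R) (T T' : Set (Iio (c.L m))) (F0 : Set (Fn (c.L m))) (hF0 : F0 ⊆ Q)
    (I : Set Λ) (pt : Λ → Iio (c.L m))
    (hrep : ∀ ξ ∈ T', ∃ f ∈ F0, ∃ F : List (Iio (c.L m)), F.Pairwise (· < ·) ∧
      (∀ i ∈ F, i ∈ T' ∧ n ≤ c.lv i.1) ∧ f (F.map δ) = (e ξ).1)
    (hback : ∀ f ∈ F0, ∀ F : List (Iio (c.L m)), F.Pairwise (· < ·) →
      (∀ i ∈ F, i ∈ T' ∧ n ≤ c.lv i.1) → ∃ ξ ∈ T', (e ξ).1 = f (F.map δ))
    (θ : {i : Iio (c.L m) | i ∈ T' ∧ n ≤ c.lv i.1} ≃o I)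
    (hθ : ∀ i, c.lv (θ i).1 = c.lv i.1.1)
    (hT : ∀ v, v ∈ T ↔ ∃ f ∈ F0, ∃ E : List Λ, E.Pairwise (· < ·) ∧ (∀ i ∈ E, i ∈ I) ∧
      f (E.map pt) = v)
    (htl : ∀ f ∈ F0, ∀ g ∈ F0, ∀ E : List Λ, E.Pairwise (· < ·) → (∀ i ∈ E, i ∈ I) →
      ∀ s t : List Bool, (f (sel s (E.map pt)) < g (sel t (E.map pt)) ↔
        Tr (c.um' m) (E.map c.lv) fun l => f (sel s l) < g (sel t l)))
    (htm : ∀ f ∈ F0, ∀ E : List Λ, E.Pairwise (· < ·) → (∀ i ∈ E, i ∈ I) →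
      (f (E.map pt) ∈ z ↔ Tr (c.um' m) (E.map c.lv) fun l => f l ∈ z)) :
    ∃ Θ : T' ≃o T, ∀ ξ : T', ((e ξ.1).1 ∈ z ↔ (Θ ξ).1 ∈ z) := by
  classical
  -- lists of indices
  have hlist : ∀ F : List (Iio (c.L m)), (∀ i ∈ F, i ∈ T' ∧ n ≤ c.lv i.1) →
      ∃ F' : List {i : Iio (c.L m) | i ∈ T' ∧ n ≤ c.lv i.1}, F'.map Subtype.val = F := by
    intro F hF
    exact ⟨F.attachWith _ hF, List.attachWith_map_subtype_val hF⟩
  have hlist2 : ∀ E : List Λ, (∀ i ∈ E, i ∈ I) →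
      ∃ F' : List {i : Iio (c.L m) | i ∈ T' ∧ n ≤ c.lv i.1},
        F'.map (fun i => (θ i).1) = E := by
    intro E hE
    refine ⟨(E.attachWith _ hE).map θ.symm, ?_⟩
    rw [List.map_map]
    have : ((fun i => (θ i).1) ∘ θ.symm : I → Λ) = Subtype.val := by
      funext i
      simp
    rw [this]
    exact List.attachWith_map_subtype_val hE
  -- properties of lists
  have hpw1 : ∀ F : List {i : Iio (c.L m) | i ∈ T' ∧ n ≤ c.lv i.1},
      (F.map Subtype.val).Pairwise (· < ·) ↔ F.Pairwise (· < ·) := by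
    intro F
    rw [List.pairwise_map]
    rfl
  have hpw2 : ∀ F : List {i : Iio (c.L m) | i ∈ T' ∧ n ≤ c.lv i.1},
      (F.map (fun i => (θ i).1)).Pairwise (· < ·) ↔ F.Pairwise (· < ·) := by
    intro F
    rw [List.pairwise_map]
    have : (fun a b : {i : Iio (c.L m) | i ∈ T' ∧ n ≤ c.lv i.1} => (θ a).1 < (θ b).1) =
        fun a b => a < b := by
      funext a b
      have := θ.lt_iff_lt (x := a) (y := b)
      exact propext this
    rw [this]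
  have hmem1 : ∀ F : List {i : Iio (c.L m) | i ∈ T' ∧ n ≤ c.lv i.1},
      ∀ i ∈ F.map Subtype.val, n ≤ c.lv i.1 := by
    intro F i hi
    rw [List.mem_map] at hi
    obtain ⟨a, _, rfl⟩ := hi
    exact a.2.2
  have hmem1' : ∀ F : List {i : Iio (c.L m) | i ∈ T' ∧ n ≤ c.lv i.1},
      ∀ i ∈ F.map Subtype.val, i ∈ T' ∧ n ≤ c.lv i.1 := by
    intro F i hi
    rw [List.mem_map] at hi
    obtain ⟨a, _, rfl⟩ := hi
    exact a.2
  have hmem2 : ∀ F : List {i : Iio (c.L m) | i ∈ T' ∧ n ≤ c.lv i.1},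
      ∀ i ∈ F.map (fun i => (θ i).1), i ∈ I := by
    intro F i hi
    rw [List.mem_map] at hi
    obtain ⟨a, _, rfl⟩ := hi
    exact (θ a).2
  have hlev : ∀ F : List {i : Iio (c.L m) | i ∈ T' ∧ n ≤ c.lv i.1},
      (F.map Subtype.val).map (fun i => c.lv i.1) = (F.map (fun i => (θ i).1)).map c.lv := by
    intro F
    rw [List.map_map, List.map_map]
    apply List.map_congr_left
    intro a _
    exact (hθ a).symm
  -- the key comparison
  have key : ∀ f ∈ F0, ∀ g ∈ F0, ∀ F G : List {i : Iio (c.L m) | i ∈ T' ∧ n ≤ c.lv i.1},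
      F.Pairwise (· < ·) → G.Pairwise (· < ·) →
      (f ((F.map Subtype.val).map δ) < g ((G.map Subtype.val).map δ) ↔
        f ((F.map (fun i => (θ i).1)).map pt) < g ((G.map (fun i => (θ i).1)).map pt)) := by
    intro f hf g hg F G hF hG
    obtain ⟨E, s, t, hE, _, hsE, htE⟩ := exists_merge F G hF hG
    have h1 := (hδ (E.map Subtype.val) ((hpw1 E).2 hE) (hmem1 E)).1 f (hF0 hf) g (hF0 hg) s t
    have h2 := htl f hf g hg (E.map (fun i => (θ i).1)) ((hpw2 E).2 hE) (hmem2 E) s t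
    rw [hlev E] at h1
    rw [← sel_map, ← sel_map, ← sel_map, ← sel_map, hsE, htE] at h1 h2
    exact h1.trans h2.symm
  have keyeq : ∀ f ∈ F0, ∀ g ∈ F0, ∀ F G : List {i : Iio (c.L m) | i ∈ T' ∧ n ≤ c.lv i.1},
      F.Pairwise (· < ·) → G.Pairwise (· < ·) →
      f ((F.map Subtype.val).map δ) = g ((G.map Subtype.val).map δ) →
        f ((F.map (fun i => (θ i).1)).map pt) = g ((G.map (fun i => (θ i).1)).map pt) := by
    intro f hf g hg F G hF hG h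
    have h1 := key f hf g hg F G hF hG
    have h2 := key g hg f hf G F hG hF
    rcases lt_trichotomy (f ((F.map (fun i => (θ i).1)).map pt))
      (g ((G.map (fun i => (θ i).1)).map pt)) with h3 | h3 | h3
    · exact absurd (h1.2 h3) (by rw [h]; exact lt_irrefl _)
    · exact h3
    · exact absurd (h2.2 h3) (by rw [h]; exact lt_irrefl _)
  -- choice
  have hch : ∀ ξ : T', ∃ f ∈ F0, ∃ F : List {i : Iio (c.L m) | i ∈ T' ∧ n ≤ c.lv i.1},
      F.Pairwise (· < ·) ∧ f ((F.map Subtype.val).map δ) = (e ξ.1).1 := by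
    intro ξ
    obtain ⟨f, hf, F, hF, hFm, hfe⟩ := hrep ξ.1 ξ.2
    obtain ⟨F', rfl⟩ := hlist F hFm
    exact ⟨f, hf, F', (hpw1 F').1 hF, hfe⟩
  choose f hf F hF hfe using hch
  have hin : ∀ ξ : T', f ξ (((F ξ).map (fun i => (θ i).1)).map pt) ∈ T := by
    intro ξ
    rw [hT]
    exact ⟨f ξ, hf ξ, (F ξ).map (fun i => (θ i).1), (hpw2 _).2 (hF ξ), hmem2 _, rfl⟩
  let Θ0 : T' → T := fun ξ => ⟨f ξ (((F ξ).map (fun i => (θ i).1)).map pt), hin ξ⟩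
  have hmono : StrictMono Θ0 := by
    intro ξ ξ' hlt
    have h1 : (e ξ.1).1 < (e ξ'.1).1 := by
      have := (e.lt_iff_lt (x := ξ.1) (y := ξ'.1)).2 hlt
      exact this
    rw [← hfe ξ, ← hfe ξ'] at h1
    exact (key (f ξ) (hf ξ) (f ξ') (hf ξ') (F ξ) (F ξ') (hF ξ) (hF ξ')).1 h1
  have hsurj : Function.Surjective Θ0 := by
    rintro ⟨v, hv⟩
    obtain ⟨g, hg, E, hE, hEI, rfl⟩ := (hT v).1 hv
    obtain ⟨G, rfl⟩ := hlist2 E hEI
    have hG := (hpw2 G).1 hE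
    obtain ⟨ξ, hξ, hξe⟩ := hback g hg (G.map Subtype.val) ((hpw1 G).2 hG) (hmem1' G)
    refine ⟨⟨ξ, hξ⟩, ?_⟩
    apply Subtype.ext
    exact keyeq _ (hf ⟨ξ, hξ⟩) g hg _ G (hF ⟨ξ, hξ⟩) hG ((hfe ⟨ξ, hξ⟩).trans hξe)
  refine ⟨hmono.orderIsoOfSurjective Θ0 hsurj, ?_⟩
  intro ξ
  have h1 := (hδ ((F ξ).map Subtype.val) ((hpw1 _).2 (hF ξ)) (hmem1 _)).2 (f ξ) (hF0 (hf ξ))
  have h2 := htm (f ξ) (hf ξ) ((F ξ).map (fun i => (θ i).1)) ((hpw2 _).2 (hF ξ)) (hmem2 _)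
  rw [hlev (F ξ), hfe ξ] at h1
  exact h1.trans h2.symm

end Pool.Agent.Lib.MP_62560c_lc
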