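import Pool.Agent.Lib.MP_62560c_lc.Generic
import Pool.Agent.Lib.MP_62560c_lc.Closure
import Pool.Agent.Lib.MP_62560c_lc.Order
import Pool.Agent.Lib.MP_62560c_lc.Meas

/-!
Module D: plain sequences over a small set `Q` of finitary functions.
-/

set_option autoImplicit false
set_option linter.unusedSectionVars false

open Cardinal Set

universe u v

namespace Pool.Agent.Lib.MP_62560c_lc

variable {Λ : Type u} [LinearOrder Λ] [WellFoundedLT Λ]

private theorem um_complete_aux (c : Ctx Λ) (m j : ℕ) : Complete (c.κ j) (c.um' m j) :=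
  Complete.map' (c.um_complete j) _

private theorem mk_list_lt {α : Type u} {κ : Cardinal.{u}} (hκ : ℵ₀ < κ) (h : #α < κ) :
    #(List α) < κ := (mk_list_le_max α).trans_lt (max_lt hκ h)

private theorem lift_lt_of_le_aleph0 {a : Cardinal.{v}} {κ : Cardinal.{max u v}} (hκ : ℵ₀ < κ)
    (h : a ≤ ℵ₀) : lift.{u} a < κ :=
  (lift_le_aleph0.2 h).trans_lt hκ

/-- existence of plain sequences -/
theorem exists_plain (c : Ctx Λ) {n m : ℕ} (hnm : n ≤ m) (Q : Set (Fn (c.L m)))
    (hQ : #Q < c.κ n) (z : Set (Iio (c.L m))) : ∃ δ, c.IsPlain n m Q z δ := by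
  classical
  obtain ⟨C, ev, hC, hz, hun, -⟩ := exists_closure (S := List (Iio (c.L m)) → Prop)
    (Z := (Q × Q × List Bool × List Bool) ⊕ Q) (Un := ULift.{u} ℕ) (Bi := PEmpty.{u + 1})
    (fun a => Sum.elim (fun p l => p.1.1 (sel p.2.2.1 l) < p.2.1.1 (sel p.2.2.2 l))
      (fun f l => f.1 l ∈ z) a)
    (fun j P l => ∀ᶠ b in (c.um' m j.down : Filter _), P (l ++ [b]))
    (fun g => g.elim)
  have hunc : ∀ j, ℵ₀ < c.κ j := c.aleph0_lt
  have hcC : #C < c.κ n := by
    refine hC.trans_lt (max_lt (hunc n) ?_)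
    have hinf : ℵ₀ ≤ c.κ n := (hunc n).le
    refine add_lt_of_lt hinf (add_lt_of_lt hinf ?_ ?_) ?_
    · rw [mk_sum, lift_id, lift_id]
      refine add_lt_of_lt hinf ?_ hQ
      rw [mk_prod, lift_id, lift_id]
      refine mul_lt_of_lt hinf hQ ?_
      rw [mk_prod, lift_uzero]
      exact mul_lt_of_lt hinf hQ (lift_lt_of_le_aleph0 (hunc n) mk_le_aleph0)
    · rw [mk_uLift]
      exact lift_lt_of_le_aleph0 (hunc n) mk_le_aleph0
    · rw [mk_pempty]
      exact aleph0_pos.trans (hunc n)
  let J : Type u := {i : Iio (c.L m) // n ≤ c.lv i.1}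
  let kind : J → ℕ := fun i => c.lv i.1.1
  let μ : ULift.{u} ℕ → Ultrafilter (Iio (c.L m)) := fun j => c.um' m j.down
  let kind' : J → ULift.{u} ℕ := fun i => ⟨kind i⟩
  obtain ⟨γ, hγ⟩ := exists_generic (J := J) μ kind' ev (fun i => c.κ (kind i))
    (fun i => um_complete_aux c m _) (by
      intro i
      have hinf : ℵ₀ ≤ c.κ (kind i) := (hunc _).le
      refine mul_lt_of_lt hinf (hcC.trans_le (c.κ_mono i.2)) (mk_list_lt (hunc _) ?_)
      have h1 : #(Iio i.1.1) < c.κ (kind i) := c.init _ _ (c.lt_L_lv _)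
      refine lt_of_le_of_lt ?_ h1
      exact mk_le_of_injective (f := fun j : Iio i => (⟨j.1.1.1, j.2⟩ : Iio i.1.1))
        fun j j' h => by
          have h' : j.1.1.1 = j'.1.1.1 := Subtype.mk.inj h
          exact Subtype.ext (Subtype.ext (Subtype.ext h')))
  let δ : Iio (c.L m) → Iio (c.L m) := fun i => if h : n ≤ c.lv i.1 then γ ⟨i, h⟩ else i
  have hδ : ∀ i : J, δ i.1 = γ i := by
    intro i
    simp only [δ]
    rw [dif_pos i.2]
  have key : ∀ (a : C) (E : List (Iio (c.L m))), E.Pairwise (· < ·) →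
      (∀ i ∈ E, n ≤ c.lv i.1) →
      (ev a (E.map δ) ↔ Tr (c.um' m) (E.map fun i => c.lv i.1) (ev a)) := by
    intro a E hE hE'
    lift E to List J using hE'
    have h1 : E.Pairwise (· < ·) := by
      rw [List.pairwise_map] at hE
      exact hE
    have h2 := generic_type μ kind' ev (fun a i => hun (kind' i) a |>.imp
      fun a' ha' l => by rw [ha']) γ hγ a [] E h1 (by simp)
    have h3 : (E.map Subtype.val).map δ = E.map γ := by
      rw [List.map_map]
      exact List.map_congr_left fun i _ => hδ i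
    have h4 : (E.map Subtype.val).map (fun i : Iio (c.L m) => c.lv i.1) =
        E.map kind := by
      rw [List.map_map]
      rfl
    have h5 : Tr μ (E.map kind') (ev a) ↔ Tr (c.um' m) (E.map kind) (ev a) := by
      have h6 : E.map kind' = (E.map kind).map ULift.up := by
        rw [List.map_map]
        rfl
      rw [h6]
      exact Tr_kmap μ ULift.up (E.map kind) (ev a)
    rw [h3, h4, ← h5]
    simpa using h2
  refine ⟨δ, fun E hE hE' => ⟨?_, ?_⟩⟩
  · intro f hf g hg s t
    obtain ⟨a, ha⟩ := hz (Sum.inl (⟨f, hf⟩, ⟨g, hg⟩, s, t))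
    have := key a E hE hE'
    rw [ha] at this
    exact this
  · intro f hf
    obtain ⟨a, ha⟩ := hz (Sum.inr ⟨f, hf⟩)
    have := key a E hE hE'
    rw [ha] at this
    exact this

/-- plain sequences are increasing, if some function in `Q` is the first-entry function -/
theorem IsPlain.strictMono (c : Ctx Λ) {n m : ℕ} (hnm : n ≤ m) {Q : Set (Fn (c.L m))}
    {z : Set (Iio (c.L m))} {δ : Iio (c.L m) → Iio (c.L m)} (h : c.IsPlain n m Q z δ)
    (hhead : ∃ f ∈ Q, ∀ a l, f (a :: l) = a) {i i' : Iio (c.L m)} (hi : n ≤ c.lv i.1)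
    (hlt : i < i') : δ i < δ i' := by
  obtain ⟨f, hf, hfh⟩ := hhead
  have hlv : c.lv i.1 ≤ c.lv i'.1 := c.lv_mono (le_of_lt hlt)
  have h1 := (h [i, i'] (by simpa using hlt) (by
    intro j hj
    simp only [List.mem_cons, List.not_mem_nil, or_false] at hj
    rcases hj with rfl | rfl
    · exact hi
    · exact hi.trans hlv)).1 f hf f hf [true] [false, true]
  have h2 : Tr (c.um' m) [c.lv i.1, c.lv i'.1]
      fun l => f (sel [true] l) < f (sel [false, true] l) := by
    show ∀ᶠ a in (c.um' m (c.lv i.1) : Filter _), ∀ᶠ b in (c.um' m (c.lv i'.1) : Filter _),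
      f [a] < f [b]
    have h3 : ∀ᶠ a : Iio (c.L m) in (c.um' m (c.lv i.1) : Filter (Iio (c.L m))),
        a.1 < c.L (c.lv i'.1) := by
      show {a | a.1 < c.L (c.lv i'.1)} ∈ c.um' m (c.lv i.1)
      unfold Ctx.um'
      rw [Ultrafilter.mem_map]
      refine Filter.mem_of_superset Filter.univ_mem fun a _ => ?_
      have ha : a.1 < c.L m :=
        lt_of_lt_of_le a.2 (c.mono.monotone (c.lv_le_iff.2 i.2))
      rw [mem_preimage, mem_ofPred_eq, c.clamp_of_lt ha]
      exact lt_of_lt_of_le a.2 (c.mono.monotone hlv)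
    filter_upwards [h3] with a ha
    show {b | f [a] < f [b]} ∈ c.um' m (c.lv i'.1)
    unfold Ctx.um'
    rw [Ultrafilter.mem_map]
    have hsm : #{b : Iio (c.L (c.lv i'.1)) | b.1 ≤ a.1} < c.κ (c.lv i'.1) := by
      have h4 : #(Iio a.1) < c.κ (c.lv i'.1) := c.init _ _ ha
      have h5 : #(Iic a.1) ≤ #(Iio a.1) + 1 := by
        rw [← Iio_insert]
        exact mk_insert_le
      have h6 : #(Iic a.1) < c.κ (c.lv i'.1) :=
        h5.trans_lt (add_lt_of_lt (c.aleph0_lt _).le h4 (one_lt_aleph0.trans (c.aleph0_lt _)))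
      refine lt_of_le_of_lt ?_ h6
      exact mk_le_of_injective
        (f := fun b : {b : Iio (c.L (c.lv i'.1)) | b.1 ≤ a.1} => (⟨b.1.1, b.2⟩ : Iic a.1))
        fun b b' hb => Subtype.ext (Subtype.ext (Subtype.mk.inj hb))
    filter_upwards [small_null (c.um_complete _) (c.um_nonprin _) _ hsm] with b hb
    have hb1 : b.1 < c.L m := lt_of_lt_of_le b.2 (c.mono.monotone (c.lv_le_iff.2 i'.2))
    rw [mem_preimage, mem_ofPred_eq, hfh, hfh, c.clamp_of_lt hb1]
    exact not_le.1 hb
  have h3 := h1.2 h2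
  have h4 : f (sel [true] ([i, i'].map δ)) = δ i := hfh _ _
  have h5 : f (sel [false, true] ([i, i'].map δ)) = δ i' := hfh _ _
  rw [h4, h5] at h3
  exact h3

/-- then the range has the order type of `Iio (L m)` -/
theorem IsPlain.range_iso (c : Ctx Λ) {n m : ℕ} (hnm : n ≤ m) {Q : Set (Fn (c.L m))}
    {z : Set (Iio (c.L m))} {δ : Iio (c.L m) → Iio (c.L m)} (h : c.IsPlain n m Q z δ)
    (hhead : ∃ f ∈ Q, ∀ a l, f (a :: l) = a) :
    Nonempty (Iio (c.L m) ≃o c.plainRange n m Q δ) := by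
  have hinj : ∀ i i' : Iio (c.L m), n ≤ c.lv i.1 → n ≤ c.lv i'.1 → δ i = δ i' → i = i' := by
    intro i i' hi hi' heq
    rcases lt_trichotomy i i' with hlt | rfl | hlt
    · exact absurd heq (IsPlain.strictMono c hnm h hhead hi hlt).ne
    · rfl
    · exact absurd heq.symm (IsPlain.strictMono c hnm h hhead hi' hlt).ne
  obtain ⟨f, hf, hfh⟩ := hhead
  have h1 : #(c.plainRange n m Q δ) = c.κ m := by
    apply le_antisymm (mk_set_le _)
    have h2 : #{i : Iio (c.L m) | n ≤ c.lv i.1} ≤ #(c.plainRange n m Q δ) := by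
      refine mk_le_of_injective (f := fun i => ⟨δ i.1, f, hf, [i.1], ?_, ?_, ?_⟩) ?_
      · exact List.pairwise_singleton _ _
      · intro j hj
        rw [List.mem_singleton] at hj
        rw [hj]
        exact i.2
      · exact hfh _ _
      · intro i i' heq
        exact Subtype.ext (hinj _ _ i.2 i'.2 (congrArg Subtype.val heq))
    refine le_trans ?_ h2
    by_contra hlt
    push Not at hlt
    have h3 : #({i : Iio (c.L m) | n ≤ c.lv i.1}ᶜ : Set _) < c.κ m := by
      rcases Nat.eq_zero_or_pos n with rfl | hn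
      · have : ({i : Iio (c.L m) | 0 ≤ c.lv i.1}ᶜ : Set _) = ∅ := by
          ext i
          simp
        rw [this, mk_eq_zero]
        exact aleph0_pos.trans (c.aleph0_lt m)
      · refine lt_of_le_of_lt ?_ (c.κ_strictMono (show n - 1 < m by omega))
        refine mk_le_of_injective
          (f := fun i : ({i : Iio (c.L m) | n ≤ c.lv i.1}ᶜ : Set _) =>
            (⟨i.1.1, c.lv_le_iff.1 (by
              have := i.2
              simp only [mem_compl_iff, mem_ofPred_eq, not_le] at this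
              omega)⟩ : Iio (c.L (n - 1)))) ?_
        intro i i' heq
        exact Subtype.ext (Subtype.ext (Subtype.mk.inj heq))
    have h4 : c.κ m ≤ #{i : Iio (c.L m) | n ≤ c.lv i.1} +
        #({i : Iio (c.L m) | n ≤ c.lv i.1}ᶜ : Set _) := by
      rw [mk_sum_compl]
      exact le_rfl
    exact absurd h4 (not_le.2 (add_lt_of_lt (c.aleph0_lt _).le hlt h3))
  have h2 : #(univ : Set (Iio (c.L m))) = c.κ m := mk_univ
  obtain ⟨e⟩ := orderIso_of_card c m _ _ h2 h1
  exact ⟨OrderIso.Set.univ.symm.trans e⟩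

end Pool.Agent.Lib.MP_62560c_lc
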