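import Pool.Agent.Lib.MP_62560c_lc.HullEx
import Pool.Agent.Lib.MP_62560c_lc.Plain
import Pool.Agent.Lib.MP_62560c_lc.Match

/-!
Module F: the key argument: different patterns give different collapses.
-/

set_option autoImplicit false

open Cardinal Set

universe u v

namespace Pool.Agent.Lib.MP_62560c_lc

variable {Λ : Type u} [LinearOrder Λ] [WellFoundedLT Λ]

namespace KeyAux

/-! ### well-orders -/

theorem Iio_iso_unique {α : Type*} [LinearOrder α] [WellFoundedLT α] {a b : α}
    (f : Iio a ≃o Iio b) : a = b := by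
  have key : ∀ {a b : α}, (Iio b ≃o Iio a) → ¬ a < b := by
    intro a b g hab
    have hmono : StrictMono (fun i : Iio b => (⟨(g i).1, (g i).2.trans hab⟩ : Iio b)) := by
      intro i j hij
      exact g.strictMono hij
    have h1 := hmono.le_apply (x := (⟨a, hab⟩ : Iio b))
    have h2 : a ≤ (g ⟨a, hab⟩).1 := h1
    exact absurd (g ⟨a, hab⟩).2 (not_lt.2 h2)
  rcases lt_trichotomy a b with h | h | h
  · exact absurd h (key f.symm)
  · exact h
  · exact absurd h (key f)

/-- the collapse of a set isomorphic to the whole order -/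
theorem mem_colSet_iff {α : Type*} [LinearOrder α] [WellFoundedLT α] {R z : Set α} (e : α ≃o R)
    (η : α) : η ∈ colSet R z ↔ (e η).1 ∈ z := by
  -- the restriction of `e` to the initial segments
  have seg : ∀ η : α, Nonempty (Iio η ≃o ↥(R ∩ Iio (e η).1)) := by
    intro η
    refine ⟨⟨⟨fun i => ⟨(e i.1).1, (e i.1).2, ?_⟩, fun j => ⟨e.symm ⟨j.1, j.2.1⟩, ?_⟩, ?_, ?_⟩, ?_⟩⟩
    · exact e.strictMono i.2
    · have : (⟨j.1, j.2.1⟩ : R) < e η := j.2.2
      exact (e.symm_apply_lt).2 this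
    · intro i
      apply Subtype.ext
      simp
    · intro j
      apply Subtype.ext
      simp
    · intro i j
      change (e i.1).1 ≤ (e j.1).1 ↔ i.1 ≤ j.1
      exact e.le_iff_le
  constructor
  · rintro ⟨ξ, ⟨hξz, hξR⟩, ⟨f⟩⟩
    obtain ⟨g⟩ := seg (e.symm ⟨ξ, hξR⟩)
    have e1 : (e (e.symm ⟨ξ, hξR⟩)).1 = ξ := by rw [e.apply_symm_apply]
    rw [e1] at g
    have h := Iio_iso_unique (f.trans g.symm)
    rw [h, e1]
    exact hξz
  · intro h
    obtain ⟨g⟩ := seg η
    exact ⟨(e η).1, ⟨h, (e η).2⟩, ⟨g⟩⟩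

/-! ### the operations -/

section ops

variable {M : Type v} (c : Ctx Λ) (y : Set Λ) (mm : ℕ → ℕ) (hmm : ∀ n, n ≤ mm n) (ord : Λ → M)
  (fn : ∀ m, Fn (c.L m) → M) (st : ∀ m, Set (Fn (c.L m)) → M)

/-- the chosen plain sequence over `Q` -/
noncomputable def pl (n : ℕ) (Q : Set (Fn (c.L (mm n)))) :
    Iio (c.L (mm n)) → Iio (c.L (mm n)) :=
  haveI := Classical.propDecidable (#Q < c.κ n)
  if h : #Q < c.κ n then (exists_plain c (hmm n) Q h (c.restr y (mm n))).choose else id

theorem pl_spec (n : ℕ) (Q : Set (Fn (c.L (mm n)))) (h : #Q < c.κ n) :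
    c.IsPlain n (mm n) Q (c.restr y (mm n)) (pl c y mm hmm n Q) := by
  unfold pl
  rw [dif_pos h]
  exact (exists_plain c (hmm n) Q h (c.restr y (mm n))).choose_spec

/-- the chosen enumeration of the range -/
noncomputable def eo (n : ℕ) (Q : Set (Fn (c.L (mm n)))) (ξ : Iio (c.L (mm n))) :
    Iio (c.L (mm n)) :=
  haveI := Classical.propDecidable
    (Nonempty (Iio (c.L (mm n)) ≃o c.plainRange n (mm n) Q (pl c y mm hmm n Q)))
  if h : Nonempty (Iio (c.L (mm n)) ≃o c.plainRange n (mm n) Q (pl c y mm hmm n Q)) then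
    (h.some ξ).1 else ξ

theorem eo_eq (n : ℕ) (Q : Set (Fn (c.L (mm n))))
    (h : Nonempty (Iio (c.L (mm n)) ≃o c.plainRange n (mm n) Q (pl c y mm hmm n Q)))
    (ξ : Iio (c.L (mm n))) : eo c y mm hmm n Q ξ = (h.some ξ).1 := by
  unfold eo
  rw [dif_pos h]

/-- what a representation has to satisfy -/
def IsRep (n : ℕ) (Q : Set (Fn (c.L (mm n)))) (ξ : Iio (c.L (mm n)))
    (r : Fn (c.L (mm n)) × List (Iio (c.L (mm n)))) : Prop :=
  r.1 ∈ Q ∧ r.2.Pairwise (· < ·) ∧ (∀ i ∈ r.2, n ≤ c.lv i.1) ∧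
    r.1 (r.2.map (pl c y mm hmm n Q)) = eo c y mm hmm n Q ξ

/-- the chosen representation of the element number `ξ` of the range -/
noncomputable def rep (n : ℕ) (Q : Set (Fn (c.L (mm n)))) (ξ : Iio (c.L (mm n))) :
    Fn (c.L (mm n)) × List (Iio (c.L (mm n))) :=
  haveI := Classical.propDecidable (∃ r, IsRep c y mm hmm n Q ξ r)
  if h : ∃ r, IsRep c y mm hmm n Q ξ r then h.choose else (fun _ => c.clamp _ (c.L 0), [])

theorem rep_spec (n : ℕ) (Q : Set (Fn (c.L (mm n)))) (ξ : Iio (c.L (mm n)))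
    (h : ∃ r, IsRep c y mm hmm n Q ξ r) : IsRep c y mm hmm n Q ξ (rep c y mm hmm n Q ξ) := by
  unfold rep
  rw [dif_pos h]
  exact h.choose_spec

/-- the chosen element where `y` and the generated set differ -/
noncomputable def eta (n : ℕ) (Q : Set (Fn (c.L (mm n)))) : Iio (c.L (mm n)) :=
  haveI := Classical.propDecidable (∃ ξ : Iio (c.L (mm n)),
    ¬ (ξ ∈ c.restr y (mm n) ↔ eo c y mm hmm n Q ξ ∈ c.restr y (mm n)))
  if h : ∃ ξ : Iio (c.L (mm n)),
    ¬ (ξ ∈ c.restr y (mm n) ↔ eo c y mm hmm n Q ξ ∈ c.restr y (mm n)) then h.choose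
  else c.clamp _ (c.L 0)

theorem eta_spec (n : ℕ) (Q : Set (Fn (c.L (mm n)))) (h : ∃ ξ : Iio (c.L (mm n)),
    ¬ (ξ ∈ c.restr y (mm n) ↔ eo c y mm hmm n Q ξ ∈ c.restr y (mm n))) :
    ¬ (eta c y mm hmm n Q ∈ c.restr y (mm n) ↔
      eo c y mm hmm n Q (eta c y mm hmm n Q) ∈ c.restr y (mm n)) := by
  unfold eta
  rw [dif_pos h]
  exact h.choose_spec

/-- the number of an element of the range -/
noncomputable def back (n : ℕ) (Q : Set (Fn (c.L (mm n)))) (v : Iio (c.L (mm n))) :
    Iio (c.L (mm n)) :=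
  haveI := Classical.propDecidable (∃ ξ : Iio (c.L (mm n)), eo c y mm hmm n Q ξ = v)
  if h : ∃ ξ : Iio (c.L (mm n)), eo c y mm hmm n Q ξ = v then h.choose else c.clamp _ (c.L 0)

theorem back_spec (n : ℕ) (Q : Set (Fn (c.L (mm n)))) (v : Iio (c.L (mm n)))
    (h : ∃ ξ : Iio (c.L (mm n)), eo c y mm hmm n Q ξ = v) :
    eo c y mm hmm n Q (back c y mm hmm n Q v) = v := by
  unfold back
  rw [dif_pos h]
  exact h.choose_spec

/-- decoding of ordinals -/
noncomputable def dO (m : ℕ) (v : M) : Iio (c.L m) :=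
  haveI : Nonempty Λ := ⟨c.L 0⟩
  c.clamp m (Function.invFun ord v)

/-- decoding of functions -/
noncomputable def dF (m : ℕ) (v : M) : Fn (c.L m) := Function.invFun (fn m) v

/-- decoding of sets of functions -/
noncomputable def dS (m : ℕ) (v : M) : Set (Fn (c.L m)) := Function.invFun (st m) v

theorem dO_ord (hord : Function.Injective ord) (m : ℕ) (i : Iio (c.L m)) :
    dO c ord m (ord i.1) = i := by
  have : Nonempty Λ := ⟨c.L 0⟩
  unfold dO
  rw [Function.leftInverse_invFun hord i.1, c.clamp_of_lt i.2]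

theorem dF_fn (hfn : ∀ m, Function.Injective (fn m)) (m : ℕ) (f : Fn (c.L m)) :
    dF c fn m (fn m f) = f := Function.leftInverse_invFun (hfn m) f

theorem dS_st (hst : ∀ m, Function.Injective (st m)) (m : ℕ) (Q : Set (Fn (c.L m))) :
    dS c st m (st m Q) = Q := Function.leftInverse_invFun (hst m) Q

/-- the first-entry function -/
noncomputable def headFn (m : ℕ) : Fn (c.L m)
  | [] => c.clamp m (c.L 0)
  | a :: _ => a

/-- the operations used in the key argument -/
noncomputable def opx (n : ℕ) : ℕ → List M → M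
  | 0, [v0, v1] => fn _ (rep c y mm hmm n (dS c st _ v0) (dO c ord _ v1)).1
  | 1, [v0] => ord (eta c y mm hmm n (dS c st _ v0)).1
  | 2, v0 :: v1 :: l => ord (back c y mm hmm n (dS c st _ v0)
      (dF c fn _ v1 ((l.map (dO c ord _)).map (pl c y mm hmm n (dS c st _ v0))))).1
  | 3, _ => fn (mm n) (headFn c (mm n))
  | 4, v0 :: l => ord (dF c fn (mm n) v0 (l.map (dO c ord _))).1
  | j + 5, [v0, v1] => ord ((rep c y mm hmm n (dS c st _ v0) (dO c ord _ v1)).2.getD j
      (c.clamp _ (c.L 0))).1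
  | _, _ => ord (c.L 0)

end ops

/-! ### the key argument -/

/-- removing a bounded part does not change the cardinality -/
theorem card_tail (c : Ctx Λ) (j : ℕ) (P Q : Set Λ) (hP : #↥(P ∩ Iio (c.L j)) = c.κ j) (b : Λ)
    (hb : b < c.L j) (h : ∀ i ∈ P, i < c.L j → b ≤ i → i ∈ Q) :
    #↥(Q ∩ Iio (c.L j)) = c.κ j := by
  apply le_antisymm
  · exact mk_le_mk_of_subset inter_subset_right
  · by_contra hcon
    push Not at hcon
    have h1 : P ∩ Iio (c.L j) ⊆ Iio b ∪ (Q ∩ Iio (c.L j)) := by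
      rintro i ⟨hi, hij⟩
      rcases lt_or_ge i b with hib | hib
      · exact Or.inl hib
      · exact Or.inr ⟨h i hi hij hib, hij⟩
    have h2 : c.κ j ≤ #↥(Iio b) + #↥(Q ∩ Iio (c.L j)) := by
      rw [← hP]
      exact (mk_le_mk_of_subset h1).trans (mk_union_le _ _)
    have h3 : #↥(Iio b) + #↥(Q ∩ Iio (c.L j)) < c.κ j :=
      add_lt_of_lt (c.aleph0_lt j).le (c.init j b hb) hcon
    exact absurd h2 (not_le.2 h3)

theorem key {M : Type v} (c : Ctx Λ) (q : ℕ) (y : Set Λ) (mm : ℕ → ℕ) (hmm : ∀ n, n ≤ mm n)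
    (ord : Λ → M) (fn : ∀ m, Fn (c.L m) → M) (st : ∀ m, Set (Fn (c.L m)) → M)
    (hord : Function.Injective ord) (hfn : ∀ m, Function.Injective (fn m))
    (hst : ∀ m, Function.Injective (st m)) {O : Type u} (ops : O → List M → M)
    (H : Hull c q mm y ord fn st ops)
    (hops : ∀ n j, ∃ o, ops o = opx c y mm hmm ord fn st n j)
    (hy : ∀ n, c.restr y (mm n) ∉ c.Gen n (mm n))
    (a : Λ) (hqa : q ≤ c.lv a) (J J' : Set (Idx Λ)) (hW : wpt a ∈ J')
    (hJ0 : ∀ i, i < wpt a → (i ∈ J ↔ i ∈ J'))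
    (hJ1 : ∀ i ∈ J, c.lv (plc i) ≤ mm (c.lv a) → ¬ i < wpt a →
      i ∈ upt '' {i | a ≤ i ∧ i < c.L (mm (c.lv a))})
    (hJ2 : ∀ i, a ≤ i → i < c.L (mm (c.lv a)) → upt i ∈ J)
    (hS : #↥({i | ord i ∈ H.Y J} ∩ Iio (c.L (mm (c.lv a)))) = c.κ (mm (c.lv a)))
    (hS' : ∀ j, c.lv a ≤ j → j ≤ mm (c.lv a) →
      #↥({i | ord i ∈ H.Y J'} ∩ Iio (c.L j)) = c.κ j) :
    colSet {i | ord i ∈ H.Y J} y ∩ Iio (c.L (mm (c.lv a))) ≠
      colSet {i | ord i ∈ H.Y J'} y ∩ Iio (c.L (mm (c.lv a))) := by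
  intro hcon
  have hnm : c.lv a ≤ mm (c.lv a) := hmm _
  have hQ : #(H.W a) < c.κ (c.lv a) := H.W_small a hqa
  have hstQ : st _ (H.W a) ∈ H.Y J' := by
    rw [← H.W_eq a hqa]
    exact H.pt_mem J' _ hW hqa
  have hopx : ∀ (j : ℕ) (K : Set (Idx Λ)) (l : List M), (∀ v ∈ l, v ∈ H.Y K) →
      opx c y mm hmm ord fn st (c.lv a) j l ∈ H.Y K := by
    intro j K l hl
    obtain ⟨o, ho⟩ := hops (c.lv a) j
    rw [← ho]
    exact H.op_mem K o l hl
  have hhead : ∃ f ∈ H.W a, ∀ b l, f (b :: l) = b := by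
    refine ⟨headFn c _, ?_, fun b l => rfl⟩
    exact H.fine ∅ a hqa (fun i hi => absurd hi (notMem_empty i)) _ (hopx 3 ∅ [] (by simp))
  have hδ := pl_spec c y mm hmm _ _ hQ
  have hiso := IsPlain.range_iso c hnm hδ hhead
  have heo := eo_eq c y mm hmm _ _ hiso
  -- the element where the sets differ
  have hex : ∃ ξ : Iio (c.L (mm (c.lv a))), ¬ (ξ ∈ c.restr y (mm (c.lv a)) ↔
      eo c y mm hmm _ (H.W a) ξ ∈ c.restr y (mm (c.lv a))) := by
    by_contra hall
    push Not at hall
    apply hy (c.lv a)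
    refine ⟨H.W a, c.restr y (mm (c.lv a)), _, hQ, hδ, ?_⟩
    ext ξ
    rw [mem_colSet_iff hiso.some ξ, ← heo ξ]
    exact hall ξ
  have heta := eta_spec c y mm hmm _ _ hex
  have hetaY : ord (eta c y mm hmm _ (H.W a)).1 ∈ H.Y J' := by
    have h1 := hopx 1 J' [st _ (H.W a)] (by simpa using hstQ)
    have h2 : opx c y mm hmm ord fn st (c.lv a) 1 [st _ (H.W a)]
        = ord (eta c y mm hmm _ (dS c st _ (st _ (H.W a)))).1 := rfl
    rw [h2, dS_st c st hst] at h1
    exact h1
  -- the collapses below `L m`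
  have hrr : c.restr (colSet {i | ord i ∈ H.Y J} y) (mm (c.lv a))
      = c.restr (colSet {i | ord i ∈ H.Y J'} y) (mm (c.lv a)) := by
    ext i
    have h1 := Set.ext_iff.1 hcon i.1
    constructor
    · intro h
      exact (h1.1 ⟨h, i.2⟩).1
    · intro h
      exact (h1.2 ⟨h, i.2⟩).1
  rw [colSet_restr c _ _ y hS, colSet_restr c _ _ y (hS' _ hnm le_rfl)] at hrr
  -- the common functions
  set F0 : Set (Fn (c.L (mm (c.lv a)))) :=
    {f | f ∈ H.W a ∧ fn _ f ∈ H.Y {i | i ∈ J' ∧ i < wpt a}} with hF0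
  have hF0Q : F0 ⊆ H.W a := fun f hf => hf.1
  have hlow : ∀ i ∈ {i | i ∈ J' ∧ i < wpt a}, i < wpt a := fun i hi => hi.2
  have hsub' : {i | i ∈ J' ∧ i < wpt a} ⊆ J' := fun i hi => hi.1
  have hsub : {i | i ∈ J' ∧ i < wpt a} ⊆ J := fun i hi => (hJ0 i hi.2).2 hi.1
  -- the order isomorphism of the places
  obtain ⟨θ, hθ⟩ := exists_level_iso c hnm
    {i | ord i ∈ H.Y J' ∧ c.lv a ≤ c.lv i ∧ i < c.L (mm (c.lv a))}
    {i | a ≤ i ∧ i < c.L (mm (c.lv a))}
    (fun i hi => ⟨hi.2.1, c.lv_le_iff.2 hi.2.2⟩)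
    (fun i hi => ⟨c.lv_mono hi.1, c.lv_le_iff.2 hi.2⟩)
    (fun j hj hjm => card_tail c j _ _ (hS' j hj hjm) a
      ((c.lt_L_lv a).trans_le (c.mono.monotone hj))
      (fun i hi hij hai => ⟨hi, c.lv_mono hai, hij.trans_le (c.mono.monotone hjm)⟩))
    (fun j hj hjm => card_tail c j univ _ (by rw [univ_inter]; rfl) a
      ((c.lt_L_lv a).trans_le (c.mono.monotone hj))
      (fun i _ hij hai => ⟨hai, hij.trans_le (c.mono.monotone hjm)⟩))
  let τ : {i : Iio (c.L (mm (c.lv a))) |
      i ∈ c.restr {i | ord i ∈ H.Y J'} (mm (c.lv a)) ∧ c.lv a ≤ c.lv i.1} ≃o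
      {i | ord i ∈ H.Y J' ∧ c.lv a ≤ c.lv i ∧ i < c.L (mm (c.lv a))} :=
    { toFun := fun i => ⟨i.1.1, i.2.1, i.2.2, i.1.2⟩
      invFun := fun i => ⟨⟨i.1, i.2.2.2⟩, i.2.1, i.2.2.1⟩
      left_inv := fun i => rfl
      right_inv := fun i => rfl
      map_rel_iff' := Iff.rfl }
  obtain ⟨Θ, hΘ⟩ := match_iso c (H.W a) (c.restr y (mm (c.lv a)))
    (pl c y mm hmm (c.lv a) (H.W a)) hδ _ hiso.some
    (c.restr {i | ord i ∈ H.Y J} (mm (c.lv a))) (c.restr {i | ord i ∈ H.Y J'} (mm (c.lv a)))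
    F0 hF0Q {i | a ≤ i ∧ i < c.L (mm (c.lv a))}
    (fun i => c.clamp (mm (c.lv a)) (H.U i))
    (by
      -- representations
      intro ξ hξ
      have hr : ∃ r, IsRep c y mm hmm (c.lv a) (H.W a) ξ r := by
        obtain ⟨f, hf, F, hF1, hF2, hF3⟩ := (hiso.some ξ).2
        exact ⟨(f, F), hf, hF1, hF2, by rw [heo ξ]; exact hF3⟩
      obtain ⟨h1, h2, h3, h4⟩ := rep_spec c y mm hmm _ _ _ hr
      have hl : ∀ v ∈ [st _ (H.W a), ord ξ.1], v ∈ H.Y J' := by
        intro v hv
        rcases List.mem_cons.1 hv with rfl | hv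
        · exact hstQ
        · rw [List.mem_singleton.1 hv]
          exact hξ
      refine ⟨(rep c y mm hmm (c.lv a) (H.W a) ξ).1, ⟨h1, ?_⟩,
        (rep c y mm hmm (c.lv a) (H.W a) ξ).2, h2, ?_, ?_⟩
      · apply H.normal J' a hqa hW _ h1
        have h5 := hopx 0 J' _ hl
        have h6 : opx c y mm hmm ord fn st (c.lv a) 0 [st _ (H.W a), ord ξ.1]
            = fn _ (rep c y mm hmm _ (dS c st _ (st _ (H.W a))) (dO c ord _ (ord ξ.1))).1 := rfl
        rw [h6, dS_st c st hst, dO_ord c ord hord] at h5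
        exact h5
      · intro i hi
        refine ⟨?_, h3 i hi⟩
        obtain ⟨j, hj, hji⟩ := List.mem_iff_getElem.1 hi
        have h5 := hopx (j + 5) J' _ hl
        have h6 : opx c y mm hmm ord fn st (c.lv a) (j + 5) [st _ (H.W a), ord ξ.1]
            = ord ((rep c y mm hmm _ (dS c st _ (st _ (H.W a)))
              (dO c ord _ (ord ξ.1))).2.getD j (c.clamp _ (c.L 0))).1 := rfl
        rw [h6, dS_st c st hst, dO_ord c ord hord, List.getD_eq_getElem _ _ hj, hji] at h5
        exact h5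
      · rw [h4, heo])
    (by
      -- backwards
      intro f hf F hF1 hF2
      have hmem : f (F.map (pl c y mm hmm (c.lv a) (H.W a))) ∈
          c.plainRange (c.lv a) (mm (c.lv a)) (H.W a) (pl c y mm hmm (c.lv a) (H.W a)) :=
        ⟨f, hf.1, F, hF1, fun i hi => (hF2 i hi).2, rfl⟩
      have hb : ∃ ξ, eo c y mm hmm (c.lv a) (H.W a) ξ
          = f (F.map (pl c y mm hmm (c.lv a) (H.W a))) := by
        refine ⟨hiso.some.symm ⟨_, hmem⟩, ?_⟩
        rw [heo, OrderIso.apply_symm_apply]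
      have hbs := back_spec c y mm hmm _ _ _ hb
      refine ⟨_, ?_, by rw [← heo]; exact hbs⟩
      have hl : ∀ v ∈ st _ (H.W a) :: fn _ f :: F.map (fun i => ord i.1), v ∈ H.Y J' := by
        intro v hv
        rcases List.mem_cons.1 hv with rfl | hv
        · exact hstQ
        · rcases List.mem_cons.1 hv with rfl | hv
          · exact H.mono hsub' hf.2
          · obtain ⟨i, hi, rfl⟩ := List.mem_map.1 hv
            exact (hF2 i hi).1
      have h5 := hopx 2 J' _ hl
      have h6 : opx c y mm hmm ord fn st (c.lv a) 2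
          (st _ (H.W a) :: fn _ f :: F.map (fun i => ord i.1))
          = ord (back c y mm hmm (c.lv a) (dS c st _ (st _ (H.W a)))
            (dF c fn _ (fn _ f) (((F.map (fun i => ord i.1)).map (dO c ord _)).map
              (pl c y mm hmm (c.lv a) (dS c st _ (st _ (H.W a))))))).1 := rfl
      have h7 : (F.map (fun i => ord i.1)).map (dO c ord (mm (c.lv a))) = F := by
        rw [List.map_map]
        have h8 : (dO c ord (mm (c.lv a)) ∘ fun i : Iio (c.L (mm (c.lv a))) => ord i.1) = id := by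
          funext i
          exact dO_ord c ord hord _ i
        rw [h8, List.map_id]
      rw [h6, h7, dF_fn c fn hfn, dS_st c st hst] at h5
      exact h5)
    (τ.trans θ) (fun i => hθ (τ i))
    (by
      intro v
      constructor
      · intro hv
        have h1 := H.elim J (mm (c.lv a)) v.1 v.2 hv
        have h2 : {i | i ∈ J ∧ c.lv (plc i) ≤ mm (c.lv a)} ⊆
            {i | i ∈ J' ∧ i < wpt a} ∪ upt '' {i | a ≤ i ∧ i < c.L (mm (c.lv a))} := by
          rintro i ⟨hi, hil⟩
          by_cases hia : i < wpt a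
          · exact Or.inl ⟨(hJ0 i hia).1 hi, hia⟩
          · exact Or.inr (hJ1 i hi hil hia)
        obtain ⟨f, hf, E, hE1, hE2, hE3⟩ := H.repr {i | i ∈ J' ∧ i < wpt a} a
          {i | a ≤ i ∧ i < c.L (mm (c.lv a))} hqa hlow (fun i hi => hi) v.1 v.2 (H.mono h2 h1)
        exact ⟨f, ⟨H.fine _ a hqa hlow f hf, hf⟩, E, hE1, hE2, Subtype.ext hE3⟩
      · rintro ⟨f, hf, E, hE1, hE2, rfl⟩
        have hl : ∀ v ∈ fn _ f :: E.map (fun i => H.γ (upt i)), v ∈ H.Y J := by
          intro v hv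
          rcases List.mem_cons.1 hv with rfl | hv
          · exact H.mono hsub hf.2
          · obtain ⟨i, hi, rfl⟩ := List.mem_map.1 hv
            exact H.pt_mem J _ (hJ2 i (hE2 i hi).1 (hE2 i hi).2)
              (hqa.trans (c.lv_mono (hE2 i hi).1))
        have h5 := hopx 4 J _ hl
        have h6 : opx c y mm hmm ord fn st (c.lv a) 4 (fn _ f :: E.map (fun i => H.γ (upt i)))
            = ord (dF c fn (mm (c.lv a)) (fn _ f)
              ((E.map (fun i => H.γ (upt i))).map (dO c ord _))).1 := rfl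
        have h7 : (E.map (fun i => H.γ (upt i))).map (dO c ord (mm (c.lv a)))
            = E.map (fun i => c.clamp (mm (c.lv a)) (H.U i)) := by
          rw [List.map_map]
          apply List.map_congr_left
          intro i hi
          have hqi : q ≤ c.lv i := hqa.trans (c.lv_mono (hE2 i hi).1)
          have hlt : H.U i < c.L (mm (c.lv a)) :=
            (H.U_lt i hqi).trans_le (c.mono.monotone (c.lv_le_iff.2 (hE2 i hi).2))
          have h8 : H.γ (upt i) = ord (c.clamp (mm (c.lv a)) (H.U i)).1 := by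
            rw [H.U_eq i hqi, c.clamp_of_lt hlt]
          change dO c ord _ (H.γ (upt i)) = _
          rw [h8, dO_ord c ord hord]
        rw [h6, h7, dF_fn c fn hfn] at h5
        exact h5)
    (fun f hf g hg E hE1 hE2 s t => H.types_lt _ a hqa hlow f g hf.2 hg.2 E hE1 hE2 s t)
    (fun f hf E hE1 hE2 => H.types_mem _ a hqa hlow f hf.2 E hE1 hE2)
  apply colSet_ne Θ ⟨eta c y mm hmm _ (H.W a), hetaY⟩ _ hrr
  rw [← hΘ, ← heo]
  exact heta

/-! ### the index sets -/

omit [WellFoundedLT Λ] in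
theorem idx_cases (i : Idx Λ) : i = wpt (plc i) ∨ i = upt (plc i) := by
  cases hb : (ofLex i).2
  · left
    change toLex ((ofLex i).1, (ofLex i).2) = toLex ((ofLex i).1, false)
    rw [hb]
  · right
    change toLex ((ofLex i).1, (ofLex i).2) = toLex ((ofLex i).1, true)
    rw [hb]

omit [WellFoundedLT Λ] in
theorem lt_wpt_iff (i : Idx Λ) (a : Λ) : i < wpt a ↔ plc i < a := by
  unfold wpt plc
  rw [Prod.Lex.lt_iff]
  constructor
  · rintro (h | ⟨-, h⟩)
    · exact h
    · have h1 : (ofLex i).2 < false := h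
      exact absurd h1 (by cases (ofLex i).2 <;> decide)
  · intro h
    exact Or.inl h

omit [WellFoundedLT Λ] in
theorem wpt_mem (c : Ctx Λ) (ns : ℕ → ℕ) (x : ℕ → Λ) (p : Λ) :
    wpt p ∈ Jset c ns x ↔ ∃ k, c.lv p = ns k ∧ p < x k := by
  constructor
  · rintro (⟨-, h⟩ | ⟨h, -⟩)
    · exact h
    · exact absurd (show false = true from h) (by decide)
  · intro h
    exact Or.inl ⟨rfl, h⟩

omit [WellFoundedLT Λ] in
theorem upt_mem (c : Ctx Λ) (ns : ℕ → ℕ) (x : ℕ → Λ) (p : Λ) :
    upt p ∈ Jset c ns x ↔ ∀ k, c.lv p = ns k → x k ≤ p := by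
  constructor
  · rintro (⟨h, -⟩ | ⟨-, h⟩)
    · exact absurd (show true = false from h) (by decide)
    · exact h
  · intro h
    exact Or.inr ⟨rfl, h⟩

/-- the hulls are large at all levels -/
theorem card_hull {M : Type v} (c : Ctx Λ) (q : ℕ) (y : Set Λ) (mm : ℕ → ℕ)
    (ord : Λ → M) (fn : ∀ m, Fn (c.L m) → M) (st : ∀ m, Set (Fn (c.L m)) → M)
    {O : Type u} (ops : O → List M → M) (H : Hull c q mm y ord fn st ops)
    (ns : ℕ → ℕ) (hns : StrictMono ns) (hq : q = ns 0) (x : ℕ → Λ)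
    (hx : ∀ k, c.lv (x k) = ns k) (n : ℕ) (hn : q ≤ n) :
    #↥({i | ord i ∈ H.Y (Jset c ns x)} ∩ Iio (c.L n)) = c.κ n := by
  obtain ⟨b, hb, hqb, hbJ⟩ : ∃ b, b < c.L n ∧ q ≤ c.lv b ∧
      ∀ i, b ≤ i → i < c.L n → upt i ∈ Jset c ns x := by
    by_cases hex : ∃ k, n = ns k
    · obtain ⟨k, rfl⟩ := hex
      refine ⟨x k, ?_, by rw [hx k]; exact hn, ?_⟩
      · have := c.lt_L_lv (x k)
        rwa [hx k] at this
      · intro i hi hiL
        rw [upt_mem]
        intro k' hk'
        have h1 : c.lv i ≤ ns k := c.lv_le_iff.2 hiL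
        have h2 : ns k ≤ c.lv i := by rw [← hx k]; exact c.lv_mono hi
        have h3 : k' = k := hns.injective (by omega)
        rw [h3]; exact hi
    · have hn0 : n ≠ 0 := by
        rintro rfl
        exact hex ⟨0, by omega⟩
      obtain ⟨n', rfl⟩ := Nat.exists_eq_succ_of_ne_zero hn0
      have hlv : ∀ i, c.L n' ≤ i → i < c.L (n' + 1) → c.lv i = n' + 1 := by
        intro i hi hiL
        have h1 : c.lv i ≤ n' + 1 := c.lv_le_iff.2 hiL
        have h2 : ¬ c.lv i ≤ n' := by
          rw [c.lv_le_iff]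
          exact not_lt.2 hi
        omega
      refine ⟨c.L n', c.mono (Nat.lt_succ_self n'), ?_, ?_⟩
      · rw [hlv _ le_rfl (c.mono (Nat.lt_succ_self n'))]
        exact hn
      · intro i hi hiL
        rw [upt_mem]
        intro k' hk'
        rw [hlv i hi hiL] at hk'
        exact absurd ⟨k', hk'⟩ hex
  apply le_antisymm
  · exact mk_le_mk_of_subset inter_subset_right
  · have h1 : #↥({i | b ≤ i} ∩ Iio (c.L n)) = c.κ n :=
      card_tail c n univ _ (by rw [univ_inter]; rfl) b hb (fun i _ _ hi => hi)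
    rw [← h1]
    have hqi : ∀ i, b ≤ i → q ≤ c.lv i := fun i hi => hqb.trans (c.lv_mono hi)
    refine mk_le_of_injective (f := fun i : ↥({i | b ≤ i} ∩ Iio (c.L n)) =>
      (⟨H.U i.1, ?_, ?_⟩ : ↥({i | ord i ∈ H.Y (Jset c ns x)} ∩ Iio (c.L n)))) ?_
    · have h2 := H.pt_mem (Jset c ns x) (upt i.1) (hbJ i.1 i.2.1 i.2.2) (hqi i.1 i.2.1)
      rw [H.U_eq i.1 (hqi i.1 i.2.1)] at h2
      exact h2
    · exact (H.U_lt i.1 (hqi i.1 i.2.1)).trans_le (c.mono.monotone (c.lv_le_iff.2 i.2.2))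
    · intro i j hij
      have h2 : H.U i.1 = H.U j.1 := congrArg (fun v => v.1) hij
      apply Subtype.ext
      rcases lt_trichotomy i.1 j.1 with h | h | h
      · exact absurd h2 (H.U_mono _ _ (hqi i.1 i.2.1) h).ne
      · exact h
      · exact absurd h2 (H.U_mono _ _ (hqi j.1 j.2.1) h).ne'

/-- the sum type containing the given type and the two kinds of points -/
abbrev Big (A : Type v) (c : Ctx Λ) : Type max u v :=
  A ⊕ (Σ m, Fn (c.L m)) ⊕ (Σ m, Set (Fn (c.L m)))

end KeyAux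

open KeyAux

/-- the combinatorial core -/
theorem core (c : Ctx Λ) (q : ℕ) {A : Type v} [Nonempty A] (emb : Λ → A)
    (hemb : Function.Injective emb) {O : Type u} (ops : O → List A → A) (hO : #O < c.κ q)
    (y : Set Λ) (hy : c.Good y) :
    ∃ (ns ms : ℕ → ℕ) (Y : (ℕ → Λ) → Set A), q ≤ ns 0 ∧ (∀ k, ns k ≤ ms k) ∧
      (∀ k, ms k < ns (k + 1)) ∧
      ∀ x : ℕ → Λ, (∀ k, c.lv (x k) = ns k) →
        (∀ o l, (∀ v ∈ l, v ∈ Y x) → ops o l ∈ Y x) ∧
        (∀ n, q ≤ n → #↥({i | emb i ∈ Y x} ∩ Iio (c.L n)) = c.κ n) ∧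
        ∀ x' : ℕ → Λ, (∀ k, c.lv (x' k) = ns k) → ∀ k, (∀ j < k, x j = x' j) →
          (x k = x' k → ∀ i < c.L (ms k), (emb i ∈ Y x ↔ emb i ∈ Y x')) ∧
          (x k < x' k → colSet {i | emb i ∈ Y x} y ∩ Iio (c.L (ms k)) ≠
            colSet {i | emb i ∈ Y x'} y ∩ Iio (c.L (ms k))) := by
  classical
  choose mf hmf1 hmf2 using hy
  let ns : ℕ → ℕ := fun k => Nat.rec q (fun _ n => mf n + 1) k
  have hnsS : ∀ k, ns (k + 1) = mf (ns k) + 1 := fun k => rfl
  have hmono : StrictMono ns := strictMono_nat_of_lt_succ (fun k => by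
    rw [hnsS]
    have := hmf1 (ns k)
    omega)
  have hns0 : q = ns 0 := rfl
  have hqns : ∀ k, q ≤ ns k := fun k => by
    rw [hns0]
    exact hmono.monotone (Nat.zero_le k)
  let ord : Λ → Big A c := fun i => Sum.inl (emb i)
  let fn : ∀ m, Fn (c.L m) → Big A c := fun m f => Sum.inr (Sum.inl ⟨m, f⟩)
  let st : ∀ m, Set (Fn (c.L m)) → Big A c := fun m Q => Sum.inr (Sum.inr ⟨m, Q⟩)
  have hord : Function.Injective ord := fun i j h => hemb (Sum.inl_injective h)
  have hfn : ∀ m, Function.Injective (fn m) := by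
    intro m f g h
    have h1 := Sum.inl_injective (Sum.inr_injective h)
    exact eq_of_heq (Sigma.mk.inj h1).2
  have hst : ∀ m, Function.Injective (st m) := by
    intro m f g h
    have h1 := Sum.inr_injective (Sum.inr_injective h)
    exact eq_of_heq (Sigma.mk.inj h1).2
  let pA : Big A c → A := Sum.elim id (fun _ => Classical.arbitrary A)
  let ops' : O ⊕ ULift.{u} (ℕ × ℕ) → List (Big A c) → Big A c := fun o =>
    Sum.elim (fun o l => Sum.inl (ops o (l.map pA)))
      (fun p => opx c y mf hmf1 ord fn st p.down.1 p.down.2) o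
  have hO' : #(O ⊕ ULift.{u} (ℕ × ℕ)) < c.κ q := by
    rw [← Cardinal.add_def]
    exact add_lt_of_lt (c.aleph0_lt q).le hO (mk_le_aleph0.trans_lt (c.aleph0_lt q))
  obtain ⟨H⟩ := exists_hull c q mf hmf1 y ord fn st hord hfn hst ops' hO'
  refine ⟨ns, fun k => mf (ns k), fun x => {v | (Sum.inl v : Big A c) ∈ H.Y (Jset c ns x)},
    le_of_eq hns0, fun k => hmf1 _, fun k => by rw [hnsS]; exact Nat.lt_succ_self _, ?_⟩
  intro x hx
  refine ⟨?_, ?_, ?_⟩
  · -- closure
    intro o l hl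
    have h1 := H.op_mem (Jset c ns x) (Sum.inl o) (l.map Sum.inl) (by
      intro v hv
      obtain ⟨w, hw, rfl⟩ := List.mem_map.1 hv
      exact hl w hw)
    have h2 : ops' (Sum.inl o) (l.map Sum.inl) = Sum.inl (ops o l) := by
      change Sum.inl (ops o ((l.map Sum.inl).map pA)) = Sum.inl (ops o l)
      rw [List.map_map]
      have h3 : (pA ∘ Sum.inl : A → A) = id := rfl
      rw [h3, List.map_id]
    rw [h2] at h1
    exact h1
  · -- cardinality
    intro n hn
    exact card_hull c q y mf ord fn st ops' H ns hmono hns0 x hx n hn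
  · intro x' hx' k hk
    -- the levels
    have hlow : ∀ k', ns k' ≤ mf (ns k) → k' ≤ k := by
      intro k' h
      by_contra hcon
      have h0 : k + 1 ≤ k' := by omega
      have h1 : ns (k + 1) ≤ ns k' := hmono.monotone h0
      rw [hnsS] at h1
      omega
    refine ⟨?_, ?_⟩
    · intro hxk
      have half : ∀ x x' : ℕ → Λ, (∀ j ≤ k, x j = x' j) → ∀ i < c.L (mf (ns k)),
          ord i ∈ H.Y (Jset c ns x) → ord i ∈ H.Y (Jset c ns x') := by
        intro x x' hj i hi h
        have h1 := H.elim (Jset c ns x) (mf (ns k)) i hi h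
        apply H.mono _ h1
        rintro p ⟨hp, hpl⟩
        rcases idx_cases p with hc | hc
        · rw [hc, wpt_mem] at hp
          rw [hc, wpt_mem]
          obtain ⟨k', h2, h3⟩ := hp
          refine ⟨k', h2, ?_⟩
          rw [← hj k' (hlow k' (by omega))]
          exact h3
        · rw [hc, upt_mem] at hp
          rw [hc, upt_mem]
          intro k' h2
          rw [← hj k' (hlow k' (by omega))]
          exact hp k' h2
      have hj : ∀ j ≤ k, x j = x' j := by
        intro j hjk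
        rcases Nat.lt_or_ge j k with h | h
        · exact hk j h
        · have : j = k := by omega
          rw [this]; exact hxk
      intro i hi
      exact ⟨half x x' hj i hi, half x' x (fun j hjk => (hj j hjk).symm) i hi⟩
    · intro hlt
      have hlva := hx k
      have hge : ∀ p, x k ≤ p → ns k ≤ c.lv p := fun p hp => by
        rw [← hlva]; exact c.lv_mono hp
      have h := key c q y mf hmf1 ord fn st hord hfn hst ops' H
        (fun n j => ⟨Sum.inr ⟨(n, j)⟩, rfl⟩) hmf2 (x k) (by rw [hlva]; exact hqns k)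
        (Jset c ns x) (Jset c ns x')
        (by rw [wpt_mem]; exact ⟨k, hlva, hlt⟩)
        (by
          intro i hi
          rw [lt_wpt_iff] at hi
          have hlv : c.lv (plc i) ≤ ns k := by
            rw [← hlva]; exact c.lv_mono hi.le
          have hkk : ∀ k', c.lv (plc i) = ns k' → k' < k ∨ k' = k := by
            intro k' h'
            have : ns k' ≤ ns k := by omega
            have := hmono.le_iff_le.1 this
            omega
          rcases idx_cases i with hc | hc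
          · rw [hc, wpt_mem, wpt_mem]
            constructor
            · rintro ⟨k', h1, h2⟩
              rcases hkk k' h1 with h3 | h3
              · exact ⟨k', h1, by rw [← hk k' h3]; exact h2⟩
              · subst h3
                exact ⟨k', h1, h2.trans hlt⟩
            · rintro ⟨k', h1, h2⟩
              rcases hkk k' h1 with h3 | h3
              · exact ⟨k', h1, by rw [hk k' h3]; exact h2⟩
              · subst h3
                exact ⟨k', h1, hi⟩
          · rw [hc, upt_mem, upt_mem]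
            constructor
            · intro h0 k' h1
              rcases hkk k' h1 with h3 | h3
              · rw [← hk k' h3]; exact h0 k' h1
              · subst h3
                exact absurd hi (not_lt.2 (h0 k' h1))
            · intro h0 k' h1
              rcases hkk k' h1 with h3 | h3
              · rw [hk k' h3]; exact h0 k' h1
              · subst h3
                exact absurd (hi.trans hlt) (not_lt.2 (h0 k' h1)))
        (by
          intro i hi hil hia
          rw [lt_wpt_iff, not_lt] at hia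
          rw [hlva] at hil ⊢
          rcases idx_cases i with hc | hc
          · rw [hc, wpt_mem] at hi
            obtain ⟨k', h1, h2⟩ := hi
            have h3 := hge _ hia
            have h4 : k' ≤ k := hlow k' (by omega)
            have h5 : k ≤ k' := hmono.le_iff_le.1 (by omega)
            have h6 : k' = k := by omega
            rw [h6] at h2
            exact absurd hia (not_le.2 h2)
          · exact ⟨plc i, ⟨hia, c.lv_le_iff.1 hil⟩, hc.symm⟩)
        (by
          intro i hi hiL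
          rw [hlva] at hiL
          rw [upt_mem]
          intro k' h1
          have h2 : c.lv i ≤ mf (ns k) := c.lv_le_iff.2 hiL
          have h3 := hge _ hi
          have h4 : k' ≤ k := hlow k' (by omega)
          have h5 : k ≤ k' := hmono.le_iff_le.1 (by omega)
          have h6 : k' = k := by omega
          rw [h6]; exact hi)
        (card_hull c q y mf ord fn st ops' H ns hmono hns0 x hx _
          (by rw [hlva]; exact (hqns k).trans (hmf1 _)))
        (fun j hj _ => card_hull c q y mf ord fn st ops' H ns hmono hns0 x' hx' j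
          ((hqns k).trans (by rw [← hlva]; exact hj)))
      rw [hlva] at h
      exact h

end Pool.Agent.Lib.MP_62560c_lc
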